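import Pool.Agent.Lib.MP_0d8e88_lc.Disc
import Pool.Agent.Shared.PolyTime.Extra

/-!
Recognition of bar `k`-visibility graphs is in NP.
-/

namespace Pool.Agent.Lib.MP_0d8e88_lc

open Set Pool.Agent.Shared.PolyTime N487b59b3 N68a2faeb

section drep

variable {V : Type} {k : ℕ} {A : V → V → Prop}

/-- A representation with integer data and half-open life intervals. -/
structure DRep (k : ℕ) (A : V → V → Prop) (H b d : V → ℕ) : Prop where
  lt : ∀ v, b v < d v
  dist : ∀ u v, u ≠ v → b u ≠ b v ∧ d u ≠ d v ∧ b u ≠ d v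
  disj : ∀ u v, u ≠ v → ∀ t, DAl b d u t → DAl b d v t → H u ≠ H v
  adj : ∀ u v, u ≠ v → (A u v ↔ ∃ t, DAl b d u t ∧ DAl b d v t ∧
    {w | DAl b d w t ∧ ((H u < H w ∧ H w < H v) ∨ (H v < H w ∧ H w < H u))}.ncard ≤ k)

theorem rep_of_drep [Finite V] {H b d : V → ℕ} (D : DRep k A H b d) :
    RepOn k univ A (fun v => H v) (fun v => b v) (fun v => d v) := by
  have tm : ∀ u v, u ≠ v → ∀ t, Al (fun v => (b v : ℝ)) (fun v => d v) u t →
      Al (fun v => (b v : ℝ)) (fun v => d v) v t → ∃ n, DAl b d u n ∧ DAl b d v n ∧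
        ∀ w, DAl b d w n → Al (fun v => (b v : ℝ)) (fun v => d v) w t := by
    intro u v ne t h1 h2
    obtain ⟨n, k1, k2, k3⟩ := exists_time (D.lt u) (D.lt v) (D.dist u v ne).2.2
      (D.dist v u ne.symm).2.2 h1 h2
    exact ⟨n, k1, k2, fun w hw => k3 _ _ hw⟩
  refine ⟨fun v _ => Nat.cast_lt.2 (D.lt v), fun u _ v _ n => ?_, fun u _ v _ n t a c e => ?_,
    fun u _ v _ n => (D.adj u v n).trans ⟨?_, ?_⟩⟩
  · obtain ⟨a1, a2, a3⟩ := D.dist u v n
    exact ⟨fun x => a1 (Nat.cast_injective (R := ℝ) x),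
      fun x => a2 (Nat.cast_injective (R := ℝ) x), fun x => a3 (Nat.cast_injective (R := ℝ) x)⟩
  · obtain ⟨m, m1, m2, -⟩ := tm u v n t a c
    exact D.disj u v n m m1 m2 (Nat.cast_injective (R := ℝ) e)
  · rintro ⟨m, m1, m2, m3⟩
    have c : ∀ w, Al (fun v => (b v : ℝ)) (fun v => d v) w (m + 1 / 2) ↔ DAl b d w m :=
      fun w => dal_iff (by linarith) (by linarith)
    refine ⟨m + 1 / 2, (c u).2 m1, (c v).2 m2, ?_⟩
    simpa only [c, Btw, mem_univ, true_and, Nat.cast_lt] using m3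
  · rintro ⟨t, t1, t2, t3⟩
    obtain ⟨m, m1, m2, m3⟩ := tm u v n t t1 t2
    refine ⟨m, m1, m2, le_trans (ncard_le_ncard ?_ (toFinite _)) t3⟩
    intro w hw
    refine ⟨trivial, m3 w hw.1, ?_⟩
    simpa only [Btw, Nat.cast_lt] using hw.2

/-- Number of elements of `E` below `x`. -/
noncomputable def rk (E : Finset ℝ) (x : ℝ) : ℕ := (E.filter (· < x)).card

theorem rk_lt {E : Finset ℝ} {x : ℝ} (hx : x ∈ E) (y : ℝ) : rk E x < rk E y ↔ x < y := by
  constructor
  · intro h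
    by_contra c
    refine absurd (Finset.card_le_card fun z hz => ?_) (not_le.2 h)
    rw [Finset.mem_filter] at hz ⊢
    exact ⟨hz.1, hz.2.trans_le (not_lt.1 c)⟩
  · intro h
    refine Finset.card_lt_card ⟨fun z hz => ?_, fun c => ?_⟩
    · rw [Finset.mem_filter] at hz ⊢
      exact ⟨hz.1, hz.2.trans h⟩
    · simpa using c (Finset.mem_filter.2 ⟨hx, h⟩)

theorem exists_gap (E : Finset ℝ) (t : ℝ) : ∃ t', ∀ x ∈ E, (x < t' ↔ x ≤ t) := by
  rcases (E.filter (t < ·)).eq_empty_or_nonempty with e | e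
  · refine ⟨t + 1, fun x hx => ?_⟩
    have : x ≤ t := not_lt.1 fun c => by simpa [e] using Finset.mem_filter.2 ⟨hx, c⟩
    exact ⟨fun _ => this, fun _ => by linarith⟩
  · obtain ⟨m, m1, m2⟩ := Finset.exists_min_image _ id e
    refine ⟨m, fun x hx => ⟨fun c => not_lt.1 fun c' => ?_, fun c => ?_⟩⟩
    · exact absurd (m2 x (Finset.mem_filter.2 ⟨hx, c'⟩)) (not_le.2 c)
    · exact c.trans_lt (Finset.mem_filter.1 m1).2

theorem drep_of_rep [Fintype V] {h l r : V → ℝ} (R : RepOn k univ A h l r) :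
    ∃ H b d, DRep k A H b d ∧ ∀ v, H v ≤ Fintype.card V ∧ b v ≤ 2 * Fintype.card V ∧
      d v ≤ 2 * Fintype.card V := by
  classical
  let E : Finset ℝ := Finset.univ.image l ∪ Finset.univ.image r
  let F : Finset ℝ := Finset.univ.image h
  have lE : ∀ v, l v ∈ E := fun v => by simp [E]
  have rE : ∀ v, r v ∈ E := fun v => by simp [E]
  have hF : ∀ u v, rk F (h u) < rk F (h v) ↔ h u < h v := fun u v => rk_lt (by simp [F]) _
  have inj : ∀ x ∈ E, ∀ y ∈ E, x ≠ y → rk E x ≠ rk E y := by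
    intro x hx y hy n
    rcases lt_or_gt_of_ne n with c | c
    · exact ((rk_lt hx y).2 c).ne
    · exact ((rk_lt hy x).2 c).ne'
  have cE : ∀ x, rk E x ≤ 2 * Fintype.card V := by
    intro x
    have h1 : rk E x ≤ E.card := Finset.card_filter_le _ _
    have h2 : E.card ≤ _ := Finset.card_union_le _ _
    have h3 : (Finset.univ.image l).card ≤ Fintype.card V := Finset.card_image_le
    have h4 : (Finset.univ.image r).card ≤ Fintype.card V := Finset.card_image_le
    omega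
  have back : ∀ u m, DAl (fun v => rk E (l v)) (fun v => rk E (r v)) u m → ∃ t, ∀ w,
      (Al l r w t ↔ DAl (fun v => rk E (l v)) (fun v => rk E (r v)) w m) := by
    intro u m hu
    obtain ⟨e, e1, e2⟩ := Finset.exists_max_image (E.filter (rk E · ≤ m)) id
      ⟨l u, Finset.mem_filter.2 ⟨lE u, hu.1⟩⟩
    obtain ⟨f, f1, f2⟩ := Finset.exists_min_image (E.filter (m < rk E ·)) id
      ⟨r u, Finset.mem_filter.2 ⟨rE u, hu.2⟩⟩
    rw [Finset.mem_filter] at e1 f1
    have ef : e < f := (rk_lt e1.1 f).1 (e1.2.trans_lt f1.2)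
    have c : ∀ x ∈ E, (rk E x ≤ m → x < (e + f) / 2) ∧ (m < rk E x → (e + f) / 2 < x) := by
      intro x hx
      refine ⟨fun a => ?_, fun a => ?_⟩
      · have : x ≤ e := e2 x (Finset.mem_filter.2 ⟨hx, a⟩)
        linarith
      · have : f ≤ x := f2 x (Finset.mem_filter.2 ⟨hx, a⟩)
        linarith
    refine ⟨(e + f) / 2, fun w => ⟨fun a => ⟨not_lt.1 fun z => ?_, not_le.1 fun z => ?_⟩,
      fun a => ⟨((c _ (lE w)).1 a.1).le, ((c _ (rE w)).2 a.2).le⟩⟩⟩
    · exact absurd a.1 (not_le.2 ((c _ (lE w)).2 z))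
    · exact absurd a.2 (not_le.2 ((c _ (rE w)).1 z))
  have forth : ∀ u v, u ≠ v → ∀ t, Al l r u t → Al l r v t → ∃ m,
      DAl (fun v => rk E (l v)) (fun v => rk E (r v)) u m ∧
      DAl (fun v => rk E (l v)) (fun v => rk E (r v)) v m ∧
      ∀ w, DAl (fun v => rk E (l v)) (fun v => rk E (r v)) w m → Al l r w t := by
    intro u v n t h1 h2
    have key : ∀ t', l u < t' → ∀ w, (DAl (fun v => rk E (l v)) (fun v => rk E (r v)) w
        (rk E t' - 1) ↔ l w < t' ∧ ¬r w < t') := by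
      intro t' h0 w
      have a := (rk_lt (lE u) t').2 h0
      rw [← rk_lt (lE w), ← rk_lt (rE w), DAl]
      omega
    by_cases c : t = r u ∨ t = r v
    · have a1 : l u < t := by
        rcases c with c | c
        · exact c ▸ R.lt u trivial
        · exact lt_of_le_of_ne h1.1 (c ▸ (R.dist u trivial v trivial n).2.2)
      have a2 : l v < t := by
        rcases c with c | c
        · exact lt_of_le_of_ne h2.1 (c ▸ (R.dist v trivial u trivial n.symm).2.2)
        · exact c ▸ R.lt v trivial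
      refine ⟨rk E t - 1, (key t a1 u).2 ⟨a1, not_lt.2 h1.2⟩, (key t a1 v).2 ⟨a2, not_lt.2 h2.2⟩,
        fun w hw => ?_⟩
      rw [key t a1] at hw
      exact ⟨hw.1.le, not_lt.1 hw.2⟩
    · rw [not_or] at c
      obtain ⟨t', ht⟩ := exists_gap E t
      have a1 := (ht _ (lE u)).2 h1.1
      refine ⟨rk E t' - 1, (key t' a1 u).2 ⟨a1, ?_⟩, (key t' a1 v).2 ⟨(ht _ (lE v)).2 h2.1, ?_⟩,
        fun w hw => ?_⟩
      · rw [ht _ (rE u)]
        exact fun z => c.1 (le_antisymm h1.2 z)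
      · rw [ht _ (rE v)]
        exact fun z => c.2 (le_antisymm h2.2 z)
      · rw [key t' a1, ht _ (lE w), ht _ (rE w)] at hw
        exact ⟨hw.1, (not_le.1 hw.2).le⟩
  refine ⟨fun v => rk F (h v), fun v => rk E (l v), fun v => rk E (r v),
    ⟨fun v => (rk_lt (lE v) _).2 (R.lt v trivial), fun u v n => ?_, fun u v n m a b e => ?_,
      fun u v n => (R.adj u trivial v trivial n).trans ⟨?_, ?_⟩⟩, fun v => ⟨?_, cE _, cE _⟩⟩
  · obtain ⟨a1, a2, a3⟩ := R.dist u trivial v trivial n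
    exact ⟨inj _ (lE u) _ (lE v) a1, inj _ (rE u) _ (rE v) a2, inj _ (lE u) _ (rE v) a3⟩
  · obtain ⟨t, ht⟩ := back u m a
    rcases lt_or_gt_of_ne (R.disj u trivial v trivial n t ((ht u).2 a) ((ht v).2 b)) with c | c
    · exact ((hF u v).2 c).ne e
    · exact ((hF v u).2 c).ne' e
  · rintro ⟨t, t1, t2, t3⟩
    obtain ⟨m, m1, m2, m3⟩ := forth u v n t t1 t2
    refine ⟨m, m1, m2, le_trans (ncard_le_ncard ?_ (toFinite _)) t3⟩
    intro w hw
    refine ⟨trivial, m3 w hw.1, ?_⟩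
    simpa only [Btw, hF] using hw.2
  · rintro ⟨m, m1, m2, m3⟩
    obtain ⟨t, ht⟩ := back u m m1
    refine ⟨t, (ht u).2 m1, (ht v).2 m2, ?_⟩
    simpa only [ht, Btw, mem_univ, true_and, hF] using m3
  · exact (Finset.card_filter_le _ _).trans Finset.card_image_le

end drep

theorem length_adjWord {n : ℕ} (G : SimpleGraph (Fin n)) : (adjWord G).length = n * n := by
  simp [adjWord]

/-- The entry of a square matrix written row by row. -/
def entry (x : List Bool) (n i j : ℕ) : Bool := x.getD (i * n + j) false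

theorem entry_adjWord {n : ℕ} (G : SimpleGraph (Fin n)) (i j : Fin n) :
    entry (adjWord G) n i j = true ↔ G.Adj i j := by
  have hi := i.2
  have hj := j.2
  have h : (i : ℕ) * n + j < n * n := by nlinarith
  have h1 : ((i : ℕ) * n + j) / n = i := by
    rw [add_comm, Nat.add_mul_div_right _ _ (by omega), Nat.div_eq_of_lt hj, zero_add]
  have h2 : ((i : ℕ) * n + j) % n = j := by
    rw [add_comm, Nat.add_mul_mod_self_right, Nat.mod_eq_of_lt hj]
  rw [entry, List.getD_eq_getElem _ _ (by rwa [length_adjWord])]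
  simp [adjWord, Fin.divNat, Fin.modNat, h1, h2]

theorem adjWord_inj {n m : ℕ} {G : SimpleGraph (Fin n)} {H : SimpleGraph (Fin m)}
    (h : adjWord G = adjWord H) (P : ∀ {k : ℕ}, SimpleGraph (Fin k) → Prop) (hG : P G) : P H := by
  have h1 := congrArg List.length h
  rw [length_adjWord, length_adjWord] at h1
  obtain rfl : n = m := Nat.mul_self_inj.1 h1
  have : G = H := by
    ext i j
    rw [← entry_adjWord, ← entry_adjWord, h]
  exact this ▸ hG

theorem barLang_iff (k : ℕ) (x : List Bool) : barLang k x = true ↔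
    ∃ (n : ℕ) (G : SimpleGraph (Fin n)), x = adjWord G ∧ IsBarVis k G := by
  simp [barLang]

theorem ncard_fin (n : ℕ) (p : ℕ → Prop) [DecidablePred p] :
    {w : Fin n | p w}.ncard = (List.range n).countP (fun w => decide (p w)) := by
  rw [← ncard_image_of_injective _ Fin.val_injective, List.countP_eq_length_filter,
    ← List.toFinset_card_of_nodup (List.nodup_range.filter _), ← ncard_coe_finset]
  congr 1
  ext i
  simp only [mem_image, mem_ofPred_eq, List.coe_toFinset, List.mem_filter, List.mem_range,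
    decide_eq_true_eq]
  exact ⟨fun ⟨w, a, b⟩ => b ▸ ⟨w.2, a⟩, fun a => ⟨⟨i, a.1⟩, a.2, rfl⟩⟩

def wH (w : List (ℕ × ℕ × ℕ)) (i : ℕ) : ℕ := (w.getD i (0, 0, 0)).1

def wb (w : List (ℕ × ℕ × ℕ)) (i : ℕ) : ℕ := (w.getD i (0, 0, 0)).2.1

def wd (w : List (ℕ × ℕ × ℕ)) (i : ℕ) : ℕ := (w.getD i (0, 0, 0)).2.2

/-- The conditions tested by the verifier. -/
def Ver (k : ℕ) (x : List Bool) (w : List (ℕ × ℕ × ℕ)) : Prop :=
  x.length = w.length * w.length ∧ ∀ i < w.length,
    (wb w i < wd w i ∧ wd w i ≤ 2 * w.length ∧ entry x w.length i i = false) ∧ ∀ j < w.length,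
      entry x w.length i j = entry x w.length j i ∧ (i ≠ j →
        (wb w i ≠ wb w j ∧ wd w i ≠ wd w j ∧ wb w i ≠ wd w j) ∧
        (∀ t < 2 * w.length, (wb w i ≤ t ∧ t < wd w i) → (wb w j ≤ t ∧ t < wd w j) →
          wH w i ≠ wH w j) ∧
        (entry x w.length i j = true ↔ ∃ t < 2 * w.length, (wb w i ≤ t ∧ t < wd w i) ∧
          (wb w j ≤ t ∧ t < wd w j) ∧ (List.range w.length).countP (fun z =>
            decide ((wb w z ≤ t ∧ t < wd w z) ∧ ((wH w i < wH w z ∧ wH w z < wH w j) ∨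
              (wH w j < wH w z ∧ wH w z < wH w i)))) ≤ k))

open Classical in
theorem pt_ver (k : ℕ) :
    IsPolyTime (fun z : List Bool × List (ℕ × ℕ × ℕ) => decide (Ver k z.1 z.2)) := by
  unfold Ver entry wH wb wd
  fun_prop

theorem ver_iff {k n : ℕ} (G : SimpleGraph (Fin n)) {w : List (ℕ × ℕ × ℕ)} (hw : w.length = n)
    (hd : ∀ i < n, wd w i ≤ 2 * n) : Ver k (adjWord G) w ↔
      DRep k G.Adj (fun i => wH w i) (fun i => wb w i) (fun i => wd w i) := by
  subst hw
  have tb : ∀ (i : Fin w.length) (p : ℕ → Prop), (∃ t < 2 * w.length,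
      (wb w i ≤ t ∧ t < wd w i) ∧ p t) ↔ ∃ t, (wb w i ≤ t ∧ t < wd w i) ∧ p t := fun i p =>
    ⟨fun ⟨t, _, a⟩ => ⟨t, a⟩, fun ⟨t, a⟩ => ⟨t, a.1.2.trans_le (hd i i.2), a⟩⟩
  constructor
  · rintro ⟨-, h⟩
    refine ⟨fun v => (h v v.2).1.1, fun u v n => (((h u u.2).2 v v.2).2 (Fin.val_ne_of_ne n)).1,
      fun u v n t a b => (((h u u.2).2 v v.2).2 (Fin.val_ne_of_ne n)).2.1 t
        (a.2.trans_le (hd u u.2)) a b, fun u v n => ?_⟩
    have := (((h u u.2).2 v v.2).2 (Fin.val_ne_of_ne n)).2.2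
    rw [entry_adjWord, tb] at this
    simp only [← ncard_fin] at this
    exact this
  · intro D
    refine ⟨length_adjWord G, fun i hi => ⟨⟨D.lt ⟨i, hi⟩, hd i hi, ?_⟩, fun j hj => ⟨?_, fun n => ?_⟩⟩⟩
    · exact Bool.eq_false_iff.2 fun h => G.irrefl ((entry_adjWord G ⟨i, hi⟩ ⟨i, hi⟩).1 h)
    · rw [Bool.eq_iff_iff]
      exact (entry_adjWord G ⟨i, hi⟩ ⟨j, hj⟩).trans
        ((G.adj_comm _ _).trans (entry_adjWord G ⟨j, hj⟩ ⟨i, hi⟩).symm)
    · have n' : (⟨i, hi⟩ : Fin w.length) ≠ ⟨j, hj⟩ := fun e => n (congrArg Fin.val e)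
      refine ⟨D.dist _ _ n', fun t _ => D.disj _ _ n' t, ?_⟩
      rw [entry_adjWord G ⟨i, hi⟩ ⟨j, hj⟩, tb ⟨i, hi⟩]
      simp only [← ncard_fin]
      exact D.adj _ _ n'

theorem ver_sound {k : ℕ} {x : List Bool} {w : List (ℕ × ℕ × ℕ)} (h : Ver k x w) :
    barLang k x = true := by
  let G : SimpleGraph (Fin w.length) :=
    { Adj := fun i j => entry x w.length i j = true
      symm := ⟨fun i j a => by rwa [← ((h.2 i i.2).2 j j.2).1]⟩
      loopless := ⟨fun i a => by simpa [a] using (h.2 i i.2).1.2.2⟩ }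
  have hx : x = adjWord G := by
    apply List.ext_getElem
    · rw [h.1, length_adjWord]
    · intro i k1 k2
      have : i / w.length * w.length + i % w.length = i := Nat.div_add_mod' i _
      simp [adjWord, G, Fin.divNat, Fin.modNat, entry, this, k1]
  rw [barLang_iff]
  refine ⟨_, G, hx, (isBarVis_iff k G).2 ⟨_, _, _, rep_of_drep
    ((ver_iff G rfl fun i hi => (h.2 i hi).1.2.1).1 (hx ▸ h))⟩⟩

theorem ver_complete {k : ℕ} {x : List Bool} (h : barLang k x = true) :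
    ∃ w : List (ℕ × ℕ × ℕ), bsize w ≤ 21 * x.length ∧ Ver k x w := by
  obtain ⟨n, G, rfl, hG⟩ := (barLang_iff k x).1 h
  obtain ⟨_, _, _, R⟩ := (isBarVis_iff k G).1 hG
  obtain ⟨H, b, d, D, hb⟩ := drep_of_rep R
  simp only [Fintype.card_fin] at hb
  have g : ∀ i : Fin n, (List.ofFn fun i => (H i, b i, d i)).getD i (0, 0, 0) = (H i, b i, d i) := by
    intro i
    rw [List.getD_eq_getElem _ _ (by simp)]
    simp
  refine ⟨List.ofFn fun i => (H i, b i, d i), ?_, ?_⟩
  · refine (bsize_list_le _ (8 * n + 2) ?_).trans ?_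
    · intro a ha
      obtain ⟨i, rfl⟩ := List.mem_ofFn.1 ha
      have h1 := bsize_nat_le_self (H i)
      have h2 := bsize_nat_le_self (b i)
      have h3 := bsize_nat_le_self (d i)
      have := hb i
      simp only [bsize_pair]
      omega
    · rw [length_adjWord, List.length_ofFn]
      nlinarith [Nat.le_mul_self n]
  · rw [ver_iff G (by simp) (fun i hi => by rw [wd, g ⟨i, hi⟩]; exact (hb _).2.2)]
    simpa only [wH, wb, wd, g] using D

theorem barLang_mem_NP (k : ℕ) : barLang k ∈ NP := by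
  classical
  refine ⟨21 * Polynomial.X, fun z => (bitDecode z.2 : Option (List (ℕ × ℕ × ℕ))).any
    (fun w => decide (Ver k z.1 w)), ?_, fun x => ⟨fun h => ?_, ?_⟩⟩
  · refine IsPolyTime.optionAny (by fun_prop) ?_
    exact (pt_ver k).comp (g := fun z : (List Bool × List Bool) × List (ℕ × ℕ × ℕ) =>
      (z.1.1, z.2)) (by fun_prop)
  · obtain ⟨w, h1, h2⟩ := ver_complete h
    exact ⟨bitEncode w, by simpa [bsize] using h1, by simp [h2]⟩
  · rintro ⟨u, -, hu⟩
    simp only [Option.any_eq_true, decide_eq_true_eq] at hu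
    obtain ⟨w, -, h⟩ := hu
    exact ver_sound h

end Pool.Agent.Lib.MP_0d8e88_lc
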