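import Pool.Agent.Lib.MP_0d8e88_lc.Constr

/-!
A satisfying assignment yields a representation.
-/

namespace Pool.Agent.Lib.MP_0d8e88_lc

open Pool.Agent.Shared.PolyTime

variable {ψ : List (Clause3 ℕ)} {st : ℕ → ℕ → ℕ}

/-- The sign of the literal number `i` in the row `r`. -/
def pol (ψ : List (Clause3 ℕ)) (r i : ℕ) : Bool :=
  if i = 0 then (row ψ r).1.2 else if i = 1 then (row ψ r).2.1.2 else (row ψ r).2.2.2

theorem kind_tap (hS : Sorted ψ) (r : ℕ) {i : ℕ} (hi : i < 3) :
    kind ψ r (slab ψ r (i + 1)) = 4 + 4 * i + (pol ψ r i).toNat := by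
  have h := row_ok hS r
  have k := kind_spec (ψ := ψ) r (slab ψ r (i + 1))
  have q := slab_spec (ψ := ψ) r
  interval_cases i <;> simp only [pol, reduceIte, Nat.reduceEqDiff, Nat.reduceAdd] at k ⊢ <;> omega

theorem sig_long : ∀ i < 3, isLong ((sig i).1 % 49) = true ∧ isLong ((sig i).2 % 49) = true ∧
    (sig i).1 < (sig i).2 ∧ (sig i).2 < 49 ∧ 5 ≤ (sig i).2 := by decide

theorem exc_cases : ∀ k ∈ kinds, ∀ s < nst k, ∀ a b, exc k s a b = true →
    (k = 16 ∧ ((a, b) = sig s ∨ (a, b) = (3, 23) ∨ (a, b) = (3, 26))) ∨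
      ∃ i < 3, k / 2 = 2 * (i + 1) ∧ s ≠ k % 2 ∧ (a, b) = sig i := by
  intro k hk s _ a b h
  unfold exc at h
  split_ifs at h with e
  · left
    simpa [e, or_assoc] using h
  · right
    simp only [Bool.and_eq_true, Bool.or_eq_true, beq_iff_eq, bne_iff_ne] at h
    exact ⟨k / 4 - 1, by omega, by omega, h.1.2, h.2⟩

theorem dvis_of_adjU (hS : Sorted ψ) (hst : StOK ψ st)
    (hsat : ∀ r < ψ.length,
      st r (slab ψ r (st r (nv ψ + 2) + 1)) = (pol ψ r (st r (nv ψ + 2))).toNat)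
    {u v : ℕ × ℕ} (hv : isCore ψ v = true) (h : adjU ψ u v) :
    DVis (coreS ψ) Prod.fst (bt ψ st) (dt ψ st) u v := by
  obtain ⟨h1, h2, s, hs, e1, e2, h3⟩ := h
  have c := core_lt hv
  obtain ⟨r, a, b, ha, hab, hb, hy, rfl, rfl, h⟩ : ∃ r a b, a < 49 ∧ a < b ∧ b < 54 ∧
      49 * r + b < 49 * ψ.length + 5 ∧ u = cv r s a ∧ v = cv r s b ∧
      LV (kind ψ r s) a b = true := by
    refine ⟨u.1 / 49, u.1 % 49, v.1 - 49 * (u.1 / 49), by omega, by omega, h2, by omega, ?_, ?_, h3⟩
    · rwa [cv, Nat.div_add_mod]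
    · rwa [cv, show 49 * (u.1 / 49) + (v.1 - 49 * (u.1 / 49)) = v.1 by omega]
  rcases lv_cases (kind_mem r s) (hst.1 r s) ha hb h with g | g
  · exact dvis_of_good hS hst hab hb hy hs g
  have kJ : kind ψ r (nv ψ + 2) = 16 := (kind_cls hS r _).2.1.2 rfl
  have sJ : st r (nv ψ + 2) < 3 := by
    have := hst.1 r (nv ψ + 2)
    rwa [kJ] at this
  have mv : ∀ s', s' < nv ψ + 5 → isLong (a % 49) = true → isLong (b % 49) = true →
      good (kind ψ r s') (st r s') a b = true →
      DVis (coreS ψ) Prod.fst (bt ψ st) (dt ψ st) (cv r s a) (cv r s b) := by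
    intro s' h1 h2 h3 h4
    rw [cv_long r s s' h2, cv_long r s s' h3]
    exact dvis_of_good hS hst hab hb hy h1 h4
  have k0 : kind ψ r 0 = 0 := (kind_cls hS r _).1.2 rfl
  have s0 : st r 0 < 2 := by
    have := hst.1 r 0
    rwa [k0] at this
  rcases exc_cases _ (kind_mem r s) _ (hst.1 r s) a b g with ⟨k, e | e | e⟩ | ⟨i, hi, k, n, e⟩
  · obtain rfl : s = nv ψ + 2 := (kind_cls hS r _).2.1.1 k
    have l := sig_long _ sJ
    rw [← e] at l
    have sl := slab_lt hS r (p := 0) (q := st r (nv ψ + 2) + 1) (by omega) (by omega)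
    refine mv (slab ψ r (st r (nv ψ + 2) + 1)) (by omega) l.1 l.2.1 ?_
    rw [kind_tap hS r sJ, hsat r (by omega)]
    have := sig_ok.1 _ sJ _ (Bool.toNat_lt (pol ψ r (st r (nv ψ + 2))))
    rwa [← e] at this
  · obtain ⟨rfl, rfl⟩ := Prod.mk.inj e
    exact mv 0 (by omega) (by decide) (by decide) (by rw [k0]; exact (sig_ok.2.2 _ s0).1)
  · obtain ⟨rfl, rfl⟩ := Prod.mk.inj e
    exact mv 0 (by omega) (by decide) (by decide) (by rw [k0]; exact (sig_ok.2.2 _ s0).2)
  · obtain rfl : s = slab ψ r (i + 1) := (kind_cmp hS r hs (by omega)).2.1 k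
    have l := sig_long _ hi
    rw [← e] at l
    refine mv (nv ψ + 2) (by omega) l.1 l.2.1 ?_
    rw [kJ]
    have : st r (nv ψ + 2) ≠ i := by
      rintro rfl
      rw [kind_tap hS r hi, hsat r (by omega)] at n
      have := Bool.toNat_lt (pol ψ r (st r (nv ψ + 2)))
      omega
    have := sig_ok.2.1 _ hi _ sJ this
    rwa [← e] at this

theorem same_height (hS : Sorted ψ) (hst : StOK ψ st) {u v : ℕ × ℕ} (hu : isCore ψ u = true)
    (hv : isCore ψ v = true) (n : u ≠ v) (e : u.1 = v.1) :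
    dc ψ st u < bc ψ st v ∨ dc ψ st v < bc ψ st u := by
  cases hL : isLong (v.1 % 49)
  · have a := priv_times hS hst hu (e ▸ hL)
    have b := priv_times hS hst hv hL
    have : u.2 ≠ v.2 := fun x => n (Prod.ext e x)
    omega
  · exact absurd (Prod.ext e ((core_long hu (e ▸ hL)).trans (core_long hv hL).symm)) n

theorem lex_eq {N c q y p : ℕ} (hy : y < N) (hp : p < N) (h : c * N + y = q * N + p) :
    c = q ∧ y = p := by
  have a := (lex_le hy hp).1 h.le
  have b := (lex_le hp hy).1 h.ge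
  omega

theorem disc (hS : Sorted ψ) (hst : StOK ψ st)
    (hsat : ∀ r < ψ.length,
      st r (slab ψ r (st r (nv ψ + 2) + 1)) = (pol ψ r (st r (nv ψ + 2))).toNat) :
    Disc (coreS ψ) (adjC ψ) Prod.fst (bt ψ st) (dt ψ st) := by
  have hH : ∀ v, isCore ψ v = true → v.1 < HT ψ := fun v hv => by
    have := core_lt hv
    unfold HT
    omega
  refine ⟨fun v hv => ?_, fun u hu v hv n => ?_, fun u hu v hv n t a b e => ?_,
    fun u hu v hv _ => ?_⟩
  · have := (lex_le (c := dc ψ st v) (q := bc ψ st v) (hH v hv) (hH v hv)).not.2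
      (by have := times hS hst hv; omega)
    exact not_le.1 this
  · have a := times hS hst hu
    have b := times hS hst hv
    refine ⟨fun e => ?_, fun e => ?_, fun e => ?_⟩ <;>
    · have c := lex_eq (hH u hu) (hH v hv) e
      have := same_height hS hst hu hv n c.2
      omega
  · obtain ⟨s, m, p, -, hm, hp, rfl⟩ := time_split hS hst hu a
    exact n (by rw [alive_eq hS hst hu hm hp a, alive_eq hS hst hv hm hp b, e])
  · exact or_congr ⟨dvis_of_adjU hS hst hsat hv, adjU_of_dvis hS hst hu hv⟩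
      ⟨dvis_of_adjU hS hst hsat hu, adjU_of_dvis hS hst hv hu⟩

theorem coreS_finite : (coreS ψ).Finite := by
  refine ((Set.finite_lt_nat (49 * ψ.length + 5)).prod (Set.finite_lt_nat (nv ψ + 5))).subset ?_
  intro v hv
  refine ⟨core_lt hv, ?_⟩
  have h : isCore ψ v = true := hv
  simp only [isCore, Bool.and_eq_true, decide_eq_true_eq] at h
  have h2 := h.2
  split_ifs at h2
  · simp only [decide_eq_true_eq] at h2
    simp [h2]
  · simp only [Bool.and_eq_true, decide_eq_true_eq] at h2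
    exact h2.1

theorem pins_len : ∀ k ∈ kinds, (pins k).length < 14 := by decide

theorem pinI_finite : (pinI ψ).Finite := by
  refine ((Set.finite_lt_nat ψ.length).prod ((Set.finite_lt_nat (nv ψ + 5)).prod
    (Set.finite_lt_nat 14))).subset ?_
  intro p hp
  exact ⟨hp.1, hp.2.1, hp.2.2.trans (pins_len _ (kind_mem _ _))⟩

theorem forward (hS : Sorted ψ) (h : Sat3 ψ) : ∃ h l r,
    RepOn 2 (tS (coreS ψ) {y : (ℕ × ℕ × ℕ) × ℕ | y.1 ∈ pinI ψ ∧ y.2 < 7})
      (tA (adjC ψ) (fun y => pinP ψ y.1)) h l r := by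
  obtain ⟨ν, hν⟩ := h
  have hc : ∀ r, ∃ i < 3, r < ψ.length → ν (slab ψ r (i + 1)) = pol ψ r i := by
    intro r
    by_cases hr : r < ψ.length
    · have : (row ψ r).Holds ν := by
        rw [row, List.getD_eq_getElem _ _ hr]
        exact hν _ (List.getElem_mem hr)
      rcases this with a | a | a
      · exact ⟨0, by omega, fun _ => a⟩
      · exact ⟨1, by omega, fun _ => a⟩
      · exact ⟨2, by omega, fun _ => a⟩
    · exact ⟨0, by omega, fun x => absurd x hr⟩
  choose c c1 c2 using hc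
  let st : ℕ → ℕ → ℕ := fun r s => if s = nv ψ + 2 then c r else (ν s).toNat
  have hst : StOK ψ st := by
    refine ⟨fun r s => ?_, fun r r' s n => by simp [st, n]⟩
    have k := (kind_cls hS r s).2.1
    by_cases e : s = nv ψ + 2
    · simp only [st, e, if_true, nst, (kind_cls hS r _).2.1.2 rfl]
      exact c1 r
    · simp only [st, e, if_false, nst, mt k.1 e]
      exact Bool.toNat_lt _
  refine rep_of_disc (disc hS hst fun r hr => ?_) coreS_finite
    (pinI_finite.prod (Set.finite_lt_nat 7)) (fun y hy => pinned hS hst hy.1)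
  have e : st r (nv ψ + 2) = c r := by simp [st]
  have sl := slab_lt hS r (p := c r + 1) (q := 4) (by have := c1 r; omega) (by omega)
  have q := slab_spec (ψ := ψ) r
  rw [e, ← c2 r hr]
  simp only [st]
  rw [if_neg (by omega)]

end Pool.Agent.Lib.MP_0d8e88_lc
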