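import Pool.Agent.Lib.MP_0d8e88_lc.Order
import Pool.Agent.Lib.MP_0d8e88_lc.Forward

/-!
A representation yields a satisfying assignment.
-/

namespace Pool.Agent.Lib.MP_0d8e88_lc

open Pool.Agent.Shared.PolyTime

section real

variable {V : Type} {l r : V → ℝ}

theorem tap_real {E S o O U M : V} {tm t8 t5 t11 t : ℝ} (h1 : tm < t8) (h2 : t8 < t5)
    (a1 : Al l r S tm) (a2 : Al l r o tm) (a3 : ¬Al l r E tm) (b1 : Al l r E t8)
    (c1 : Al l r O t5) (c2 : Al l r o t5) (c3 : Al l r S t5)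
    (c4 : ¬Al l r E t5) (d1 : Al l r O t11) (d2 : Al l r U t11) (e1 : Al l r E t)
    (e2 : Al l r M t) (e3 : Al l r S t → Al l r o t → ¬Al l r O t)
    (e4 : Al l r S t → Al l r o t → ¬Al l r U t) : l M < l U ∧ tm < l U := by
  have x1 : tm < t := (Al.side b1 e1 a3).2.1.1 h1
  have x2 : t < t5 := (Al.side b1 e1 c4).1.1 h2
  have y1 := a1.mid c3 x1.le x2.le
  have y2 := a2.mid c2 x1.le x2.le
  have z : t < l U := by
    by_contra c
    rw [not_lt] at c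
    rcases le_total t t11 with w | w
    · exact e4 y1 y2 ⟨c, w.trans d2.2⟩
    · exact e3 y1 y2 (d1.mid c1 w x2.le)
  exact ⟨e2.1.trans_lt z, x1.trans z⟩

theorem row_real {x y z u1 u2 u3 tA mA d1 d2 : V} {te tr tb : ℝ} (h : tr < te)
    (a1 : Al l r x tr) (a2 : Al l r y tr) (a3 : Al l r z tr) (b1 : ¬Al l r x te)
    (b2 : ¬Al l r y te) (b3 : ¬Al l r z te) (c1 : Al l r u1 te) (c2 : Al l r u2 te)
    (c3 : Al l r d1 te) (e1 : Al l r u1 tb) (e2 : Al l r u2 tb) (e3 : Al l r tA tb)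
    (e4 : Al l r mA tb) (A : l mA < l u3 ∧ l tA < l u3 ∧ l x < l u3)
    (B : l u1 < l u2 ∧ l x < l u2 ∧ l y < l u2) (C : l d1 < l d2 ∧ l y < l d2 ∧ l z < l d2)
    (eA : ∃ t, Al l r y t ∧ Al l r u3 t ∧ (Al l r x t → Al l r u1 t → ¬Al l r u2 t) ∧
      (Al l r x t → Al l r tA t → ¬Al l r mA t))
    (eB : ∃ t, Al l r z t ∧ Al l r u2 t ∧ (Al l r y t → Al l r x t → ¬Al l r u1 t))
    (eC : ∃ t, Al l r d2 t ∧ Al l r x t ∧ (Al l r d1 t → Al l r z t → ¬Al l r y t)) : False := by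
  have rx : r x < te := not_le.1 fun c => b1 ⟨a1.1.trans h.le, c⟩
  have ry : r y < te := not_le.1 fun c => b2 ⟨a2.1.trans h.le, c⟩
  have rz : r z < te := not_le.1 fun c => b3 ⟨a3.1.trans h.le, c⟩
  have fA : r x < r y := by
    obtain ⟨t, t1, t2, t3, t4⟩ := eA
    by_contra c
    have hx : Al l r x t := ⟨by linarith [t2.1], by linarith [t1.2]⟩
    rcases le_total t tb with w | w
    · exact t4 hx ⟨by linarith [t2.1], w.trans e3.2⟩ ⟨by linarith [t2.1], w.trans e4.2⟩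
    · exact t3 hx (e1.mid c1 w (by linarith [t1.2])) (e2.mid c2 w (by linarith [t1.2]))
  have fC : r z < r x := by
    obtain ⟨t, t1, t2, t3⟩ := eC
    by_contra c
    exact t3 ⟨by linarith [t1.1], by linarith [t2.2, c3.2]⟩ ⟨by linarith [t1.1], by linarith [t2.2]⟩
      ⟨by linarith [t1.1], by linarith [t2.2]⟩
  obtain ⟨t, t1, t2, t3⟩ := eB
  exact t3 ⟨by linarith [t2.1], by linarith [t1.2]⟩ ⟨by linarith [t2.1], by linarith [t1.2]⟩
    ⟨by linarith [t2.1], by linarith [t1.2, c1.2]⟩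

theorem orient {x M N : V} {te tr tm t8 tb : ℝ} (h : tr < te) (a1 : Al l r x tr)
    (a2 : ¬Al l r x te) (a3 : Al l r x tm) (b1 : Al l r M t8) (b2 : Al l r M tb)
    (b3 : ¬Al l r M tm) (c1 : Al l r N tb) (c2 : Al l r N te) (c3 : ¬Al l r N tm) : tm < t8 :=
  (Al.side b2 b1 b3).2.1.1 ((Al.side c2 c1 c3).2.1.1 ((Al.side a1 a3 a2).1.1 h))

end real

variable {ψ : List (Clause3 ℕ)} {h lf rt : ℕ × ℕ → ℝ} {τ : ℕ × ℕ × ℕ → ℝ}

theorem edgeP (hS : Sorted ψ) (G : Good (coreS ψ) (adjC ψ) (pinI ψ) (pinP ψ) h lf rt τ)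
    {r s k a b : ℕ} (hr : r < ψ.length) (hs : s < nv ψ + 5) (hk : kind ψ r s = k)
    (F : Facts h k r s)
    (hc : a ∈ ordL k ∧ b ∈ ordL k ∧ a < 49 ∧ a < b ∧ b < 54 ∧ LV k a b = true) :
    ∃ t, Al lf rt (cv r s a) t ∧ Al lf rt (cv r s b) t ∧ ∀ x y z,
      (x ∈ ordL k ∧ y ∈ ordL k ∧ z ∈ ordL k ∧ a < x ∧ x < y ∧ y < z ∧ z < b) →
      Al lf rt (cv r s x) t → Al lf rt (cv r s y) t → ¬Al lf rt (cv r s z) t := by
  obtain ⟨h1, h2, h3, h4, h5, h6⟩ := hc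
  have e1 : (49 * r + a) / 49 = r := by omega
  have e2 : (49 * r + a) % 49 = a := by omega
  obtain ⟨t, t1, t2, t3⟩ := G.edge _ (core_ord hS hr hs hk h1) _ (core_ord hS hr hs hk h2)
    (fun e => by have := congrArg Prod.fst e; simp only [cv, vx] at this; omega)
    (Or.inl ⟨by simp only [cv, vx]; omega, by simp only [cv, vx]; omega, s, hs, rfl, rfl, by
      simp only [cv, vx, e1, e2, Nat.add_sub_cancel_left, hk, h6]⟩)
  refine ⟨t, t1, t2, fun x y z ⟨x1, y1, z1, p1, p2, p3, p4⟩ a1 a2 a3 => ?_⟩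
  exact t3 _ (core_ord hS hr hs hk x1) _ (core_ord hS hr hs hk y1) _ (core_ord hS hr hs hk z1)
    a1 a2 a3 (F.1 _ x1 _ y1 p2) (F.1 _ y1 _ z1 p3)
    (Or.inl ⟨F.1 _ h1 _ x1 p1, F.1 _ x1 _ h2 (by omega)⟩)
    (Or.inl ⟨F.1 _ h1 _ z1 (by omega), F.1 _ z1 _ h2 p4⟩)

/-- The finite conditions used in the analysis of a tap. -/
abbrev TapChk (k i8 i5 i11 im E S o O U M : ℕ) : Prop :=
  (S ∈ pin k im ∧ o ∈ pin k im ∧ inr k im E = true ∧ E ∈ pin k i8 ∧ U ∈ pin k i8 ∧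
    O ∈ pin k i5 ∧ o ∈ pin k i5 ∧ S ∈ pin k i5 ∧ inr k i5 E = true ∧ O ∈ pin k i11 ∧
    U ∈ pin k i11) ∧
  (E ∈ ordL k ∧ S ∈ ordL k ∧ o ∈ ordL k ∧ O ∈ ordL k ∧ U ∈ ordL k ∧ M ∈ ordL k) ∧
  k ∈ wires ∧ (i8 % 2 = 0 ↔ k % 2 = 1) ∧
  ((i8 = i5 + 1 ∧ i8 < nb k ∧ E < S ∧ S < o ∧ o < O ∧ O < U ∧ U < M ∧ M < 49 ∧ LV k E M = true) ∨
    (i5 = i8 + 1 ∧ i5 < nb k ∧ M < U ∧ U < O ∧ O < o ∧ o < S ∧ S < E ∧ E < 49 ∧ LV k M E = true))

theorem tap (hS : Sorted ψ) (G : Good (coreS ψ) (adjC ψ) (pinI ψ) (pinP ψ) h lf rt τ)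
    {r s k : ℕ} (hr : r < ψ.length) (hs : s < nv ψ + 5) (hk : kind ψ r s = k)
    (F : Facts h k r s) (i8 i5 i11 im E S o O U M : ℕ) (c : TapChk k i8 i5 i11 im E S o O U M)
    (hor : τ (r, s, im) < τ (r, s, i8)) (bad : ¬(τ (r, s, 1) < τ (r, s, 0) ↔ k % 2 = 1)) :
    lf (cv r s M) < lf (cv r s U) ∧ τ (r, s, im) < lf (cv r s U) := by
  obtain ⟨⟨m1, m2, m3, m4, m5, m6, m7, m8, m9, m10, m11⟩, ⟨o1, o2, o3, o4, o5, o6⟩, w, par, c⟩ := c
  have z := zigzag hS G hr hs hk w F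
  have key : τ (r, s, i8) < τ (r, s, i5) ∧ ∃ t, Al lf rt (cv r s E) t ∧ Al lf rt (cv r s M) t ∧
      (Al lf rt (cv r s S) t → Al lf rt (cv r s o) t → ¬Al lf rt (cv r s O) t) ∧
      (Al lf rt (cv r s S) t → Al lf rt (cv r s o) t → ¬Al lf rt (cv r s U) t) := by
    rcases c with ⟨rfl, c0, c1, c2, c3, c4, c5, c6, c7⟩ | ⟨rfl, c0, c1, c2, c3, c4, c5, c6, c7⟩
    · obtain ⟨t, t1, t2, t3⟩ := edgeP hS G hr hs hk F ⟨o1, o6, by omega, by omega, by omega, c7⟩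
      refine ⟨?_, t, t1, t2, t3 _ _ _ ⟨o2, o3, o4, c1, c2, c3, by omega⟩,
        t3 _ _ _ ⟨o2, o3, o5, c1, c2, by omega, c5⟩⟩
      rw [(z i5 c0).1, show i5 % 2 = 0 ↔ ¬k % 2 = 1 by omega]
      exact iff_not_comm.1 (not_iff.1 bad).symm
    · obtain ⟨t, t1, t2, t3⟩ := edgeP hS G hr hs hk F ⟨o6, o1, by omega, by omega, by omega, c7⟩
      refine ⟨?_, t, t2, t1, fun a b d => t3 _ _ _ ⟨o4, o3, o2, by omega, c3, c4, c5⟩ d b a,
        fun a b d => t3 _ _ _ ⟨o5, o3, o2, c1, by omega, c4, c5⟩ d b a⟩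
      rw [(z i8 c0).2, (z i8 c0).1, par]
      exact bad
  obtain ⟨k1, t, k2, k3, k4, k5⟩ := key
  exact tap_real hor k1 (memP G hr hs hk m1) (memP G hr hs hk m2) (inr_dead hS G hr hs hk F m3)
    (memP G hr hs hk m4) (memP G hr hs hk m6) (memP G hr hs hk m7)
    (memP G hr hs hk m8) (inr_dead hS G hr hs hk F m9) (memP G hr hs hk m10) (memP G hr hs hk m11)
    k2 k3 k4 k5

theorem cross (hS : Sorted ψ) (G : Good (coreS ψ) (adjC ψ) (pinI ψ) (pinP ψ) h lf rt τ)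
    {r s k s' k' : ℕ} (hr : r < ψ.length) (hs : s < nv ψ + 5) (hk : kind ψ r s = k)
    (hs' : s' < nv ψ + 5) (hk' : kind ψ r s' = k') (F : Facts h k' r s') (p x a b : ℕ)
    (c : x ∉ pin k p ∧ a ∈ pin k p ∧ b ∈ pin k p ∧ x ∈ ordL k' ∧ a ∈ ordL k' ∧ b ∈ ordL k' ∧
      isLong (a % 49) = true ∧ isLong (b % 49) = true ∧ a < x ∧ x < b) :
    ¬Al lf rt (cv r s' x) (τ (r, s, p)) := by
  obtain ⟨c1, c2, c3, c4, c5, c6, c7, c8, c9, c10⟩ := c
  exact outP G hr hs hk (core_ord hS hr hs' hk' c4) c1 c2 c3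
    (by rw [cv_long r s s' c7]; exact F.1 _ c5 _ c4 c9)
    (by rw [cv_long r s s' c8]; exact F.1 _ c4 _ c6 c10)

theorem stair1 (hS : Sorted ψ) (G : Good (coreS ψ) (adjC ψ) (pinI ψ) (pinP ψ) h lf rt τ)
    (h0 : h (cv 0 0 2) < h (cv 0 0 3)) {r : ℕ} (hr : r < ψ.length) :
    (τ (r, nv ψ + 1, 0) < τ (r, nv ψ + 3, 1) ↔ τ (r, nv ψ + 1, 2) < τ (r, nv ψ + 3, 1)) ∧
    (τ (r, nv ψ + 3, 1) < τ (r, nv ψ + 1, 0) ↔ ¬τ (r, nv ψ + 1, 0) < τ (r, nv ψ + 3, 1)) := by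
  have kC := kind_C hS r
  have kD := kind_D hS r
  have FC := facts hS G h0 hr (by omega) kC (by decide)
  have := Al.side (memP G hr (by omega) kC (p := 0) (x := 19) (by decide))
    (memP G hr (by omega) kC (p := 2) (x := 19) (by decide))
    (cross hS G hr (by omega) kD (by omega) kC FC 1 19 18 28 (by decide +kernel))
  exact ⟨this.1, this.2.2⟩

theorem stair (hS : Sorted ψ) (G : Good (coreS ψ) (adjC ψ) (pinI ψ) (pinP ψ) h lf rt τ)
    (h0 : h (cv 0 0 2) < h (cv 0 0 3)) (t0 : τ (0, nv ψ + 1, 0) < τ (0, nv ψ + 3, 1)) :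
    ∀ r < ψ.length, τ (r, nv ψ + 1, 0) < τ (r, nv ψ + 3, 1) := by
  intro r
  induction r with
  | zero => exact fun _ => t0
  | succ r ih =>
    intro hr'
    have hr : r < ψ.length := by omega
    have sC : nv ψ + 1 < nv ψ + 5 := by omega
    have sD : nv ψ + 3 < nv ψ + 5 := by omega
    have kC := kind_C hS r
    have kD := kind_D hS r
    have kC' := kind_C hS (r + 1)
    have kD' := kind_D hS (r + 1)
    have FC := facts hS G h0 hr sC kC (by decide)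
    have FD := facts hS G h0 hr sD kD (by decide)
    have FC' := facts hS G h0 hr' sC kC' (by decide)
    have FD' := facts hS G h0 hr' sD kD' (by decide)
    have s1 := (stair1 hS G h0 hr).1.1 (ih hr)
    have s2 := (Al.side (memP G hr sC kC (p := 2) (x := 29) (by decide))
      (memP G hr sC kC (p := 4) (x := 29) (by decide))
      (cross hS G hr sD kD sC kC FC 1 29 28 30 (by decide +kernel))).1.1 s1
    have s3 := (Al.side (memP G hr sD kD (p := 1) (x := 31) (by decide))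
      (memP G hr sD kD (p := 3) (x := 31) (by decide))
      (cross hS G hr sC kC sD kD FD 4 31 30 38 (by decide +kernel))).2.1.1 s2
    have a1 := memP G hr' sC kC' (p := 0) (x := 1) (by decide)
    rw [← cv_up] at a1
    have s4 := (Al.side (memP G hr sC kC (p := 4) (x := 50) (by decide)) a1
      (outP G hr sD kD (p := 3) (a := 49) (b := 51)
        (core_ord hS hr sC kC (x := 50) (by decide +kernel)) (by decide) (by decide) (by decide)
        (by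
          rw [cv_long r _ (nv ψ + 1) (by decide)]
          exact FC.1 _ (by decide +kernel) _ (by decide +kernel) (by omega))
        (by
          have := FC'.2.1
          rw [← cv_up, ← cv_up] at this
          rwa [cv_long r (nv ψ + 3) (nv ψ + 1) (by decide)]))).1.1 s3
    have b1 := memP G hr sD kD (p := 3) (x := 53) (by decide)
    rw [show 53 = 49 + 4 from rfl, cv_up] at b1
    exact (Al.side b1 (memP G hr' sD kD' (p := 1) (x := 4) (by decide))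
      (outP G hr' sC kC' (p := 0) (a := 3) (b := 16)
        (core_ord hS hr' sD kD' (x := 4) (by decide +kernel)) (by decide) (by decide) (by decide)
        (by
          rw [cv_long _ _ (nv ψ + 3) (by decide), ← cv_up, ← cv_up]
          exact FD.2.2)
        (by
          rw [cv_long _ (nv ψ + 1) (nv ψ + 3) (by decide)]
          exact FD'.1 _ (by decide +kernel) _ (by decide +kernel) (by omega)))).2.1.1 s4

set_option synthInstance.maxSize 2000 in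
theorem tapA_ok : ∀ p < 2, TapChk (4 + p) (3 + p) (4 + p) (2 + p) (6 + 2 * p) 43 42 41 40 38 35 ∧
    (26 ∈ pin (4 + p) (6 + 2 * p) ∧ 33 ∈ pin (4 + p) (6 + 2 * p) ∧ 35 ∈ pin (4 + p) (3 + p) ∧
      inr (4 + p) (6 + 2 * p) 35 = true) ∧ ∀ q < 2,
    28 ∉ pin (4 + p) (6 + 2 * p) ∧ 26 ∈ pin (4 + p) (6 + 2 * p) ∧ 33 ∈ pin (4 + p) (6 + 2 * p) ∧
      28 ∈ ordL (8 + q) ∧ 26 ∈ ordL (8 + q) ∧ 33 ∈ ordL (8 + q) ∧
      isLong (26 % 49) = true ∧ isLong (33 % 49) = true ∧ 26 < 28 ∧ 28 < 33 := by decide +kernel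

set_option synthInstance.maxSize 2000 in
theorem tapB_ok : ∀ p < 2, TapChk (8 + p) (3 + p) (4 + p) (2 + p) (6 + 2 * p) 36 35 33 32 30 28 ∧
    (26 ∈ pin (8 + p) (6 + 2 * p) ∧ 23 ∈ pin (8 + p) (6 + 2 * p) ∧
      inr (8 + p) (6 + 2 * p) 28 = true) ∧
    (28 ∈ pin (8 + p) (3 + p) ∧ 30 ∈ pin (8 + p) (3 + p) ∧ 33 ∈ pin (8 + p) (3 + p) ∧
      35 ∈ pin (8 + p) (3 + p)) ∧
    ∀ x ∈ [20, 23, 26, 28, 30, 33, 35, 38], x ∈ ordL (8 + p) := by decide +kernel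

set_option synthInstance.maxSize 2000 in
theorem tapC_ok : ∀ p < 2, TapChk (12 + p) (3 - p) (2 - p) (4 - p) (10 - 2 * p)
      (11 - 3 * p) (12 - 3 * p) (13 - 3 * p) (14 - 3 * p) 16 18 ∧
    26 ∈ pin (12 + p) (10 - 2 * p) ∧ 23 ∈ pin (12 + p) (10 - 2 * p) ∧
      20 ∈ pin (12 + p) (10 - 2 * p) ∧ inr (12 + p) (10 - 2 * p) 18 = true ∧
      18 ∈ pin (12 + p) (3 - p) := by decide +kernel

theorem sigP (hS : Sorted ψ) (G : Good (coreS ψ) (adjC ψ) (pinI ψ) (pinP ψ) h lf rt τ)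
    {r a b : ℕ} (hr : r < ψ.length)
    (hc : isLong a = true ∧ isLong b = true ∧ a < b ∧ b < 49 ∧ LV 16 a b = true)
    (hab : h (cv r 0 a) < h (cv r 0 b)) :
    ∃ t, Al lf rt (cv r 0 a) t ∧ Al lf rt (cv r 0 b) t ∧ ∀ x y z,
      (isLong x = true ∧ isLong y = true ∧ isLong z = true ∧ x < 49 ∧ y < 49 ∧ z < 49) →
      h (cv r 0 a) < h (cv r 0 x) → h (cv r 0 x) < h (cv r 0 y) → h (cv r 0 y) < h (cv r 0 z) →
      h (cv r 0 z) < h (cv r 0 b) →
      Al lf rt (cv r 0 x) t → Al lf rt (cv r 0 y) t → ¬Al lf rt (cv r 0 z) t := by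
  obtain ⟨h1, h2, h3, h4, h5⟩ := hc
  have co : ∀ x, isLong x = true → x < 49 → isCore ψ (cv r 0 x) = true := by
    intro x x1 x2
    simp only [isCore, cv, vx, show (49 * r + x) % 49 = x by omega, x1, if_true]
    simp
    omega
  have e1 : (49 * r + a) / 49 = r := by omega
  have e2 : (49 * r + a) % 49 = a := by omega
  have e3 : (49 * r + b) % 49 = b := by omega
  obtain ⟨t, t1, t2, t3⟩ := G.edge _ (co a h1 (by omega)) _ (co b h2 h4)
    (fun e => by rw [e] at hab; exact lt_irrefl _ hab)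
    (Or.inl ⟨by simp only [cv, vx]; omega, by simp only [cv, vx]; omega, nv ψ + 2, by omega,
      by simp only [cv, vx, e2, h1, if_true], by simp only [cv, vx, e3, h2, if_true], by
      simp only [cv, vx, e1, e2, Nat.add_sub_cancel_left, (kind_cls hS r _).2.1.2 rfl, h5]⟩)
  refine ⟨t, t1, t2, fun x y z ⟨x1, y1, z1, x2, y2, z2⟩ p1 p2 p3 p4 a1 a2 a3 => ?_⟩
  exact t3 _ (co x x1 x2) _ (co y y1 y2) _ (co z z1 z2) a1 a2 a3 p2 p3
    (Or.inl ⟨p1, by linarith⟩) (Or.inl ⟨by linarith, p4⟩)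

theorem row_sat (hS : Sorted ψ) (G : Good (coreS ψ) (adjC ψ) (pinI ψ) (pinP ψ) h lf rt τ)
    (h0 : h (cv 0 0 2) < h (cv 0 0 3)) (t0 : τ (0, nv ψ + 1, 0) < τ (0, nv ψ + 3, 1))
    {r : ℕ} (hr : r < ψ.length) :
    (row ψ r).Holds (fun s => decide (τ (0, s, 1) < τ (0, s, 0))) := by
  by_contra n
  simp only [Clause3.Holds, not_or] at n
  obtain ⟨n1, n2, n3⟩ := n
  have ro := row_ok hS r
  have kA : kind ψ r (row ψ r).1.1 = 4 + (row ψ r).1.2.toNat := kind_tap hS r (i := 0) (by omega)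
  have kB : kind ψ r (row ψ r).2.1.1 = 8 + (row ψ r).2.1.2.toNat :=
    kind_tap hS r (i := 1) (by omega)
  have kC : kind ψ r (row ψ r).2.2.1 = 12 + (row ψ r).2.2.2.toNat :=
    kind_tap hS r (i := 2) (by omega)
  have bad : ∀ (s : ℕ) (b : Bool) (j : ℕ), 1 ≤ s → s ≤ nv ψ →
      ¬decide (τ (0, s, 1) < τ (0, s, 0)) = b →
      ¬(τ (r, s, 1) < τ (r, s, 0) ↔ (4 * j + b.toNat) % 2 = 1) := by
    intro s b j s1 s2 x
    rw [link hS G h0 s1 s2 r hr]
    cases b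
    · simp only [decide_eq_false_iff_not, not_not] at x
      simp only [x, Bool.toNat_false, true_iff]
      omega
    · simp only [decide_eq_true_eq] at x
      simp only [x, Bool.toNat_true, false_iff]
      omega
  have bA := bad _ _ 1 (by omega) (by omega) n1
  have bB := bad _ _ 2 (by omega) (by omega) n2
  have bC := bad _ _ 3 (by omega) (by omega) n3
  have pA := Bool.toNat_lt (row ψ r).1.2
  have pB := Bool.toNat_lt (row ψ r).2.1.2
  have pC := Bool.toNat_lt (row ψ r).2.2.2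
  have sA : (row ψ r).1.1 < nv ψ + 5 := by omega
  have sB : (row ψ r).2.1.1 < nv ψ + 5 := by omega
  have sC : (row ψ r).2.2.1 < nv ψ + 5 := by omega
  clear n1 n2 n3 ro bad
  generalize (row ψ r).1.2.toNat = pa at *
  generalize (row ψ r).2.1.2.toNat = pb at *
  generalize (row ψ r).2.2.2.toNat = pc at *
  generalize (row ψ r).1.1 = a at *
  generalize (row ψ r).2.1.1 = b at *
  generalize (row ψ r).2.2.1 = c at *
  obtain ⟨A1, ⟨A2, A3, A4, A5⟩, A6⟩ := tapA_ok pa pA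
  obtain ⟨B1, ⟨B2, B3, B4⟩, ⟨B5, B6, B7, B8⟩, B9⟩ := tapB_ok pb pB
  obtain ⟨C1, C2, C3, C4, C5, C6⟩ := tapC_ok pc pC
  have FA := facts hS G h0 hr sA kA A1.2.2.1
  have FB := facts hS G h0 hr sB kB B1.2.2.1
  have FC := facts hS G h0 hr sC kC C1.2.2.1
  have s1 : nv ψ + 1 < nv ψ + 5 := by omega
  have s3 : nv ψ + 3 < nv ψ + 5 := by omega
  have k1 := kind_C hS r
  have k3 := kind_D hS r
  have F1 := facts hS G h0 hr s1 k1 (by decide)
  have hT := (stair1 hS G h0 hr).1.1 (stair hS G h0 t0 r hr)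
  have L : ∀ x ∈ [16, 18, 20, 23, 26, 28, 30, 33, 35, 38], ∀ s, cv r s x = cv r 0 x := by
    intro x hx s
    refine cv_long r s 0 ?_
    revert x
    decide
  simp only [List.forall_mem_cons] at L B9
  obtain ⟨L16, L18, L20, L23, L26, L28, L30, L33, L35, L38, -⟩ := L
  obtain ⟨o20, o23, o26, o28, o30, o33, o35, o38, -⟩ := B9
  have x1 := memP G hr s1 k1 (p := 2) (x := 26) (by decide)
  have y1 := memP G hr s1 k1 (p := 2) (x := 23) (by decide)
  have z1 := memP G hr s1 k1 (p := 2) (x := 20) (by decide)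
  have x2 := cross hS G hr s3 k3 s1 k1 F1 1 26 18 28 (by decide +kernel)
  have y2 := cross hS G hr s3 k3 s1 k1 F1 1 23 18 28 (by decide +kernel)
  have z2 := cross hS G hr s3 k3 s1 k1 F1 1 20 18 28 (by decide +kernel)
  have u1e := memP G hr s3 k3 (p := 1) (x := 28) (by decide)
  have u2e := memP G hr s3 k3 (p := 1) (x := 30) (by decide)
  have d1e := memP G hr s3 k3 (p := 1) (x := 18) (by decide)
  have u1b := memP G hr sB kB B5
  have u2b := memP G hr sB kB B6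
  have tAb := memP G hr sB kB B7
  have mAb := memP G hr sB kB B8
  have xA := memP G hr sA kA A2
  have tAA := memP G hr sA kA A3
  have mA8 := memP G hr sA kA A4
  have mAm := inr_dead hS G hr sA kA FA A5
  have u1A := cross hS G hr sA kA sB kB FB _ 28 26 33 (A6 pb pB)
  have xB := memP G hr sB kB B2
  have yB := memP G hr sB kB B3
  have u1m := inr_dead hS G hr sB kB FB B4
  have xC := memP G hr sC kC C2
  have yC := memP G hr sC kC C3
  have zC := memP G hr sC kC C4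
  have d1m := inr_dead hS G hr sC kC FC C5
  have d18 := memP G hr sC kC C6
  have q1 := FB.1 _ o20 _ o23 (by omega)
  have q2 := FB.1 _ o23 _ o26 (by omega)
  have q3 := FB.1 _ o26 _ o28 (by omega)
  have q4 := FB.1 _ o28 _ o30 (by omega)
  have q5 := FB.1 _ o30 _ o33 (by omega)
  have q6 := FB.1 _ o33 _ o35 (by omega)
  have q7 := FB.1 _ o35 _ o38 (by omega)
  have q8 := F1.1 16 (by decide +kernel) 18 (by decide +kernel) (by omega)
  have q9 := F1.1 18 (by decide +kernel) 20 (by decide +kernel) (by omega)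
  have TA := fun o => tap hS G hr sA kA FA _ _ _ _ _ _ _ _ _ _ A1 o bA
  have TB := fun o => tap hS G hr sB kB FB _ _ _ _ _ _ _ _ _ _ B1 o bB
  have TC := fun o => tap hS G hr sC kC FC _ _ _ _ _ _ _ _ _ _ C1 o bC
  rw [L26] at x1 x2 xA xB xC q2 q3
  rw [L23] at y1 y2 yB yC q1 q2
  rw [L20] at z1 z2 zC q1 q9
  rw [L28] at u1e u1b u1A u1m q3 q4 TB
  rw [L30] at u2e u2b q4 q5 TB
  rw [L18] at d1e d1m d18 q8 q9 TC
  rw [L16] at q8 TC
  rw [L33] at tAb tAA q5 q6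
  rw [L35] at mAb mA8 mAm q6 q7 TA
  rw [L38] at q7 TA
  have TA := TA (orient hT x1 x2 xA mA8 mAb mAm u1b u1e u1A)
  have TB := TB (orient hT x1 x2 xB u1b u1b u1m u1b u1e u1m)
  have TC := TC (orient hT x1 x2 xC d18 d18 d1m d18 d1e d1m)
  obtain ⟨t1, e1, e2, e3⟩ := sigP hS G hr (a := 23) (b := 38) (by decide +kernel) (by linarith)
  obtain ⟨t2, f1, f2, f3⟩ := sigP hS G hr (a := 20) (b := 30) (by decide +kernel) (by linarith)
  obtain ⟨t3, g1, g2, g3⟩ := sigP hS G hr (a := 16) (b := 26) (by decide +kernel) (by linarith)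
  exact row_real hT x1 y1 z1 x2 y2 z2 u1e u2e d1e u1b u2b tAb mAb
    ⟨TA.1, tAA.1.trans_lt TA.2, xA.1.trans_lt TA.2⟩
    ⟨TB.1, xB.1.trans_lt TB.2, yB.1.trans_lt TB.2⟩
    ⟨TC.1, yC.1.trans_lt TC.2, zC.1.trans_lt TC.2⟩
    ⟨t1, e1, e2, e3 26 28 30 (by decide) q2 q3 q4 (by linarith),
      e3 26 33 35 (by decide) q2 (by linarith) q6 q7⟩
    ⟨t2, f1, f2, f3 23 26 28 (by decide) q1 q2 q3 q4⟩
    ⟨t3, g1, g2, g3 18 20 23 (by decide) q8 q9 q1 q2⟩

theorem sat_of_good (hS : Sorted ψ) (G : Good (coreS ψ) (adjC ψ) (pinI ψ) (pinP ψ) h lf rt τ)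
    (h0 : h (cv 0 0 2) < h (cv 0 0 3)) : Sat3 ψ := by
  have key : ∀ {lf rt : ℕ × ℕ → ℝ} {τ : ℕ × ℕ × ℕ → ℝ},
      Good (coreS ψ) (adjC ψ) (pinI ψ) (pinP ψ) h lf rt τ →
      τ (0, nv ψ + 1, 0) < τ (0, nv ψ + 3, 1) → Sat3 ψ := by
    intro lf rt τ G t0
    refine ⟨fun s => decide (τ (0, s, 1) < τ (0, s, 0)), fun c hc => ?_⟩
    obtain ⟨r, hr, rfl⟩ := List.getElem_of_mem hc
    have := row_sat hS G h0 t0 hr
    rwa [row, List.getD_eq_getElem _ _ hr] at this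
  rcases Nat.eq_zero_or_pos ψ.length with e | e
  · rw [List.length_eq_zero_iff.1 e]
    exact ⟨fun _ => true, by simp⟩
  by_cases t0 : τ (0, nv ψ + 1, 0) < τ (0, nv ψ + 3, 1)
  · exact key G t0
  · exact key G.flipT (neg_lt_neg ((stair1 hS G h0 e).2.2 t0))

theorem backward (hS : Sorted ψ) {h l r : (ℕ × ℕ) ⊕ ((ℕ × ℕ × ℕ) × ℕ) → ℝ}
    (H : RepOn 2 (tS (coreS ψ) {y : (ℕ × ℕ × ℕ) × ℕ | y.1 ∈ pinI ψ ∧ y.2 < 7})
      (tA (adjC ψ) (fun y => pinP ψ y.1)) h l r) : Sat3 ψ := by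
  obtain ⟨τ, G⟩ := good_of_rep coreS_finite pinI_finite (fun p hp => by
    obtain ⟨n, m, a, b, c, d, e, f, p1, -, p3, p4, -⟩ := pinned hS stOK_zero hp
    refine ⟨?_, by simp [p1], fun v hv => (p3 v hv).1⟩
    refine List.Nodup.of_map Prod.fst ?_
    simp only [p1, List.map_cons, List.map_nil, List.nodup_cons, List.mem_cons, List.not_mem_nil,
      or_false, not_or, not_false_iff, List.nodup_nil, and_true]
    omega) H
  rcases Nat.eq_zero_or_pos ψ.length with e | e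
  · rw [List.length_eq_zero_iff.1 e]
    exact ⟨fun _ => true, by simp⟩
  have k := kind_C hS 0
  have m := G.ord (0, nv ψ + 1, 0) ⟨e, by simp, by simp only [k]; decide⟩ (cv 0 (nv ψ + 1) 1)
    (cv 0 (nv ψ + 1) 2) (cv 0 (nv ψ + 1) 3) (cv 0 (nv ψ + 1) 16) (cv 0 (nv ψ + 1) 18)
    (cv 0 (nv ψ + 1) 19) (by simp only [pinP, k]; rfl)
    (nadj_sound (by rw [k]; decide +kernel)) (nadj_sound (by rw [k]; decide +kernel))
    (nadj_sound (by rw [k]; decide +kernel))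
  rw [cv_long 0 _ 0 (l := 2) (by decide), cv_long 0 _ 0 (l := 3) (by decide)] at m
  rcases m with m | m
  · exact sat_of_good hS G m.2.1
  · exact sat_of_good hS G.flipH m.2.1

end Pool.Agent.Lib.MP_0d8e88_lc
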