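import Pool.Agent.Lib.MP_0d8e88_lc.Tables

/-!
Finite check number 1, one kind of cell at a time.
-/

namespace Pool.Agent.Lib.MP_0d8e88_lc

theorem check1_0 : ∀ s < nst 0, check1 0 s = true := by decide +kernel

theorem check1_2 : ∀ s < nst 2, check1 2 s = true := by decide +kernel

theorem check1_4 : ∀ s < nst 4, check1 4 s = true := by decide +kernel

theorem check1_5 : ∀ s < nst 5, check1 5 s = true := by decide +kernel

theorem check1_6 : ∀ s < nst 6, check1 6 s = true := by decide +kernel

theorem check1_8 : ∀ s < nst 8, check1 8 s = true := by decide +kernel

theorem check1_9 : ∀ s < nst 9, check1 9 s = true := by decide +kernel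

theorem check1_10 : ∀ s < nst 10, check1 10 s = true := by decide +kernel

theorem check1_12 : ∀ s < nst 12, check1 12 s = true := by decide +kernel

theorem check1_13 : ∀ s < nst 13, check1 13 s = true := by decide +kernel

theorem check1_14 : ∀ s < nst 14, check1 14 s = true := by decide +kernel

theorem check1_16 : ∀ s < nst 16, check1 16 s = true := by decide +kernel

theorem check1_18 : ∀ s < nst 18, check1 18 s = true := by decide +kernel

theorem check1_20 : ∀ s < nst 20, check1 20 s = true := by decide +kernel

theorem check1_ok : ∀ k ∈ kinds, ∀ s < nst k, check1 k s = true := by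
  simp only [kinds, List.forall_mem_cons]
  exact ⟨check1_0, check1_2, check1_4, check1_5, check1_6, check1_8, check1_9,
    check1_10, check1_12, check1_13, check1_14, check1_16, check1_18, check1_20, fun _ h => nomatch h⟩

end Pool.Agent.Lib.MP_0d8e88_lc
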