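import Pool.Agent.Lib.MP_0d8e88_lc.Tables

/-!
Finite check number 2, one kind of cell at a time.
-/

namespace Pool.Agent.Lib.MP_0d8e88_lc

theorem check2_0 : ∀ s < nst 0, check2 0 s = true := by decide +kernel

theorem check2_2 : ∀ s < nst 2, check2 2 s = true := by decide +kernel

theorem check2_4 : ∀ s < nst 4, check2 4 s = true := by decide +kernel

theorem check2_5 : ∀ s < nst 5, check2 5 s = true := by decide +kernel

theorem check2_6 : ∀ s < nst 6, check2 6 s = true := by decide +kernel

theorem check2_8 : ∀ s < nst 8, check2 8 s = true := by decide +kernel

theorem check2_9 : ∀ s < nst 9, check2 9 s = true := by decide +kernel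

theorem check2_10 : ∀ s < nst 10, check2 10 s = true := by decide +kernel

theorem check2_12 : ∀ s < nst 12, check2 12 s = true := by decide +kernel

theorem check2_13 : ∀ s < nst 13, check2 13 s = true := by decide +kernel

theorem check2_14 : ∀ s < nst 14, check2 14 s = true := by decide +kernel

theorem check2_16 : ∀ s < nst 16, check2 16 s = true := by decide +kernel

theorem check2_18 : ∀ s < nst 18, check2 18 s = true := by decide +kernel

theorem check2_20 : ∀ s < nst 20, check2 20 s = true := by decide +kernel

theorem check2_ok : ∀ k ∈ kinds, ∀ s < nst k, check2 k s = true := by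
  simp only [kinds, List.forall_mem_cons]
  exact ⟨check2_0, check2_2, check2_4, check2_5, check2_6, check2_8, check2_9,
    check2_10, check2_12, check2_13, check2_14, check2_16, check2_18, check2_20, fun _ h => nomatch h⟩

end Pool.Agent.Lib.MP_0d8e88_lc
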