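import Pool.Agent.Lib.MP_0d8e88_lc.Good

/-!
From a discrete representation of the core, in which every pin is realised, to a representation
of the graph with its twins.
-/

namespace Pool.Agent.Lib.MP_0d8e88_lc

open Set

variable {C Z : Type}

/-- Alive at the discrete time `n`. -/
def DAl (b d : C → ℕ) (v : C) (n : ℕ) : Prop := b v ≤ n ∧ n < d v

/-- Three alive vertices separate `u` from `v`. -/
def Blk (S : Set C) (H b d : C → ℕ) (u v : C) (n : ℕ) : Prop :=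
  ∃ x ∈ S, ∃ y ∈ S, ∃ z ∈ S, DAl b d x n ∧ DAl b d y n ∧ DAl b d z n ∧
    H u < H x ∧ H x < H y ∧ H y < H z ∧ H z < H v

/-- `u` sees `v` above it at some discrete time. -/
def DVis (S : Set C) (H b d : C → ℕ) (u v : C) : Prop :=
  H u < H v ∧ ∃ n, DAl b d u n ∧ DAl b d v n ∧ ¬Blk S H b d u v n

/-- A discrete representation. -/
structure Disc (S : Set C) (A : C → C → Prop) (H b d : C → ℕ) : Prop where
  lt : ∀ v ∈ S, b v < d v
  dist : ∀ u ∈ S, ∀ v ∈ S, u ≠ v → b u ≠ b v ∧ d u ≠ d v ∧ b u ≠ d v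
  disj : ∀ u ∈ S, ∀ v ∈ S, u ≠ v → ∀ n, DAl b d u n → DAl b d v n → H u ≠ H v
  adj : ∀ u ∈ S, ∀ v ∈ S, u ≠ v → (A u v ↔ DVis S H b d u v ∨ DVis S H b d v u)

/-- The list `T` is alive and consecutive at the time `n`; `m` is the height of its third term. -/
def Pinned (S : Set C) (H b d : C → ℕ) (T : List C) (n m : ℕ) : Prop :=
  ∃ t1 t2 t3 t4 t5 t6, T = [t1, t2, t3, t4, t5, t6] ∧ m = H t3 ∧
    (∀ v ∈ T, v ∈ S ∧ DAl b d v n) ∧
    (H t1 < H t2 ∧ H t2 < H t3 ∧ H t3 < H t4 ∧ H t4 < H t5 ∧ H t5 < H t6) ∧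
    ∀ w ∈ S, DAl b d w n → H t1 < H w → H w < H t6 → w ∈ T

theorem ncard_le_two {α : Type} {B : Set α} (hB : B.Finite) {h : α → ℝ} (hi : InjOn h B) :
    B.ncard ≤ 2 ↔ ¬∃ a ∈ B, ∃ b ∈ B, ∃ c ∈ B, h a < h b ∧ h b < h c := by
  rw [← not_lt, two_lt_ncard hB, not_iff_not]
  constructor
  · rintro ⟨a, ha, b, hb, c, hc, n1, n2, n3⟩
    rcases lt_or_gt_of_ne (fun e => n1 (hi ha hb e)) with x | x <;>
    rcases lt_or_gt_of_ne (fun e => n2 (hi ha hc e)) with y | y <;>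
    rcases lt_or_gt_of_ne (fun e => n3 (hi hb hc e)) with z | z
    · exact ⟨a, ha, b, hb, c, hc, x, z⟩
    · exact ⟨a, ha, c, hc, b, hb, y, z⟩
    · linarith
    · exact ⟨c, hc, a, ha, b, hb, y, x⟩
    · exact ⟨b, hb, a, ha, c, hc, x, y⟩
    · linarith
    · exact ⟨b, hb, c, hc, a, ha, z, y⟩
    · exact ⟨c, hc, b, hb, a, ha, z, x⟩
  · rintro ⟨a, ha, b, hb, c, hc, x, y⟩
    exact ⟨a, ha, b, hb, c, hc, fun e => x.ne (congrArg h e),
      fun e => (x.trans y).ne (congrArg h e), fun e => y.ne (congrArg h e)⟩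

theorem exists_slots {Y : Set Z} (hY : Y.Finite) : ∃ (e : ℝ) (α β : Z → ℝ), 0 < e ∧ e < 1 ∧
    (∀ y ∈ Y, e < α y ∧ α y < β y ∧ β y < 1) ∧
    ∀ y ∈ Y, ∀ y' ∈ Y, y ≠ y' → β y < α y' ∨ β y' < α y := by
  classical
  obtain ⟨N, ⟨f⟩⟩ := hY.to_subtype.exists_equiv_fin
  let i : Z → ℕ := fun y => if h : y ∈ Y then f ⟨y, h⟩ else 0
  have i1 : ∀ y ∈ Y, i y < N := fun y hy => by simp [i, hy]
  have i2 : ∀ y ∈ Y, ∀ y' ∈ Y, y ≠ y' → i y ≠ i y' := fun y hy y' hy' n e => by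
    simp only [i, hy, hy', dite_true] at e
    exact n (congrArg Subtype.val (f.injective (Fin.ext e)))
  have hN : (0 : ℝ) < 2 * N + 2 := by positivity
  refine ⟨1 / (2 * N + 2), fun y => (2 * i y + 2) / (2 * N + 2),
    fun y => (2 * i y + 3) / (2 * N + 2), by positivity, ?_, fun y hy => ⟨?_, ?_, ?_⟩,
    fun y hy y' hy' n => ?_⟩
  · rw [div_lt_one hN]
    linarith [(Nat.cast_nonneg N : (0 : ℝ) ≤ N)]
  · rw [div_lt_div_iff_of_pos_right hN]
    linarith [(Nat.cast_nonneg (i y) : (0 : ℝ) ≤ i y)]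
  · rw [div_lt_div_iff_of_pos_right hN]
    linarith
  · rw [div_lt_one hN]
    have : ((i y + 1 : ℕ) : ℝ) ≤ N := Nat.cast_le.2 (i1 y hy)
    push_cast at this
    linarith
  · simp only [div_lt_div_iff_of_pos_right hN]
    rcases lt_or_gt_of_ne (i2 y hy y' hy' n) with x | x
    · have : ((i y + 1 : ℕ) : ℝ) ≤ i y' := Nat.cast_le.2 x
      push_cast at this
      left
      linarith
    · have : ((i y' + 1 : ℕ) : ℝ) ≤ i y := Nat.cast_le.2 x
      push_cast at this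
      right
      linarith

theorem dal_iff {b d n : ℕ} {t : ℝ} (h1 : (n : ℝ) < t) (h2 : t < n + 1) :
    ((b : ℝ) ≤ t ∧ t ≤ d) ↔ b ≤ n ∧ n < d := by
  constructor
  · rintro ⟨x, y⟩
    have a : (b : ℝ) < ((n + 1 : ℕ) : ℝ) := by
      push_cast
      linarith
    have c : (n : ℝ) < d := by linarith
    exact ⟨Nat.lt_succ_iff.1 (Nat.cast_lt.1 a), Nat.cast_lt.1 c⟩
  · rintro ⟨x, y⟩
    have a : (b : ℝ) ≤ n := Nat.cast_le.2 x
    have c : ((n + 1 : ℕ) : ℝ) ≤ d := Nat.cast_le.2 y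
    push_cast at c
    constructor <;> linarith

theorem exists_time {b d b' d' : ℕ} {t : ℝ} (l1 : b < d) (l2 : b' < d') (n1 : b ≠ d')
    (n2 : b' ≠ d) (h1 : (b : ℝ) ≤ t ∧ t ≤ d) (h2 : (b' : ℝ) ≤ t ∧ t ≤ d') :
    ∃ n : ℕ, (b ≤ n ∧ n < d) ∧ (b' ≤ n ∧ n < d') ∧
      ∀ x y : ℕ, x ≤ n ∧ n < y → (x : ℝ) ≤ t ∧ t ≤ y := by
  have h0 : 0 ≤ t := le_trans (Nat.cast_nonneg b) h1.1
  have f1 := Nat.floor_le h0
  have f2 := Nat.lt_floor_add_one t
  have a1 : b ≤ ⌊t⌋₊ := Nat.le_floor h1.1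
  have a2 : b' ≤ ⌊t⌋₊ := Nat.le_floor h2.1
  have a3 : ⌊t⌋₊ ≤ d := Nat.floor_le_of_le h1.2
  have a4 : ⌊t⌋₊ ≤ d' := Nat.floor_le_of_le h2.2
  by_cases c : ⌊t⌋₊ = d ∨ ⌊t⌋₊ = d'
  · have e : t = ⌊t⌋₊ := by
      rcases c with c | c
      · exact le_antisymm (c ▸ h1.2) f1
      · exact le_antisymm (c ▸ h2.2) f1
    refine ⟨⌊t⌋₊ - 1, by omega, by omega, fun x y hxy => ?_⟩
    rw [e]
    exact ⟨Nat.cast_le.2 (by omega), Nat.cast_le.2 (by omega)⟩
  · refine ⟨⌊t⌋₊, by omega, by omega, fun x y hxy => ⟨le_trans (Nat.cast_le.2 hxy.1) f1, ?_⟩⟩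
    have : ((⌊t⌋₊ + 1 : ℕ) : ℝ) ≤ y := Nat.cast_le.2 hxy.2
    push_cast at this
    linarith

theorem nat_ne_half (a b : ℕ) : (a : ℝ) ≠ b + 1 / 2 := by
  intro e
  have : ((2 * a : ℕ) : ℝ) = ((2 * b + 1 : ℕ) : ℝ) := by
    push_cast
    linarith
  have := Nat.cast_injective this
  omega

theorem nat_ne_frac (a b : ℕ) {x : ℝ} (h0 : 0 < x) (h1 : x < 1) : (a : ℝ) ≠ b + x := by
  intro e
  have a1 : (b : ℝ) < a := by linarith
  have a2 : (a : ℝ) < ((b + 1 : ℕ) : ℝ) := by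
    push_cast
    linarith
  have := Nat.cast_lt.1 a1
  have := Nat.cast_lt.1 a2
  omega

theorem nat_eq_of_near {a b : ℕ} {t : ℝ} (h1 : (a : ℝ) < t) (h2 : t < a + 1) (h3 : (b : ℝ) < t)
    (h4 : t < b + 1) : a = b := by
  have a1 : (a : ℝ) < ((b + 1 : ℕ) : ℝ) := by
    push_cast
    linarith
  have a2 : (b : ℝ) < ((a + 1 : ℕ) : ℝ) := by
    push_cast
    linarith
  have := Nat.cast_lt.1 a1
  have := Nat.cast_lt.1 a2
  omega

theorem lt_half_iff (a b : ℕ) : (a : ℝ) < b + 1 / 2 ↔ a ≤ b := by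
  constructor
  · intro h
    have : (a : ℝ) < ((b + 1 : ℕ) : ℝ) := by
      push_cast
      linarith
    exact Nat.lt_succ_iff.1 (Nat.cast_lt.1 this)
  · intro h
    have : (a : ℝ) ≤ b := Nat.cast_le.2 h
    linarith

theorem half_lt_iff (a b : ℕ) : (b : ℝ) + 1 / 2 < a ↔ b < a := by
  constructor
  · intro h
    exact Nat.cast_lt.1 (by linarith : (b : ℝ) < a)
  · intro h
    have : ((b + 1 : ℕ) : ℝ) ≤ a := Nat.cast_le.2 h
    push_cast at this
    linarith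

theorem btw_comm {V : Type} {h : V → ℝ} {u w v : V} : Btw h u w v ↔ Btw h v w u := or_comm

theorem rep_of_disc {S : Set C} {A : C → C → Prop} {H b d : C → ℕ} (D : Disc S A H b d)
    (hS : S.Finite) {Y : Set Z} (hY : Y.Finite) {T : Z → List C}
    (hT : ∀ y ∈ Y, ∃ n m, Pinned S H b d (T y) n m) :
    ∃ h l r, RepOn 2 (tS S Y) (tA A T) h l r := by
  choose! n m hP using hT
  obtain ⟨e, α, β, e0, e1, s1, s2⟩ := exists_slots hY
  have hfin := tS_finite hS hY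
  let h : C ⊕ Z → ℝ := Sum.elim (fun v => (H v : ℝ)) (fun y => m y + 1 / 2)
  let l : C ⊕ Z → ℝ := Sum.elim (fun v => (b v : ℝ)) (fun y => n y + α y)
  let r : C ⊕ Z → ℝ := Sum.elim (fun v => (d v : ℝ)) (fun y => n y + β y)
  have near : ∀ y ∈ Y, ∀ t, Al l r (.inr y) t → (n y : ℝ) + e < t ∧ t < n y + 1 := by
    intro y hy t ht
    have a : (n y : ℝ) + α y ≤ t := ht.1
    have c : t ≤ (n y : ℝ) + β y := ht.2
    obtain ⟨x1, x2, x3⟩ := s1 y hy
    constructor <;> linarith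
  have uniq : ∀ y ∈ Y, ∀ y' ∈ Y, ∀ t, Al l r (.inr y) t → Al l r (.inr y') t → y = y' := by
    intro y hy y' hy' t h1 h2
    by_contra c
    have a := near y hy t h1
    have a' := near y' hy' t h2
    have x : n y = n y' := nat_eq_of_near (t := t) (by linarith [a.1]) a.2 (by linarith [a'.1]) a'.2
    have b1 : (n y : ℝ) + α y ≤ t := h1.1
    have b2 : t ≤ (n y : ℝ) + β y := h1.2
    have b3 : (n y' : ℝ) + α y' ≤ t := h2.1
    have b4 : t ≤ (n y' : ℝ) + β y' := h2.2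
    rw [x] at b1 b2
    rcases s2 y hy y' hy' c with z | z <;> linarith
  have core : ∀ (k : ℕ) (t : ℝ), (k : ℝ) < t → t < k + 1 → ∀ v,
      (Al l r (.inl v) t ↔ DAl b d v k) := fun k t h1 h2 v => dal_iff h1 h2
  have tm : ∀ u ∈ S, ∀ v ∈ S, u ≠ v → ∀ t, Al l r (.inl u) t → Al l r (.inl v) t →
      ∃ k, DAl b d u k ∧ DAl b d v k ∧ ∀ w, DAl b d w k → Al l r (.inl w) t := by
    intro u hu v hv ne t h1 h2
    obtain ⟨k, k1, k2, k3⟩ := exists_time (D.lt u hu) (D.lt v hv) (D.dist u hu v hv ne).2.2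
      (D.dist v hv u hu ne.symm).2.2 h1 h2
    exact ⟨k, k1, k2, fun w hw => k3 _ _ hw⟩
  have disj : ∀ u ∈ tS S Y, ∀ v ∈ tS S Y, u ≠ v → ∀ t, Al l r u t → Al l r v t → h u ≠ h v := by
    rintro (u | u) hu (v | v) hv ne t h1 h2
    · have ne' : u ≠ v := fun x => ne (congrArg _ x)
      obtain ⟨k, k1, k2, -⟩ := tm u hu v hv ne' t h1 h2
      exact fun x => D.disj u hu v hv ne' k k1 k2 (Nat.cast_injective (R := ℝ) x)
    · exact nat_ne_half _ _
    · exact (nat_ne_half _ _).symm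
    · exact absurd (congrArg _ (uniq u hu v hv t h1 h2)) ne
  have cnt : ∀ u v t, {w | w ∈ tS S Y ∧ Al l r w t ∧ Btw h u w v}.ncard ≤ 2 ↔
      ¬∃ x ∈ {w | w ∈ tS S Y ∧ Al l r w t ∧ Btw h u w v},
        ∃ y ∈ {w | w ∈ tS S Y ∧ Al l r w t ∧ Btw h u w v},
        ∃ z ∈ {w | w ∈ tS S Y ∧ Al l r w t ∧ Btw h u w v}, h x < h y ∧ h y < h z := by
    intro u v t
    refine ncard_le_two (hfin.subset fun _ a => a.1) (fun x hx y hy a => ?_)
    by_contra c
    exact disj x hx.1 y hy.1 c t hx.2.1 hy.2.1 a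
  have cc : ∀ u ∈ S, ∀ v ∈ S, H u < H v → (DVis S H b d u v ↔ ∃ t, Al l r (.inl u) t ∧
      Al l r (.inl v) t ∧ {w | w ∈ tS S Y ∧ Al l r w t ∧ Btw h (.inl u) w (.inl v)}.ncard ≤ 2) := by
    intro u hu v hv huv
    have huv' : h (.inl u) < h (.inl v) := Nat.cast_lt.2 huv
    simp only [cnt]
    simp only [btw_of_lt huv']
    constructor
    · rintro ⟨-, k, k1, k2, k3⟩
      have c := core k (k + e) (by linarith) (by linarith)
      have nt : ∀ y ∈ Y, ¬Al l r (.inr y) (k + e) := by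
        intro y hy a
        have a' := near y hy _ a
        have x : n y = k := nat_eq_of_near (t := k + e) (by linarith [a'.1]) a'.2 (by linarith)
          (by linarith)
        rw [x] at a'
        exact lt_irrefl _ a'.1
      refine ⟨k + e, (c u).2 k1, (c v).2 k2, ?_⟩
      rintro ⟨x | x, x1, y | y, y1, z | z, z1, a1, a2⟩
      · exact k3 ⟨x, x1.1, y, y1.1, z, z1.1, (c x).1 x1.2.1, (c y).1 y1.2.1, (c z).1 z1.2.1,
          (Nat.cast_lt (α := ℝ)).1 x1.2.2.1, (Nat.cast_lt (α := ℝ)).1 a1,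
          (Nat.cast_lt (α := ℝ)).1 a2, (Nat.cast_lt (α := ℝ)).1 z1.2.2.2⟩
      all_goals first
        | exact nt _ x1.1 x1.2.1
        | exact nt _ y1.1 y1.2.1
        | exact nt _ z1.1 z1.2.1
    · rintro ⟨t, t1, t2, t3⟩
      obtain ⟨k, k1, k2, k3⟩ := tm u hu v hv (fun x => by rw [x] at huv; omega) t t1 t2
      refine ⟨huv, k, k1, k2, ?_⟩
      rintro ⟨x, x1, y, y1, z, z1, x2, y2, z2, a1, a2, a3, a4⟩
      exact t3 ⟨.inl x, ⟨x1, k3 x x2, Nat.cast_lt.2 a1, Nat.cast_lt.2 (by omega)⟩,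
        .inl y, ⟨y1, k3 y y2, Nat.cast_lt.2 (by omega), Nat.cast_lt.2 (by omega)⟩,
        .inl z, ⟨z1, k3 z z2, Nat.cast_lt.2 (by omega), Nat.cast_lt.2 a4⟩,
        Nat.cast_lt.2 a2, Nat.cast_lt.2 a3⟩
  have ct : ∀ y ∈ Y, ∀ v ∈ S, (v ∈ T y ↔ ∃ t, Al l r (.inr y) t ∧
      Al l r (.inl v) t ∧ {w | w ∈ tS S Y ∧ Al l r w t ∧ Btw h (.inr y) w (.inl v)}.ncard ≤ 2) := by
    intro y hy v hv
    obtain ⟨t1, t2, t3, t4, t5, t6, p1, p2, p3, p4, p5⟩ := hP y hy
    have bt : ∀ w, Btw h (.inr y) (.inl w) (.inl v) ↔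
        (m y < H w ∧ H w < H v) ∨ (H v < H w ∧ H w ≤ m y) := by
      intro w
      simp only [Btw, h, Sum.elim_inl, Sum.elim_inr, half_lt_iff, lt_half_iff, Nat.cast_lt]
    have mem : ∀ w, w ∈ T y → H w = H t1 ∨ H w = H t2 ∨ H w = H t3 ∨ H w = H t4 ∨ H w = H t5 ∨
        H w = H t6 := by
      intro w hw
      rw [p1] at hw
      simp only [List.mem_cons, List.not_mem_nil, or_false] at hw
      rcases hw with rfl | rfl | rfl | rfl | rfl | rfl <;> simp
    simp only [cnt]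
    constructor
    · intro hvT
      obtain ⟨x1, x2, x3⟩ := s1 y hy
      have a : Al l r (.inr y) (n y + α y) := ⟨le_rfl, by simp only [r, Sum.elim_inr]; linarith⟩
      have c := core (n y) (n y + α y) (by linarith) (by linarith)
      have nt : ∀ x, Sum.inr x ∉ {w | w ∈ tS S Y ∧ Al l r w (n y + α y) ∧
          Btw h (.inr y) w (.inl v)} := by
        rintro x ⟨b1, b2, b3⟩
        rw [uniq x b1 y hy _ b2 a] at b3
        rcases b3 with b3 | b3 <;> linarith [b3.1, b3.2]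
      refine ⟨n y + α y, a, (c v).2 (p3 v hvT).2, ?_⟩
      rintro ⟨x | x, x1, w | w, y1, z | z, z1, a1, a2⟩
      · have b1 := (bt x).1 x1.2.2
        have b2 := (bt w).1 y1.2.2
        have b3 := (bt z).1 z1.2.2
        have a1' := (Nat.cast_lt (α := ℝ)).1 a1
        have a2' := (Nat.cast_lt (α := ℝ)).1 a2
        have v1 := mem v hvT
        have c1 := mem x (p5 x x1.1 ((c x).1 x1.2.1) (by omega) (by omega))
        have c2 := mem w (p5 w y1.1 ((c w).1 y1.2.1) (by omega) (by omega))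
        have c3 := mem z (p5 z z1.1 ((c z).1 z1.2.1) (by omega) (by omega))
        omega
      all_goals first
        | exact nt _ x1
        | exact nt _ y1
        | exact nt _ z1
    · rintro ⟨t, a1, a2, a3⟩
      by_contra c
      have a' := near y hy t a1
      have co := core (n y) t (by linarith [a'.1]) a'.2
      have q : ∀ w ∈ T y, H v ≠ H w := fun w hw =>
        D.disj v hv w (p3 w hw).1 (fun x => c (x ▸ hw)) _ ((co v).1 a2) (p3 w hw).2
      have q1 := q t1 (by simp [p1])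
      have q6 := q t6 (by simp [p1])
      have q0 : ¬(H t1 < H v ∧ H v < H t6) := fun x => c (p5 v hv ((co v).1 a2) x.1 x.2)
      have inS : ∀ w ∈ T y, (m y < H w ∧ H w < H v) ∨ (H v < H w ∧ H w ≤ m y) →
          Sum.inl w ∈ {w | w ∈ tS S Y ∧ Al l r w t ∧ Btw h (.inr y) w (.inl v)} :=
        fun w hw x => ⟨(p3 w hw).1, (co w).2 (p3 w hw).2, (bt w).2 x⟩
      by_cases lo : H v < H t1
      · exact a3 ⟨_, inS t1 (by simp [p1]) (by omega), _, inS t2 (by simp [p1]) (by omega), _,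
          inS t3 (by simp [p1]) (by omega), Nat.cast_lt.2 p4.1, Nat.cast_lt.2 p4.2.1⟩
      · exact a3 ⟨_, inS t4 (by simp [p1]) (by omega), _, inS t5 (by simp [p1]) (by omega), _,
          inS t6 (by simp [p1]) (by omega), Nat.cast_lt.2 p4.2.2.2.1, Nat.cast_lt.2 p4.2.2.2.2⟩
  refine ⟨h, l, r, ?_, ?_, disj, ?_⟩
  · rintro (v | y) hv
    · exact Nat.cast_lt.2 (D.lt v hv)
    · simp only [l, r, Sum.elim_inr]
      linarith [(s1 y hv).2.1]
  · rintro (u | u) hu (v | v) hv ne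
    · obtain ⟨a1, a2, a3⟩ := D.dist u hu v hv (fun x => ne (congrArg _ x))
      exact ⟨fun x => a1 (Nat.cast_injective (R := ℝ) x),
        fun x => a2 (Nat.cast_injective (R := ℝ) x), fun x => a3 (Nat.cast_injective (R := ℝ) x)⟩
    · obtain ⟨x1, x2, x3⟩ := s1 v hv
      exact ⟨nat_ne_frac _ _ (by linarith) (by linarith),
        nat_ne_frac _ _ (by linarith) (by linarith), nat_ne_frac _ _ (by linarith) (by linarith)⟩
    · obtain ⟨x1, x2, x3⟩ := s1 u hu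
      exact ⟨(nat_ne_frac _ _ (by linarith) (by linarith)).symm,
        (nat_ne_frac _ _ (by linarith) (by linarith)).symm,
        (nat_ne_frac _ _ (by linarith) (by linarith)).symm⟩
    · have lu : l (.inr u) ≤ r (.inr u) := by
        simp only [l, r, Sum.elim_inr]
        linarith [(s1 u hu).2.1]
      have lv : l (.inr v) ≤ r (.inr v) := by
        simp only [l, r, Sum.elim_inr]
        linarith [(s1 v hv).2.1]
      refine ⟨fun x => ne (congrArg _ (uniq u hu v hv _ ⟨le_rfl, lu⟩ ⟨x.ge, x ▸ lv⟩)),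
        fun x => ne (congrArg _ (uniq u hu v hv _ ⟨lu, le_rfl⟩ ⟨x ▸ lv, x.le⟩)),
        fun x => ne (congrArg _ (uniq u hu v hv _ ⟨le_rfl, lu⟩ ⟨x ▸ lv, x.le⟩))⟩
  · rintro (u | u) hu (v | v) hv ne
    · have ne' : u ≠ v := fun x => ne (congrArg _ x)
      refine (D.adj u hu v hv ne').trans ?_
      rcases lt_trichotomy (H u) (H v) with c | c | c
      · rw [← cc u hu v hv c]
        exact or_iff_left (fun x => lt_asymm c x.1)
      · constructor
        · rintro (x | x) <;> exact absurd x.1 (by omega)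
        · rintro ⟨t, t1, t2, -⟩
          exact absurd (congrArg (Nat.cast (R := ℝ)) c) (disj _ hu _ hv ne t t1 t2)
      · rw [or_iff_right (fun x => lt_asymm c x.1), cc v hv u hu c]
        simp only [btw_comm (u := Sum.inl v)]
        exact exists_congr fun t => and_left_comm
    · refine (ct v hv u hu).trans ?_
      simp only [btw_comm (u := Sum.inr v)]
      exact exists_congr fun t => and_left_comm
    · exact ct u hu v hv
    · constructor
      · exact False.elim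
      · rintro ⟨t, t1, t2, -⟩
        exact ne (congrArg _ (uniq u hu v hv t t1 t2))

end Pool.Agent.Lib.MP_0d8e88_lc
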