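import Pool.Agent.Lib.MP_0d8e88_lc.Local
import Pool.Agent.Lib.MP_0d8e88_lc.Disc
import Pool.Agent.Shared.PolyTime.Tableau

/-!
The graph attached to a formula with sorted clauses: rows are clauses, time slabs are variables.
-/

namespace Pool.Agent.Lib.MP_0d8e88_lc

open Pool.Agent.Shared.PolyTime

variable (ψ : List (Clause3 ℕ))

/-- Number of variable slabs. -/
def nv : ℕ := 3 * ψ.length + 3

def row (r : ℕ) : Clause3 ℕ := ψ.getD r ((1, false), (2, false), (3, false))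

/-- The variables of each clause are increasing and lie between `1` and `3 * ψ.length`. -/
def Sorted : Prop := ∀ c ∈ ψ, 1 ≤ c.1.1 ∧ c.1.1 < c.2.1.1 ∧ c.2.1.1 < c.2.2.1 ∧
  c.2.2.1 ≤ 3 * ψ.length

/-- The slab in which the phase `p` of the row `r` takes place. -/
def slab (r p : ℕ) : ℕ := if p = 0 then 0 else if p = 1 then (row ψ r).1.1 else
  if p = 2 then (row ψ r).2.1.1 else if p = 3 then (row ψ r).2.2.1 else
  if p = 4 then nv ψ + 2 else nv ψ + 4

/-- The kind of the cell in the row `r` and the slab `s`. -/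
def kind (r s : ℕ) : ℕ := if s = 0 then 0 else
  if s < (row ψ r).1.1 then 2 else if s = (row ψ r).1.1 then 4 + (row ψ r).1.2.toNat else
  if s < (row ψ r).2.1.1 then 6 else if s = (row ψ r).2.1.1 then 8 + (row ψ r).2.1.2.toNat else
  if s < (row ψ r).2.2.1 then 10 else if s = (row ψ r).2.2.1 then 12 + (row ψ r).2.2.2.toNat else
  if s < nv ψ + 2 then 14 else if s = nv ψ + 2 then 16 else if s < nv ψ + 4 then 18 else 20

/-- The core vertices: a height, and the slab for a private bar. -/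
def isCore (v : ℕ × ℕ) : Bool := decide (v.1 < 49 * ψ.length + 5) &&
  if isLong (v.1 % 49) then decide (v.2 = 0)
  else decide (v.2 < nv ψ + 5) && ex (kind ψ (v.1 / 49) v.2) (v.1 % 49)

/-- The vertex at the height `y` during the slab `s`. -/
def vx (s y : ℕ) : ℕ × ℕ := (y, if isLong (y % 49) then 0 else s)

def adjU (u v : ℕ × ℕ) : Prop := u.1 < v.1 ∧ v.1 - 49 * (u.1 / 49) < 54 ∧
  ∃ s < nv ψ + 5, u = vx s u.1 ∧ v = vx s v.1 ∧
    LV (kind ψ (u.1 / 49) s) (u.1 % 49) (v.1 - 49 * (u.1 / 49)) = true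

def adjC (u v : ℕ × ℕ) : Prop := adjU ψ u v ∨ adjU ψ v u

def coreS : Set (ℕ × ℕ) := {v | isCore ψ v = true}

def pinI : Set (ℕ × ℕ × ℕ) :=
  {p | p.1 < ψ.length ∧ p.2.1 < nv ψ + 5 ∧ p.2.2 < (pins (kind ψ p.1 p.2.1)).length}

/-- The vertex at the level `l` of the window of the cell `(r, s)`. -/
def cv (r s l : ℕ) : ℕ × ℕ := vx s (49 * r + l)

def pinP (p : ℕ × ℕ × ℕ) : List (ℕ × ℕ) := (pin (kind ψ p.1 p.2.1) p.2.2).map (cv p.1 p.2.1)

/-- Admissible states of the cells. -/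
def StOK (st : ℕ → ℕ → ℕ) : Prop := (∀ r s, st r s < nst (kind ψ r s)) ∧
  ∀ r r' s, s ≠ nv ψ + 2 → st r s = st r' s

variable (st : ℕ → ℕ → ℕ)

def ct (r s : ℕ) : ℕ := tab (kind ψ r s) (st r s)

def sb (v : ℕ × ℕ) : ℕ := if isLong (v.1 % 49) then slab ψ (v.1 / 49) (bph (v.1 % 49)) else v.2

def sd (v : ℕ × ℕ) : ℕ := if isLong (v.1 % 49) then slab ψ (v.1 / 49) (dph (v.1 % 49)) else v.2

def bc (v : ℕ × ℕ) : ℕ := 14 * sb ψ v + eb (ct ψ st (v.1 / 49) (sb ψ v)) (v.1 % 49)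

def dc (v : ℕ × ℕ) : ℕ := 14 * sd ψ v + ed (ct ψ st (v.1 / 49) (sd ψ v)) (v.1 % 49)

def HT : ℕ := 49 * ψ.length + 54

def bt (v : ℕ × ℕ) : ℕ := bc ψ st v * HT ψ + v.1

def dt (v : ℕ × ℕ) : ℕ := dc ψ st v * HT ψ + v.1

variable {ψ st}

theorem row_ok (hS : Sorted ψ) (r : ℕ) : 1 ≤ (row ψ r).1.1 ∧ (row ψ r).1.1 < (row ψ r).2.1.1 ∧
    (row ψ r).2.1.1 < (row ψ r).2.2.1 ∧ (row ψ r).2.2.1 ≤ nv ψ := by
  unfold row nv
  by_cases h : r < ψ.length
  · rw [List.getD_eq_getElem _ _ h]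
    have := hS _ (List.getElem_mem h)
    omega
  · rw [List.getD_eq_default _ _ (not_lt.1 h)]
    simp

theorem kind_mem (r s : ℕ) : kind ψ r s ∈ kinds := by
  unfold kind
  split_ifs
  any_goals decide
  · cases (row ψ r).1.2 <;> decide
  · cases (row ψ r).2.1.2 <;> decide
  · cases (row ψ r).2.2.2 <;> decide

theorem kind_spec (r s : ℕ) : (s = 0 ∧ kind ψ r s = 0) ∨ (s ≠ 0 ∧
    ((s < (row ψ r).1.1 ∧ kind ψ r s = 2) ∨
    (s = (row ψ r).1.1 ∧ kind ψ r s = 4 + (row ψ r).1.2.toNat) ∨ ((row ψ r).1.1 < s ∧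
    ((s < (row ψ r).2.1.1 ∧ kind ψ r s = 6) ∨
    (s = (row ψ r).2.1.1 ∧ kind ψ r s = 8 + (row ψ r).2.1.2.toNat) ∨ ((row ψ r).2.1.1 < s ∧
    ((s < (row ψ r).2.2.1 ∧ kind ψ r s = 10) ∨
    (s = (row ψ r).2.2.1 ∧ kind ψ r s = 12 + (row ψ r).2.2.2.toNat) ∨ ((row ψ r).2.2.1 < s ∧
    ((s < nv ψ + 2 ∧ kind ψ r s = 14) ∨ (s = nv ψ + 2 ∧ kind ψ r s = 16) ∨
    (s = nv ψ + 3 ∧ kind ψ r s = 18) ∨ (nv ψ + 4 ≤ s ∧ kind ψ r s = 20))))))))) := by
  generalize hk : kind ψ r s = k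
  unfold kind at hk
  split_ifs at hk <;> omega

theorem slab_spec (r : ℕ) : slab ψ r 0 = 0 ∧ slab ψ r 1 = (row ψ r).1.1 ∧
    slab ψ r 2 = (row ψ r).2.1.1 ∧ slab ψ r 3 = (row ψ r).2.2.1 ∧ slab ψ r 4 = nv ψ + 2 ∧
    slab ψ r 5 = nv ψ + 4 := ⟨rfl, rfl, rfl, rfl, rfl, rfl⟩

theorem kind_cmp (hS : Sorted ψ) (r : ℕ) {s p : ℕ} (hs : s < nv ψ + 5) (hp : p ≤ 5) :
    (kind ψ r s / 2 < 2 * p ↔ s < slab ψ r p) ∧ (kind ψ r s / 2 = 2 * p ↔ s = slab ψ r p) := by
  have h := row_ok hS r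
  have h1 := Bool.toNat_le (row ψ r).1.2
  have h2 := Bool.toNat_le (row ψ r).2.1.2
  have h3 := Bool.toNat_le (row ψ r).2.2.2
  have k := kind_spec (ψ := ψ) r s
  have q := slab_spec (ψ := ψ) r
  interval_cases p <;> omega

theorem kind_cls (hS : Sorted ψ) (r s : ℕ) : (kind ψ r s = 0 ↔ s = 0) ∧
    (kind ψ r s = 16 ↔ s = nv ψ + 2) ∧ (kind ψ r s = 20 ↔ nv ψ + 4 ≤ s) := by
  have h := row_ok hS r
  have h1 := Bool.toNat_le (row ψ r).1.2
  have h2 := Bool.toNat_le (row ψ r).2.1.2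
  have h3 := Bool.toNat_le (row ψ r).2.2.2
  have k := kind_spec (ψ := ψ) r s
  omega

theorem slab_lt (hS : Sorted ψ) (r : ℕ) {p q : ℕ} (h : p < q) (hq : q ≤ 5) :
    slab ψ r p < slab ψ r q ∧ slab ψ r q ≤ nv ψ + 4 ∧ (q < 5 → slab ψ r q ≤ nv ψ + 2) := by
  have h := row_ok hS r
  unfold slab
  split_ifs <;> omega

theorem lex_le {N c q y p : ℕ} (hy : y < N) (hp : p < N) :
    c * N + y ≤ q * N + p ↔ c < q ∨ (c = q ∧ y ≤ p) := by
  rcases lt_trichotomy c q with h | rfl | h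
  · have := Nat.mul_le_mul_right N (Nat.succ_le_of_lt h)
    rw [Nat.succ_mul] at this
    omega
  · omega
  · have := Nat.mul_le_mul_right N (Nat.succ_le_of_lt h)
    rw [Nat.succ_mul] at this
    omega

theorem dal_lex {v : ℕ × ℕ} {q p : ℕ} (hy : v.1 < HT ψ) (hp : p < HT ψ) :
    DAl (bt ψ st) (dt ψ st) v (q * HT ψ + p) ↔
      (bc ψ st v < q ∨ (bc ψ st v = q ∧ v.1 ≤ p)) ∧
        ¬(dc ψ st v < q ∨ (dc ψ st v = q ∧ v.1 ≤ p)) := by
  rw [DAl, bt, dt, lex_le hy hp, ← lex_le hy hp (c := dc ψ st v), not_le]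

theorem long_times (hS : Sorted ψ) (hst : StOK ψ st) (r : ℕ) {l : ℕ} (hl : l < 49)
    (hL : isLong l = true) :
    (1 ≤ eb (ct ψ st r (slab ψ r (bph l))) l ∧ eb (ct ψ st r (slab ψ r (bph l))) l < 14) ∧
    (1 ≤ ed (ct ψ st r (slab ψ r (dph l))) l ∧ ed (ct ψ st r (slab ψ r (dph l))) l < 14) ∧
    (bph l = 0 → eb (ct ψ st r (slab ψ r (bph l))) l = 1) ∧
    (dph l = 5 → ed (ct ψ st r (slab ψ r (dph l))) l = 1) := by
  have p := ph_ok l hl
  have s := slab_lt hS r p.1 p.2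
  refine ⟨(long_ok _ (kind_mem r _) _ (hst.1 r _) l hl hL).1.2.1
      ((kind_cmp hS r (by omega) (by omega)).2.2 rfl),
    (long_ok _ (kind_mem r _) _ (hst.1 r _) l hl hL).2.1
      ((kind_cmp hS r (by omega) (by omega)).2.2 rfl), fun e => ?_, fun e => ?_⟩
  · have k : kind ψ r (slab ψ r (bph l)) = 0 := (kind_cls hS r _).1.2 (by simp [e, slab])
    have h := hst.1 r (slab ψ r (bph l))
    rw [ct, k] at *
    exact (ends_ok _ h l hl hL).1 e
  · have k : kind ψ r (slab ψ r (dph l)) = 20 := (kind_cls hS r _).2.2.2 (by simp [e, slab])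
    have h := hst.1 r (slab ψ r (dph l))
    rw [ct, k] at *
    exact (ends_ok _ h l hl hL).2 e

theorem core_lt {v : ℕ × ℕ} (h : isCore ψ v = true) : v.1 < 49 * ψ.length + 5 := by
  simp only [isCore, Bool.and_eq_true, decide_eq_true_eq] at h
  exact h.1

theorem core_long {v : ℕ × ℕ} (h : isCore ψ v = true) (hL : isLong (v.1 % 49) = true) :
    v.2 = 0 := by
  simp only [isCore, Bool.and_eq_true, decide_eq_true_eq, hL, if_true] at h
  exact h.2

theorem priv_times (hS : Sorted ψ) (hst : StOK ψ st) {v : ℕ × ℕ} (h : isCore ψ v = true)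
    (hL : isLong (v.1 % 49) = false) : v.2 < nv ψ + 4 ∧ 14 * v.2 + 1 ≤ bc ψ st v ∧
      bc ψ st v < dc ψ st v ∧ dc ψ st v < 14 * v.2 + 14 := by
  simp only [isCore, Bool.and_eq_true, decide_eq_true_eq, hL, Bool.false_eq_true, if_false] at h
  have p := (priv_ok _ (kind_mem (ψ := ψ) (v.1 / 49) v.2) _ (hst.1 _ _) _
    (Nat.mod_lt v.1 (by omega)) hL).2 h.2.2
  have k := (kind_cls hS (v.1 / 49) v.2).2.2
  simp only [bc, dc, sb, sd, hL, Bool.false_eq_true, if_false, ct]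
  omega

theorem times (hS : Sorted ψ) (hst : StOK ψ st) {v : ℕ × ℕ} (h : isCore ψ v = true) :
    1 ≤ bc ψ st v ∧ bc ψ st v < dc ψ st v ∧ dc ψ st v ≤ 14 * (nv ψ + 4) + 1 := by
  cases hL : isLong (v.1 % 49)
  · have := priv_times hS hst h hL
    omega
  · have hl := Nat.mod_lt v.1 (show 0 < 49 by omega)
    have t := long_times hS hst (v.1 / 49) hl hL
    have p := ph_ok _ hl
    have s := slab_lt hS (v.1 / 49) p.1 p.2
    simp only [bc, dc, sb, sd, hL, if_true]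
    omega

theorem alive_eq (hS : Sorted ψ) (hst : StOK ψ st) {v : ℕ × ℕ} (h : isCore ψ v = true)
    {s m p : ℕ} (hm : m < 14) (hp : p < HT ψ)
    (ha : DAl (bt ψ st) (dt ψ st) v ((14 * s + m) * HT ψ + p)) : v = vx s v.1 := by
  have h1 := core_lt h
  rw [dal_lex (by unfold HT; omega) hp] at ha
  unfold vx
  cases hL : isLong (v.1 % 49)
  · have := priv_times hS hst h hL
    exact Prod.ext rfl (by simp only [Bool.false_eq_true, if_false]; omega)
  · exact Prod.ext rfl (core_long h hL)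

theorem alive_iff (hS : Sorted ψ) (hst : StOK ψ st) {y s m p : ℕ} (hy : y < 49 * ψ.length + 5)
    (hs : s < nv ψ + 5) (hm : m < 14) (hp : p < HT ψ) :
    (isCore ψ (vx s y) = true ∧ DAl (bt ψ st) (dt ψ st) (vx s y) ((14 * s + m) * HT ψ + p)) ↔
      alE (eb (ct ψ st (y / 49) s) (y % 49)) (ed (ct ψ st (y / 49) s) (y % 49)) m
        (decide (y ≤ p)) = true := by
  rw [dal_lex (by unfold HT vx; omega) hp, alE_iff, decide_eq_true_eq]
  have hl := Nat.mod_lt y (show 0 < 49 by omega)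
  cases hL : isLong (y % 49)
  · have q := priv_ok _ (kind_mem (ψ := ψ) (y / 49) s) _ (hst.1 _ _) _ hl hL
    simp only [isCore, vx, bc, dc, sb, sd, hL, Bool.false_eq_true, if_false, hy, hs, decide_true,
      Bool.true_and, ct]
    cases e : ex (kind ψ (y / 49) s) (y % 49)
    · have := q.1 e
      simp only [Bool.false_eq_true, false_and, false_iff]
      omega
    · have := q.2 e
      simp only [true_and]
      omega
  · have t := long_times hS hst (y / 49) hl hL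
    have ph := ph_ok _ hl
    have sl := slab_lt hS (y / 49) ph.1 ph.2
    have q := long_ok _ (kind_mem (ψ := ψ) (y / 49) s) _ (hst.1 _ _) _ hl hL
    have c1 := kind_cmp hS (y / 49) hs (p := bph (y % 49)) (by omega)
    have c2 := kind_cmp hS (y / 49) hs (p := dph (y % 49)) ph.2
    have e1 : s = slab ψ (y / 49) (bph (y % 49)) → eb (ct ψ st (y / 49) s) (y % 49) =
        eb (ct ψ st (y / 49) (slab ψ (y / 49) (bph (y % 49)))) (y % 49) := fun e => by rw [← e]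
    have e2 : s = slab ψ (y / 49) (dph (y % 49)) → ed (ct ψ st (y / 49) s) (y % 49) =
        ed (ct ψ st (y / 49) (slab ψ (y / 49) (dph (y % 49)))) (y % 49) := fun e => by rw [← e]
    simp only [isCore, vx, bc, dc, sb, sd, hL, if_true, hy, decide_true, Bool.true_and, true_and]
    rw [← ct] at q
    omega

theorem alive_win (hS : Sorted ψ) (hst : StOK ψ st) {r l s m p : ℕ} (hl : l < 54)
    (hy : 49 * r + l < 49 * ψ.length + 5) (hs : s < nv ψ + 5) (hm : m < 14) (hp : p < HT ψ) :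
    (isCore ψ (cv r s l) = true ∧
      DAl (bt ψ st) (dt ψ st) (cv r s l) ((14 * s + m) * HT ψ + p)) ↔
      aL (ct ψ st r s) m (min 54 (p + 1 - 49 * r)) l = true := by
  rw [cv, alive_iff hS hst hy hs hm hp, aL]
  have e1 : (49 * r + l) % 49 = l % 49 := by omega
  have e2 : decide (49 * r + l ≤ p) = Nat.blt l (min 54 (p + 1 - 49 * r)) := by
    rw [Bool.eq_iff_iff, Nat.blt_eq, decide_eq_true_eq]
    omega
  rw [e1, e2]
  by_cases h : l < 49
  · rw [show (49 * r + l) / 49 = r by omega]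
  · rw [show (49 * r + l) / 49 = r + 1 by omega]
    have k := kind_cls hS r s
    have k' := kind_cls hS (r + 1) s
    have := std_ok _ (kind_mem (ψ := ψ) (r + 1) s) _ (kind_mem (ψ := ψ) r s) (k'.1.trans k.1.symm)
      (k'.2.1.trans k.2.1.symm) (k'.2.2.trans k.2.2.symm) _ (hst.1 _ _) _ (hst.1 _ _)
      (fun n => hst.2 _ _ _ (fun e => n (k'.2.1.2 e))) (l % 49) (by omega)
    rw [ct, this.1, this.2, ct]

theorem vis_iff (hS : Sorted ψ) (hst : StOK ψ st) {r a b s m p : ℕ} (hab : a < b) (hb : b < 54)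
    (hy : 49 * r + b < 49 * ψ.length + 5) (hs : s < nv ψ + 5) (hm : m < 14) (hp : p < HT ψ) :
    VisL (ct ψ st r s) m (min 54 (p + 1 - 49 * r)) a b ↔
      (isCore ψ (cv r s a) = true ∧
        DAl (bt ψ st) (dt ψ st) (cv r s a) ((14 * s + m) * HT ψ + p)) ∧
      (isCore ψ (cv r s b) = true ∧
        DAl (bt ψ st) (dt ψ st) (cv r s b) ((14 * s + m) * HT ψ + p)) ∧
      ¬Blk (coreS ψ) Prod.fst (bt ψ st) (dt ψ st) (cv r s a) (cv r s b)
        ((14 * s + m) * HT ψ + p) := by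
  rw [VisL, alive_win hS hst (by omega) (by omega) hs hm hp, alive_win hS hst hb hy hs hm hp]
  refine and_congr_right fun _ => and_congr_right fun _ => not_congr ⟨?_, ?_⟩
  · rintro ⟨x, y, z, e1, e2, e3, e4, x1, y1, z1⟩
    rw [← alive_win hS hst (by omega) (by omega) hs hm hp] at x1 y1 z1
    refine ⟨_, x1.1, _, y1.1, _, z1.1, x1.2, y1.2, z1.2, ?_⟩
    simp only [cv, vx]
    omega
  · rintro ⟨x, x1, y, y1, z, z1, x2, y2, z2, e⟩
    simp only [cv, vx] at e
    have g : ∀ w, w ∈ coreS ψ → DAl (bt ψ st) (dt ψ st) w ((14 * s + m) * HT ψ + p) →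
        49 * r + a < w.1 → w.1 < 49 * r + b →
        aL (ct ψ st r s) m (min 54 (p + 1 - 49 * r)) (w.1 - 49 * r) = true := by
      intro w w1 w2 w3 w4
      have : cv r s (w.1 - 49 * r) = w := by
        rw [cv, show 49 * r + (w.1 - 49 * r) = w.1 by omega]
        exact (alive_eq hS hst w1 hm hp w2).symm
      rw [← alive_win hS hst (by omega) (by omega) hs hm hp, this]
      exact ⟨w1, w2⟩
    exact ⟨x.1 - 49 * r, y.1 - 49 * r, z.1 - 49 * r, by omega, by omega, by omega, by omega,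
      g x x1 x2 (by omega) (by omega), g y y1 y2 (by omega) (by omega),
      g z z1 z2 (by omega) (by omega)⟩

theorem time_split (hS : Sorted ψ) (hst : StOK ψ st) {v : ℕ × ℕ} (h : isCore ψ v = true) {t : ℕ}
    (ha : DAl (bt ψ st) (dt ψ st) v t) :
    ∃ s m p, s < nv ψ + 5 ∧ m < 14 ∧ p < HT ψ ∧ t = (14 * s + m) * HT ψ + p := by
  have h0 : 0 < HT ψ := by unfold HT; omega
  have e : t = t / HT ψ * HT ψ + t % HT ψ := (Nat.div_add_mod' _ _).symm
  have h1 := core_lt h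
  have h2 := times hS hst h
  rw [e, dal_lex (by unfold HT; omega) (Nat.mod_lt _ h0)] at ha
  refine ⟨t / HT ψ / 14, t / HT ψ % 14, t % HT ψ, by omega, by omega, Nat.mod_lt _ h0, ?_⟩
  rw [Nat.div_add_mod]
  exact e

theorem eternal (hS : Sorted ψ) (hst : StOK ψ st) {u v : ℕ × ℕ} (hu : isCore ψ u = true)
    (hv : isCore ψ v = true) {t : ℕ} (a1 : DAl (bt ψ st) (dt ψ st) u t)
    (a2 : DAl (bt ψ st) (dt ψ st) v t) {r l : ℕ} (hl : l = 0 ∨ l = 2 ∨ l = 3)
    (h1 : u.1 < 49 * r + l) (h2 : 49 * r + l < v.1) :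
    isCore ψ (49 * r + l, 0) = true ∧ DAl (bt ψ st) (dt ψ st) (49 * r + l, 0) t := by
  have e1 : (49 * r + l) % 49 = l := by omega
  have e2 : (49 * r + l) / 49 = r := by omega
  have hL : isLong l = true ∧ bph l = 0 ∧ dph l = 5 := by
    rcases hl with rfl | rfl | rfl <;> decide
  have lt := long_times hS hst r (by omega) hL.1
  have c := core_lt hv
  have b1 : bc ψ st (49 * r + l, 0) = 1 := by
    simp only [bc, sb, e1, e2, hL.1, if_true, lt.2.2.1 hL.2.1]
    simp [hL.2.1, slab]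
  have b2 : dc ψ st (49 * r + l, 0) = 14 * (nv ψ + 4) + 1 := by
    simp only [dc, sd, e1, e2, hL.1, if_true, lt.2.2.2 hL.2.2]
    simp [hL.2.2, slab]
  refine ⟨by simp [isCore, e1, hL.1]; omega, ?_⟩
  have t1 := Nat.mul_le_mul_right (HT ψ) (times hS hst hv).1
  have t2 := Nat.mul_le_mul_right (HT ψ) (times hS hst hu).2.2
  simp only [DAl, bt, dt, b1, b2] at a1 a2 ⊢
  omega

theorem adjU_of_dvis (hS : Sorted ψ) (hst : StOK ψ st) {u v : ℕ × ℕ} (hu : isCore ψ u = true)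
    (hv : isCore ψ v = true) (h : DVis (coreS ψ) Prod.fst (bt ψ st) (dt ψ st) u v) :
    adjU ψ u v := by
  obtain ⟨h1, t, t1, t2, t3⟩ := h
  have hw : v.1 - 49 * (u.1 / 49) < 54 := by
    by_contra c
    have x := eternal hS hst hu hv t1 t2 (r := u.1 / 49 + 1) (l := 0) (by omega) (by omega) (by omega)
    have y := eternal hS hst hu hv t1 t2 (r := u.1 / 49 + 1) (l := 2) (by omega) (by omega) (by omega)
    have z := eternal hS hst hu hv t1 t2 (r := u.1 / 49 + 1) (l := 3) (by omega) (by omega) (by omega)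
    exact t3 ⟨_, x.1, _, y.1, _, z.1, x.2, y.2, z.2, by omega, by omega, by omega, by omega⟩
  obtain ⟨s, m, p, hs, hm, hp, rfl⟩ := time_split hS hst hu t1
  have eu := alive_eq hS hst hu hm hp t1
  have ev := alive_eq hS hst hv hm hp t2
  have c := core_lt hv
  refine ⟨h1, hw, s, hs, eu, ev, ?_⟩
  have e1 : cv (u.1 / 49) s (u.1 % 49) = u := by
    rw [cv, Nat.div_add_mod]
    exact eu.symm
  have e2 : cv (u.1 / 49) s (v.1 - 49 * (u.1 / 49)) = v := by
    rw [cv, show 49 * (u.1 / 49) + (v.1 - 49 * (u.1 / 49)) = v.1 by omega]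
    exact ev.symm
  refine lv_of_vis (kind_mem _ _) (hst.1 _ _) hm (min_le_left _ _) (by omega) (by omega) hw
    ((vis_iff hS hst (by omega) hw (by omega) hs hm hp).2 ?_)
  rw [e1, e2]
  exact ⟨⟨hu, t1⟩, ⟨hv, t2⟩, t3⟩

theorem dvis_of_good (hS : Sorted ψ) (hst : StOK ψ st) {r s a b : ℕ} (hab : a < b) (hb : b < 54)
    (hy : 49 * r + b < 49 * ψ.length + 5) (hs : s < nv ψ + 5)
    (h : good (kind ψ r s) (st r s) a b = true) :
    DVis (coreS ψ) Prod.fst (bt ψ st) (dt ψ st) (cv r s a) (cv r s b) := by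
  obtain ⟨m, hm, p, p1, p2, h⟩ := vis_of_good h
  have := (vis_iff hS hst hab hb hy hs hm (p := 49 * r + p - 1) (by unfold HT; omega)).1
    (by rwa [show min 54 (49 * r + p - 1 + 1 - 49 * r) = p by omega])
  exact ⟨by simp only [cv, vx]; omega, _, this.1.2, this.2.1.2, this.2.2⟩

theorem cv_long (r s s' : ℕ) {l : ℕ} (h : isLong (l % 49) = true) : cv r s l = cv r s' l := by
  simp only [cv, vx, show (49 * r + l) % 49 = l % 49 by omega, h, if_true]

theorem cv_up (r s l : ℕ) : cv r s (49 + l) = cv (r + 1) s l := by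
  simp only [cv, show 49 * r + (49 + l) = 49 * (r + 1) + l by omega]

theorem pinned (hS : Sorted ψ) (hst : StOK ψ st) {p : ℕ × ℕ × ℕ} (hp : p ∈ pinI ψ) :
    ∃ n m, Pinned (coreS ψ) Prod.fst (bt ψ st) (dt ψ st) (pinP ψ p) n m := by
  obtain ⟨r, s, i⟩ := p
  obtain ⟨h1, h2, h3⟩ := hp
  dsimp only at h1 h2 h3
  have hT : pin (kind ψ r s) i ∈ pins (kind ψ r s) := by
    rw [pin, List.getD_eq_getElem _ _ h3]
    exact List.getElem_mem _
  obtain ⟨m, hm, a, b, c, d, e, f, q1, q2, q3, q4⟩ := pin_ok (kind_mem r s) (hst.1 r s) hT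
  have hp : HT ψ - 1 < HT ψ := by unfold HT; omega
  have e0 : min 54 (HT ψ - 1 + 1 - 49 * r) = 54 := by unfold HT; omega
  have al := fun l (hl : l < 54) => alive_win hS hst (r := r) hl (by omega) h2 hm hp
  rw [e0] at al
  refine ⟨(14 * s + m) * HT ψ + (HT ψ - 1), _, cv r s a, cv r s b, cv r s c, cv r s d, cv r s e,
    cv r s f, by simp [pinP, q1], rfl, ?_, by simp only [cv, vx]; omega, ?_⟩
  · intro v hv
    obtain ⟨l, l1, rfl⟩ := List.mem_map.1 hv
    refine (al l ?_).2 (q3 l l1)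
    rw [q1] at l1
    simp only [List.mem_cons, List.not_mem_nil, or_false] at l1
    omega
  · intro w w1 w2 w3 w4
    simp only [cv, vx] at w3 w4
    have : cv r s (w.1 - 49 * r) = w := by
      rw [cv, show 49 * r + (w.1 - 49 * r) = w.1 by omega]
      exact (alive_eq hS hst w1 hm hp w2).symm
    refine List.mem_map.2 ⟨w.1 - 49 * r, q4 _ (by omega) (by omega) ((al _ (by omega)).1 ?_), this⟩
    rw [this]
    exact ⟨w1, w2⟩

end Pool.Agent.Lib.MP_0d8e88_lc
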