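import Mathlib
import Pool.Prelude.Def_F_458e953d

/-!
Definitions used in the statement: bars, bar `k`-visibility graphs, and graphs on `Fin n` coded by
their adjacency matrix.
-/

namespace Pool.Agent.Lib.MP_0d8e88_lc

/-- A bar: a closed horizontal segment of positive length, at height `y`, whose endpoints have
the abscissas `l < r`. -/
structure Bar where
  y : ℝ
  l : ℝ
  r : ℝ
  lt : l < r

/-- The set of points of a bar. -/
def Bar.pts (b : Bar) : Set (ℝ × ℝ) := segment ℝ (b.l, b.y) (b.r, b.y)

/-- `bar` is a bar `k`-visibility representation of `G`: the bars are pairwise disjoint, all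
endpoints have distinct abscissas, and two distinct vertices are adjacent exactly when a vertical
segment joins a point of the bar of one to a point of the bar of the other and meets at most `k`
other bars. -/
structure IsBarRep {V : Type} (k : ℕ) (G : SimpleGraph V) (bar : V → Bar) : Prop where
  disjoint : ∀ u v, u ≠ v → Disjoint (bar u).pts (bar v).pts
  distinct : ∀ u v, u ≠ v →
    (bar u).l ≠ (bar v).l ∧ (bar u).r ≠ (bar v).r ∧ (bar u).l ≠ (bar v).r
  adj_iff : ∀ u v, u ≠ v → (G.Adj u v ↔ ∃ p ∈ (bar u).pts, ∃ q ∈ (bar v).pts, p.1 = q.1 ∧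
    {w | w ≠ u ∧ w ≠ v ∧ (segment ℝ p q ∩ (bar w).pts).Nonempty}.ncard ≤ k)

/-- `G` is a bar `k`-visibility graph. -/
def IsBarVis {n : ℕ} (k : ℕ) (G : SimpleGraph (Fin n)) : Prop :=
  ∃ bar : Fin n → Bar, IsBarRep k G bar

open Classical in
/-- The adjacency matrix of `G`, read row by row: the bit number `i` tells whether the vertices
`i / n` and `i % n` are adjacent. -/
noncomputable def adjWord {n : ℕ} (G : SimpleGraph (Fin n)) : List Bool :=
  List.ofFn fun i : Fin (n * n) => decide (G.Adj i.divNat i.modNat)

open Classical in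
/-- The language of the adjacency matrices of the bar `k`-visibility graphs. -/
noncomputable def barLang (k : ℕ) : N68a2faeb.DecisionProblem := fun x =>
  decide (∃ (n : ℕ) (G : SimpleGraph (Fin n)), x = adjWord G ∧ IsBarVis k G)

end Pool.Agent.Lib.MP_0d8e88_lc
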