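import Pool.Agent.Lib.MP_0d8e88_lc.Pin

/-!
Consequences of a representation of a graph with pins, read on the core vertices.
-/

namespace Pool.Agent.Lib.MP_0d8e88_lc

open Set

/-- Betweenness of reals. -/
def RB (a w b : ℝ) : Prop := (a < w ∧ w < b) ∨ (b < w ∧ w < a)

/-- At most one of four propositions fails. -/
def Most (p q r s : Prop) : Prop := (p ∨ q) ∧ (p ∨ r) ∧ (p ∨ s) ∧ (q ∨ r) ∧ (q ∨ s) ∧ (r ∨ s)

/-- Increasing, up to the order of the two middle terms. -/
def Mono6 (a b c d e f : ℝ) : Prop := a < b ∧ b < c ∧ b < d ∧ c < e ∧ d < e ∧ e < f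

theorem six_lt {a b c d e f : ℝ} (h15 : Most (RB a b e) (RB a c e) (RB a d e) (RB a f e))
    (h16 : Most (RB a b f) (RB a c f) (RB a d f) (RB a e f))
    (h26 : Most (RB b a f) (RB b c f) (RB b d f) (RB b e f)) (hlt : a < f) :
    Mono6 a b c d e f := by
  have i : ∀ x, RB a x f → a < x ∧ x < f := by
    rintro x (h | h)
    · exact h
    · constructor <;> linarith [h.1, h.2]
  obtain ⟨p1, p2, p3, p4, p5, p6⟩ := h15
  obtain ⟨q1, q2, q3, q4, q5, q6⟩ := h16
  obtain ⟨r1, r2, r3, r4, r5, r6⟩ := h26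
  have hb : a < b ∧ b < f := by
    by_contra n
    have n' : ¬RB a b f := fun x => n (i _ x)
    obtain ⟨c1, c2⟩ := i _ (q1.resolve_left n')
    obtain ⟨d1, d2⟩ := i _ (q2.resolve_left n')
    obtain ⟨e1, e2⟩ := i _ (q3.resolve_left n')
    rcases p3 with (x | x) | (x | x)
    · exact n ⟨x.1, by linarith [x.2]⟩
    all_goals linarith [x.1, x.2]
  have he : a < e ∧ e < f := by
    by_contra n
    have n' : ¬RB a e f := fun x => n (i _ x)
    rcases r3 with (x | x) | (x | x)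
    · linarith [x.1, x.2, hb.1]
    · linarith [x.1, x.2]
    · exact n ⟨by linarith [x.1, hb.1], x.2⟩
    · linarith [x.1, x.2, hb.2]
  have n1 : ¬RB a f e := by
    rintro (x | x) <;> linarith [x.1, x.2, he.1, he.2]
  have n2 : ¬RB b a f := by
    rintro (x | x) <;> linarith [x.1, x.2, hb.1, hb.2]
  have j : ∀ x, RB a x e → x < e := by
    rintro x (h | h) <;> linarith [h.1, h.2, he.1]
  have j' : ∀ x, RB b x f → b < x := by
    rintro x (h | h) <;> linarith [h.1, h.2, hb.2]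
  exact ⟨hb.1, j' _ (r1.resolve_left n2), j' _ (r2.resolve_left n2), j _ (p5.resolve_right n1),
    j _ (p6.resolve_right n1), he.2⟩

theorem RB_neg (a w b : ℝ) : RB (-a) (-w) (-b) ↔ RB a w b := by
  simp only [RB, neg_lt_neg_iff]
  tauto

theorem six {a b c d e f : ℝ} (h15 : Most (RB a b e) (RB a c e) (RB a d e) (RB a f e))
    (h16 : Most (RB a b f) (RB a c f) (RB a d f) (RB a e f))
    (h26 : Most (RB b a f) (RB b c f) (RB b d f) (RB b e f)) :
    Mono6 a b c d e f ∨ Mono6 (-a) (-b) (-c) (-d) (-e) (-f) := by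
  rcases lt_trichotomy a f with h | h | h
  · exact Or.inl (six_lt h15 h16 h26 h)
  · exfalso
    rcases h16.1 with (x | x) | (x | x) <;> linarith [x.1, x.2]
  · right
    refine six_lt ?_ ?_ ?_ (neg_lt_neg h) <;> simpa only [RB_neg]

variable {C Z ι : Type}

/-- The vertex set made of the core and the twins. -/
def tS (S : Set C) (Y : Set Z) : Set (C ⊕ Z) := {x | Sum.elim (· ∈ S) (· ∈ Y) x}

/-- The adjacency relation of the core with twins attached. -/
def tA (A : C → C → Prop) (T : Z → List C) : C ⊕ Z → C ⊕ Z → Prop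
  | .inl u, .inl v => A u v
  | .inl u, .inr y => u ∈ T y
  | .inr y, .inl v => v ∈ T y
  | .inr _, .inr _ => False

theorem tS_finite {S : Set C} {Y : Set Z} (hS : S.Finite) (hY : Y.Finite) : (tS S Y).Finite := by
  refine ((hS.image Sum.inl).union (hY.image Sum.inr)).subset ?_
  rintro (u | y) h
  · exact Or.inl ⟨u, h, rfl⟩
  · exact Or.inr ⟨y, h, rfl⟩

/-- What is used of a representation. -/
structure Good (S : Set C) (A : C → C → Prop) (I : Set ι) (P : ι → List C) (h l r : C → ℝ)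
    (τ : ι → ℝ) : Prop where
  edge : ∀ u ∈ S, ∀ v ∈ S, u ≠ v → A u v → ∃ t, Al l r u t ∧ Al l r v t ∧
    ∀ a ∈ S, ∀ b ∈ S, ∀ c ∈ S, Al l r a t → Al l r b t → Al l r c t → h a < h b → h b < h c →
      Btw h u a v → Btw h u c v → False
  mem : ∀ p ∈ I, ∀ v ∈ P p, Al l r v (τ p)
  out : ∀ p ∈ I, ∀ w ∈ S, w ∉ P p → ∀ a ∈ P p, ∀ b ∈ P p, h a < h w → h w < h b →
    ¬Al l r w (τ p)
  ord : ∀ p ∈ I, ∀ a b c d e f, P p = [a, b, c, d, e, f] → ¬A a e → ¬A a f → ¬A b f →
    Mono6 (h a) (h b) (h c) (h d) (h e) (h f) ∨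
      Mono6 (-h a) (-h b) (-h c) (-h d) (-h e) (-h f)

variable {S : Set C} {A : C → C → Prop} {I : Set ι} {P : ι → List C} {h l r : C → ℝ} {τ : ι → ℝ}

theorem Good.flipH (G : Good S A I P h l r τ) : Good S A I P (fun v => -h v) l r τ := by
  have hb : ∀ u w v, Btw (fun v => -h v) u w v ↔ Btw h u w v := fun u w v => RB_neg _ _ _
  refine ⟨fun u hu v hv n a => ?_, G.mem, fun p hp w hw n a ha b hb x y => ?_,
    fun p hp a b c d e f x n1 n2 n3 => ?_⟩
  · obtain ⟨t, t1, t2, t3⟩ := G.edge u hu v hv n a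
    exact ⟨t, t1, t2, fun a ha b hb' c hc a1 b1 c1 x y z w =>
      t3 c hc b hb' a ha c1 b1 a1 (neg_lt_neg_iff.1 y) (neg_lt_neg_iff.1 x) ((hb _ _ _).1 w)
        ((hb _ _ _).1 z)⟩
  · exact G.out p hp w hw n b hb a ha (neg_lt_neg_iff.1 y) (neg_lt_neg_iff.1 x)
  · simpa only [neg_neg] using (G.ord p hp a b c d e f x n1 n2 n3).symm

theorem Good.flipT (G : Good S A I P h l r τ) :
    Good S A I P h (fun v => -r v) (fun v => -l v) (fun p => -τ p) := by
  have ha : ∀ v t, Al (fun v => -r v) (fun v => -l v) v (-t) ↔ Al l r v t := by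
    intro v t
    simp only [Al, neg_le_neg_iff]
    tauto
  refine ⟨fun u hu v hv n a => ?_, fun p hp v hv => (ha _ _).2 (G.mem p hp v hv),
    fun p hp w hw n a ha' b hb x y z => G.out p hp w hw n a ha' b hb x y ((ha _ _).1 z), G.ord⟩
  obtain ⟨t, t1, t2, t3⟩ := G.edge u hu v hv n a
  exact ⟨-t, (ha _ _).2 t1, (ha _ _).2 t2, fun a h1 b h2 c h3 a1 b1 c1 =>
    t3 a h1 b h2 c h3 ((ha _ _).1 a1) ((ha _ _).1 b1) ((ha _ _).1 c1)⟩

theorem most_of_ncard {α : Type} {s : Set α} {a b c d : α} (hs : s ⊆ {a, b, c, d})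
    (h : 2 < s.ncard) : Most (a ∈ s) (b ∈ s) (c ∈ s) (d ∈ s) := by
  have key : ∀ x y : α, ¬s ⊆ {x, y} := fun x y e => by
    have h1 := ncard_le_ncard e (toFinite _)
    have h2 := ncard_insert_le x ({y} : Set α)
    rw [ncard_singleton] at h2
    omega
  refine ⟨?_, ?_, ?_, ?_, ?_, ?_⟩ <;> by_contra n <;> rw [not_or] at n
  · exact key c d fun x hx => by
      rcases hs hx with rfl | rfl | rfl | rfl <;> simp_all
  · exact key b d fun x hx => by
      rcases hs hx with rfl | rfl | rfl | rfl <;> simp_all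
  · exact key b c fun x hx => by
      rcases hs hx with rfl | rfl | rfl | rfl <;> simp_all
  · exact key a d fun x hx => by
      rcases hs hx with rfl | rfl | rfl | rfl <;> simp_all
  · exact key a c fun x hx => by
      rcases hs hx with rfl | rfl | rfl | rfl <;> simp_all
  · exact key a b fun x hx => by
      rcases hs hx with rfl | rfl | rfl | rfl <;> simp_all

theorem Most.imp {p q r s p' q' r' s' : Prop} (h : Most p q r s) (a : p → p') (b : q → q')
    (c : r → r') (d : s → s') : Most p' q' r' s' :=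
  ⟨h.1.imp a b, h.2.1.imp a c, h.2.2.1.imp a d, h.2.2.2.1.imp b c, h.2.2.2.2.1.imp b d,
    h.2.2.2.2.2.imp c d⟩

theorem good_of_rep (hS : S.Finite) (hI : I.Finite)
    (hP : ∀ p ∈ I, (P p).Nodup ∧ (P p).length = 6 ∧ ∀ v ∈ P p, v ∈ S)
    {h l r : C ⊕ (ι × ℕ) → ℝ}
    (H : RepOn 2 (tS S {y | y.1 ∈ I ∧ y.2 < 7}) (tA A (fun y => P y.1)) h l r) :
    ∃ τ, Good S A I P (h ∘ Sum.inl) (l ∘ Sum.inl) (r ∘ Sum.inl) τ := by
  classical
  have hfin : (tS S {y : ι × ℕ | y.1 ∈ I ∧ y.2 < 7}).Finite :=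
    tS_finite hS (hI.prod (finite_lt_nat 7))
  have tw : ∀ p ∈ I, Twins 2 (tS S {y | y.1 ∈ I ∧ y.2 < 7}) (tA A (fun y => P y.1))
      (Sum.inl '' {v | v ∈ P p}) ((fun i => Sum.inr (p, i)) '' Iio 7) := by
    intro p hp
    refine ⟨?_, ?_, ?_, ?_, ?_, ?_⟩
    · rintro _ ⟨v, hv, rfl⟩
      exact (hP p hp).2.2 v hv
    · rintro _ ⟨i, hi, rfl⟩
      exact ⟨hp, hi⟩
    · rw [ncard_image_of_injective _ Sum.inl_injective, ← List.coe_toFinset, ncard_coe_finset,
        List.toFinset_card_of_nodup (hP p hp).1, (hP p hp).2.1]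
    · rw [ncard_image_of_injective _ (fun a b e => by simpa using e)]
      simp
    · rintro _ ⟨i, -, rfl⟩
      simp
    · rintro _ ⟨i, -, rfl⟩ (v | v) - - <;> simp [tA]
  have pin := fun p hp => (tw p hp).pin H hfin
  choose! τ t1 t2 using pin
  refine ⟨τ, fun u hu v hv n a => ?_, fun p hp v hv => t1 p hp _ ⟨v, hv, rfl⟩,
    fun p hp w hw n a ha b hb => t2 p hp (.inl w) hw (by simpa using n) _ ⟨a, ha, rfl⟩ _
      ⟨b, hb, rfl⟩, fun p hp a b c d e f x n1 n2 n3 => ?_⟩
  · obtain ⟨t, a1, a2, a3⟩ := (H.adj (.inl u) hu (.inl v) hv (by simpa using n)).1 a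
    refine ⟨t, a1, a2, fun a ha b hb c hc b1 b2 b3 x y z w => ?_⟩
    have : 2 < {w | w ∈ tS S {y : ι × ℕ | y.1 ∈ I ∧ y.2 < 7} ∧ Al l r w t ∧
        Btw h (.inl u) w (.inl v)}.ncard := by
      rw [two_lt_ncard (hfin.subset fun _ a => a.1)]
      refine ⟨.inl a, ⟨ha, b1, z⟩, .inl b, ⟨hb, b2, ?_⟩, .inl c, ⟨hc, b3, w⟩, ?_, ?_, ?_⟩
      · simp only [Btw, Function.comp] at x y z w ⊢
        rcases z with z | z <;> rcases w with w | w
        · exact Or.inl ⟨by linarith [z.1], by linarith [w.2]⟩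
        · linarith [z.1, z.2, w.1, w.2]
        · linarith [z.1, z.2, w.1, w.2]
        · exact Or.inr ⟨by linarith [z.1], by linarith [w.2]⟩
      · intro e
        exact x.ne (congrArg h e)
      · intro e
        exact (x.trans y).ne (congrArg h e)
      · intro e
        exact y.ne (congrArg h e)
    omega
  · have nd := (hP p hp).1
    have sub := (hP p hp).2.2
    have gen : ∀ u v w1 w2 w3 w4, (∀ z, z ∈ P p ↔ z ∈ [u, v, w1, w2, w3, w4]) → u ≠ v → ¬A u v →
        Most (RB (h (.inl u)) (h (.inl w1)) (h (.inl v))) (RB (h (.inl u)) (h (.inl w2)) (h (.inl v)))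
          (RB (h (.inl u)) (h (.inl w3)) (h (.inl v)))
          (RB (h (.inl u)) (h (.inl w4)) (h (.inl v))) := by
      intro u v w1 w2 w3 w4 hz n na
      have mu : u ∈ P p := by simp [hz]
      have mv : v ∈ P p := by simp [hz]
      have c : 2 < {w | w ∈ tS S {y : ι × ℕ | y.1 ∈ I ∧ y.2 < 7} ∧ Al l r w (τ p) ∧
          Btw h (.inl u) w (.inl v)}.ncard := by
        by_contra c
        exact na ((H.adj (.inl u) (sub u mu) (.inl v) (sub v mv) (by simpa using n)).2
          ⟨τ p, t1 p hp _ ⟨u, mu, rfl⟩, t1 p hp _ ⟨v, mv, rfl⟩, not_lt.1 c⟩)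
      refine (most_of_ncard (a := .inl w1) (b := .inl w2) (c := .inl w3) (d := .inl w4) ?_ c).imp
        (fun a => And.right (And.right a)) (fun a => And.right (And.right a))
        (fun a => And.right (And.right a)) (fun a => And.right (And.right a))
      rintro w ⟨w1, w2, w3⟩
      have : w ∈ (Sum.inl '' {v | v ∈ P p} : Set (C ⊕ (ι × ℕ))) := by
        by_contra n
        rcases w3 with w3 | w3
        · exact t2 p hp w w1 n _ ⟨u, mu, rfl⟩ _ ⟨v, mv, rfl⟩ w3.1 w3.2 w2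
        · exact t2 p hp w w1 n _ ⟨v, mv, rfl⟩ _ ⟨u, mu, rfl⟩ w3.1 w3.2 w2
      obtain ⟨z, z1, rfl⟩ := this
      have z2 := (hz z).1 z1
      simp only [List.mem_cons, List.not_mem_nil, or_false] at z2
      rcases z2 with rfl | rfl | z2
      · rcases w3 with w3 | w3 <;> linarith [w3.1, w3.2]
      · rcases w3 with w3 | w3 <;> linarith [w3.1, w3.2]
      · simpa using z2
    rw [x] at nd
    simp only [List.nodup_cons, List.mem_cons, not_or] at nd
    refine six (gen a e b c d f ?_ ?_ n1) (gen a f b c d e ?_ ?_ n2) (gen b f a c d e ?_ ?_ n3)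
    · simp only [x, List.mem_cons]
      tauto
    · tauto
    · simp only [x, List.mem_cons]
      tauto
    · tauto
    · simp only [x, List.mem_cons]
      tauto
    · tauto

end Pool.Agent.Lib.MP_0d8e88_lc
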