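import Pool.Agent.Lib.MP_0d8e88_lc.Check1
import Pool.Agent.Lib.MP_0d8e88_lc.Check2

/-!
What the finite checks say.
-/

namespace Pool.Agent.Lib.MP_0d8e88_lc

/-- The levels `a` and `b` of a window see each other at the local time `(m, p)`. -/
def VisL (t m p a b : ℕ) : Prop := aL t m p a = true ∧ aL t m p b = true ∧
  ¬∃ x y z, a < x ∧ x < y ∧ y < z ∧ z < b ∧ aL t m p x = true ∧ aL t m p y = true ∧
    aL t m p z = true

theorem alE_iff (b d m : ℕ) (f : Bool) : alE b d m f = true ↔
    0 < d ∧ (b = 0 ∨ b < m ∨ (b = m ∧ f = true)) ∧ ¬(d < m ∨ (d = m ∧ f = true)) := by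
  simp only [alE, Bool.and_eq_true, Bool.or_eq_true, Nat.blt_eq, Nat.beq_eq, Bool.not_eq_true',
    ← Bool.not_eq_true, and_assoc, or_assoc]

theorem mem_edges : ∀ (L : List ℕ), L.Pairwise (· < ·) → ∀ a ∈ L, ∀ b ∈ L, a < b →
    (¬∃ x ∈ L, ∃ y ∈ L, ∃ z ∈ L, a < x ∧ x < y ∧ y < z ∧ z < b) → (a, b) ∈ edges L := by
  intro L
  induction L with
  | nil => simp
  | cons c r ih =>
    intro hp a ha b hb hab hn
    rw [List.pairwise_cons] at hp
    rw [edges, List.mem_append]
    have hb' : b ∈ r := by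
      rcases List.mem_cons.1 hb with rfl | h
      · rcases List.mem_cons.1 ha with rfl | h
        · omega
        · have := hp.1 a h
          omega
      · exact h
    rcases List.mem_cons.1 ha with rfl | h
    · left
      refine List.mem_map.2 ⟨b, ?_, rfl⟩
      match r, hp, hb', hn with
      | [x], _, hb', _ => simpa using hb'
      | [x, y], _, hb', _ => simpa using hb'
      | x :: y :: z :: w, hp, hb', hn =>
        by_contra c
        simp only [List.take_succ_cons, List.take_zero, List.mem_cons, List.not_mem_nil, or_false,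
          not_or] at c
        have hw : b ∈ w := by simpa [c.1, c.2.1, c.2.2] using hb'
        simp only [List.pairwise_cons, List.forall_mem_cons] at hp
        exact hn ⟨x, by simp, y, by simp, z, by simp, hp.1.1, hp.2.1.1, hp.2.2.1.1,
          hp.2.2.2.1 b hw⟩
    · right
      refine ih hp.2 a h b hb' hab ?_
      rintro ⟨x, x1, y, y1, z, z1, e⟩
      exact hn ⟨x, List.mem_cons_of_mem _ x1, y, List.mem_cons_of_mem _ y1, z,
        List.mem_cons_of_mem _ z1, e⟩

theorem exists_ev (t m : ℕ) : ∀ p, ∃ p' ≤ p, ev t m p' = true ∧ aL t m p = aL t m p' := by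
  intro p
  induction p with
  | zero => exact ⟨0, le_rfl, rfl, rfl⟩
  | succ p ih =>
    by_cases h : ev t m (p + 1) = true
    · exact ⟨p + 1, le_rfl, h, rfl⟩
    · obtain ⟨p', h1, h2, h3⟩ := ih
      refine ⟨p', by omega, h2, ?_⟩
      rw [← h3]
      funext l
      simp only [ev, Bool.or_eq_true, Nat.beq_eq, Nat.add_sub_cancel, not_or] at h
      rw [Bool.eq_iff_iff]
      simp only [aL, alE_iff, Nat.blt_eq]
      by_cases e : l = p
      · subst e
        omega
      · have : l < p + 1 ↔ l < p := by omega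
        rw [this]

theorem lv_of_vis {k s m p a b : ℕ} (hk : k ∈ kinds) (hs : s < nst k) (hm : m < 14) (hp : p ≤ 54)
    (ha : a < 49) (hab : a < b) (hb : b < 54) (h : VisL (tab k s) m p a b) : LV k a b = true := by
  have c := check1_ok k hk s hs
  simp only [check1, force_eq, List.all_eq_true, List.mem_range, Bool.or_eq_true,
    Bool.not_eq_true', Nat.ble_eq] at c
  obtain ⟨p', h1, h2, h3⟩ := exists_ev (tab k s) m p
  rw [VisL, h3] at h
  have m1 : ∀ x, x ∈ col (tab k s) m p' ↔ x < 54 ∧ aL (tab k s) m p' x = true := by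
    simp [col]
  have := (c m hm p' (by omega)).resolve_left (by simp [h2]) (a, b)
    (mem_edges _ (List.Pairwise.filter _ List.pairwise_lt_range) a
      ((m1 a).2 ⟨by omega, h.1⟩) b ((m1 b).2 ⟨hb, h.2.1⟩) hab (by
        rintro ⟨x, x1, y, y1, z, z1, e1, e2, e3, e4⟩
        exact h.2.2 ⟨x, y, z, e1, e2, e3, e4, ((m1 x).1 x1).2, ((m1 y).1 y1).2, ((m1 z).1 z1).2⟩))
  exact this.resolve_left (by simpa using ha)

theorem vis_of_visB {t m p a b : ℕ} (h : visB t m p a b = true) : VisL t m p a b := by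
  simp only [visB, Bool.and_eq_true, decide_eq_true_eq] at h
  refine ⟨h.1.1, h.1.2, ?_⟩
  rintro ⟨x, y, z, e1, e2, e3, e4, x1, y1, z1⟩
  have s : [x, y, z] ⊆ (List.range' (a + 1) (b - a - 1)).filter (aL t m p) := by
    intro w hw
    simp only [List.mem_cons, List.not_mem_nil, or_false] at hw
    rw [List.mem_filter, List.mem_range'_1]
    rcases hw with rfl | rfl | rfl
    · exact ⟨by omega, x1⟩
    · exact ⟨by omega, y1⟩
    · exact ⟨by omega, z1⟩
  have n : [x, y, z].Nodup := by
    simp only [List.nodup_cons, List.mem_cons, List.not_mem_nil, or_false, not_or]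
    exact ⟨⟨by omega, by omega⟩, by omega, not_false, List.nodup_nil⟩
  have := (List.subperm_of_subset n s).length_le
  have h2 := h.2
  rw [List.countP_eq_length_filter] at h2
  simp only [List.length_cons, List.length_nil] at this
  omega

theorem vis_of_good {k s a b : ℕ} (h : good k s a b = true) :
    ∃ m < 14, ∃ p, 1 ≤ p ∧ p ≤ 54 ∧ VisL (tab k s) m p a b := by
  simp only [good, goodT, List.any_eq_true, Bool.and_eq_true, decide_eq_true_eq] at h
  obtain ⟨w, -, ⟨⟨h1, h2⟩, h3⟩, h4⟩ := h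
  exact ⟨w.1, h2, w.2, h3, h4, vis_of_visB h1⟩

theorem lv_cases {k s a b : ℕ} (hk : k ∈ kinds) (hs : s < nst k) (ha : a < 49) (hb : b < 54)
    (h : LV k a b = true) : good k s a b = true ∨ exc k s a b = true := by
  have c := check2_ok k hk s hs
  simp only [check2, force_eq, List.all_eq_true, List.mem_range, Bool.or_eq_true,
    Bool.not_eq_true'] at c
  rcases c a ha b hb with (c | c) | c
  · rw [LV, c] at h
    exact absurd h (by simp)
  · exact Or.inl c
  · exact Or.inr c

theorem pin_ok {k s : ℕ} (hk : k ∈ kinds) (hs : s < nst k) {T : List ℕ} (hT : T ∈ pins k) :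
    ∃ m < 14, ∃ a b c d e f, T = [a, b, c, d, e, f] ∧
      (a < b ∧ b < c ∧ c < d ∧ d < e ∧ e < f ∧ f < 54) ∧ (∀ l ∈ T, aL (tab k s) m 54 l = true) ∧
      ∀ l, a < l → l < f → aL (tab k s) m 54 l = true → l ∈ T := by
  have c := check3_ok k hk s hs
  simp only [check3, force_eq, List.all_eq_true, List.any_eq_true] at c
  obtain ⟨m, m1, m2⟩ := c T hT
  refine ⟨m, by simp at m1; omega, ?_⟩
  unfold pinB at m2
  split at m2
  · rename_i a b c d e f
    simp only [Bool.and_eq_true, decide_eq_true_eq, List.all_eq_true, Bool.or_eq_true,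
      Bool.not_eq_true', List.mem_range'_1, List.contains_iff_mem] at m2
    obtain ⟨⟨⟨⟨⟨⟨⟨h1, h2⟩, h3⟩, h4⟩, h5⟩, h6⟩, h7⟩, h8⟩ := m2
    refine ⟨a, b, c, d, e, f, rfl, ⟨h1, h2, h3, h4, h5, h6⟩, h7, fun l l1 l2 l3 => ?_⟩
    have := (h8 l ⟨by omega, by omega⟩).resolve_left (by simp [l3])
    simp only [List.mem_cons] at this ⊢
    tauto
  · exact absurd m2 (by simp)

end Pool.Agent.Lib.MP_0d8e88_lc
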