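import Pool.Agent.Lib.MP_0d8e88_lc.Constr

/-!
In every representation the heights are ordered as intended, and the wires alternate.
-/

namespace Pool.Agent.Lib.MP_0d8e88_lc

open Pool.Agent.Shared.PolyTime

/-- The levels whose order is forced in a cell of kind `k`. -/
def ordL (k : ℕ) : List ℕ := (col (tab k 0) 6 54).filter fun x => 4 ≤ x && x ≤ 50

def nadj (k a b : ℕ) : Bool :=
  a < 49 && a < b && (!isLong (a % 49) || !isLong (b % 49)) && !LV k a b

def step (k : ℕ) (F : List (ℕ × ℕ)) : List ℕ → List (ℕ × ℕ)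
  | [a, b, c, d, e, f] =>
    if nadj k a e && nadj k a f && nadj k b f && (F.contains (b, c) || F.contains (d, e)) then
      [(a, b), (b, c), (b, d), (c, e), (d, e), (e, f)] ++ F else F
  | _ => F

def derive (k : ℕ) (F : List (ℕ × ℕ)) : List (ℕ × ℕ) :=
  (dords.getD k []).foldl (fun F p => step k F (pin k p)) F

theorem ord_ok : ∀ k ∈ wires,
    (ordL k).IsChain (fun a b => a < b ∧ (a, b) ∈ derive k [(2, 3), (51, 52)]) ∧
      (1, 2) ∈ derive k [(2, 3), (51, 52)] ∧ (52, 53) ∈ derive k [(2, 3), (51, 52)] := by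
  decide +kernel

theorem ord_14 : (51, 52) ∈ derive 14 [(2, 3)] := by decide +kernel

/-- The level `x` lies inside the range of the pin `p` without belonging to it. -/
def inr (k p x : ℕ) : Bool := !(pin k p).contains x && (ordL k).contains x &&
  (pin k p).any (fun a => (ordL k).contains a && a < x) &&
  (pin k p).any (fun a => (ordL k).contains a && x < a)

def nb (k : ℕ) : ℕ := (brks.getD k []).length

def brk (k i : ℕ) : ℕ := (brks.getD k []).getD i 0

set_option synthInstance.maxSize 2000 in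
theorem zig_ok : ∀ k ∈ wires, (nb k % 2 = 0 ∧ 4 ≤ nb k ∧
    ∀ i < nb k - 2, brk k (i + 1) ∈ pin k i ∧ brk k (i + 1) ∈ pin k (i + 2) ∧
      inr k (i + 1) (brk k (i + 1)) = true) ∧
    (50 ∈ pin k (nb k - 2) ∧ 50 ∉ pin k (nb k - 1) ∧ 49 ∈ pin k (nb k - 1) ∧
      51 ∈ pin k (nb k - 1) ∧ 53 ∈ pin k (nb k - 1) ∧ 49 ∈ ordL k ∧ 50 ∈ ordL k) ∧
    (1 ∈ pin k 0 ∧ 4 ∉ pin k 0 ∧ 3 ∈ pin k 0 ∧ 4 ∈ pin k 1 ∧ 4 ∈ ordL k ∧
      ∃ b ∈ pin k 0, b ∈ ordL k ∧ 4 < b) := by decide +kernel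

variable {ψ : List (Clause3 ℕ)} {h lf rt : ℕ × ℕ → ℝ} {τ : ℕ × ℕ × ℕ → ℝ}

theorem lt_of_pin_ne {k p : ℕ} (hp : pin k p ≠ []) : p < (pins k).length := by
  by_contra c
  exact hp (List.getD_eq_default _ _ (not_lt.1 c))

theorem memP (G : Good (coreS ψ) (adjC ψ) (pinI ψ) (pinP ψ) h lf rt τ) {r s k p x : ℕ}
    (hr : r < ψ.length) (hs : s < nv ψ + 5) (hk : kind ψ r s = k) (hx : x ∈ pin k p) :
    Al lf rt (cv r s x) (τ (r, s, p)) := by
  subst hk
  exact G.mem (r, s, p) ⟨hr, hs, lt_of_pin_ne (List.ne_nil_of_mem hx)⟩ _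
    (List.mem_map.2 ⟨x, hx, rfl⟩)

theorem outP (G : Good (coreS ψ) (adjC ψ) (pinI ψ) (pinP ψ) h lf rt τ) {r s k p : ℕ}
    (hr : r < ψ.length) (hs : s < nv ψ + 5) (hk : kind ψ r s = k) {s' x a b : ℕ}
    (hc : isCore ψ (cv r s' x) = true) (hx : x ∉ pin k p) (ha : a ∈ pin k p) (hb : b ∈ pin k p)
    (h1 : h (cv r s a) < h (cv r s' x)) (h2 : h (cv r s' x) < h (cv r s b)) :
    ¬Al lf rt (cv r s' x) (τ (r, s, p)) := by
  subst hk
  refine G.out (r, s, p) ⟨hr, hs, lt_of_pin_ne (List.ne_nil_of_mem ha)⟩ _ hc ?_ _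
    (List.mem_map.2 ⟨a, ha, rfl⟩) _ (List.mem_map.2 ⟨b, hb, rfl⟩) h1 h2
  intro c
  obtain ⟨y, y1, y2⟩ := List.mem_map.1 c
  have := congrArg Prod.fst y2
  simp only [cv, vx] at this
  exact hx ((show y = x by omega) ▸ y1)

theorem stOK_zero : StOK ψ (fun _ _ => 0) :=
  ⟨fun r s => by unfold nst; split_ifs <;> simp, fun _ _ _ _ => rfl⟩

theorem core_ord (hS : Sorted ψ) {r s k x : ℕ} (hr : r < ψ.length) (hs : s < nv ψ + 5)
    (hk : kind ψ r s = k) (hx : x ∈ ordL k) : isCore ψ (cv r s x) = true := by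
  subst hk
  simp only [ordL, col, List.mem_filter, List.mem_range, Bool.and_eq_true,
    decide_eq_true_eq] at hx
  refine ((alive_win hS stOK_zero (r := r) (m := 6) (p := HT ψ - 1) hx.1.1 (by omega) hs (by omega)
    (by unfold HT; omega)).2 ?_).1
  rw [show min 54 (HT ψ - 1 + 1 - 49 * r) = 54 by unfold HT; omega]
  exact hx.1.2

theorem nadj_sound {r s a b : ℕ} (hn : nadj (kind ψ r s) a b = true) :
    ¬adjC ψ (cv r s a) (cv r s b) := by
  simp only [nadj, Bool.and_eq_true, decide_eq_true_eq, Bool.or_eq_true, Bool.not_eq_true'] at hn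
  obtain ⟨⟨⟨h1, h2⟩, h3⟩, h4⟩ := hn
  rintro (⟨-, -, s', -, e1, e2, e3⟩ | ⟨c, -⟩)
  · have e : s = s' := by
      simp only [cv, vx, Prod.mk.injEq, true_and, show (49 * r + a) % 49 = a % 49 by omega,
        show (49 * r + b) % 49 = b % 49 by omega] at e1 e2
      rcases h3 with h3 | h3
      · simpa [h3] using e1
      · simpa [h3] using e2
    subst e
    simp only [cv, vx, show (49 * r + a) / 49 = r by omega, show (49 * r + a) % 49 = a by omega,
      Nat.add_sub_cancel_left, h4] at e3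
    exact absurd e3 (by simp)
  · simp only [cv, vx] at c
    omega

theorem step_sound (G : Good (coreS ψ) (adjC ψ) (pinI ψ) (pinP ψ) h lf rt τ) {r s : ℕ}
    (hr : r < ψ.length) (hs : s < nv ψ + 5) (F : List (ℕ × ℕ)) (p : ℕ)
    (hF : ∀ q ∈ F, h (cv r s q.1) < h (cv r s q.2)) :
    ∀ q ∈ step (kind ψ r s) F (pin (kind ψ r s) p), h (cv r s q.1) < h (cv r s q.2) := by
  generalize hT : pin (kind ψ r s) p = T
  unfold step
  split
  · rename_i a b c d e f
    split_ifs with t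
    · simp only [Bool.and_eq_true, Bool.or_eq_true, List.contains_iff_mem] at t
      have m := G.ord (r, s, p) ⟨hr, hs, lt_of_pin_ne (by simp [hT])⟩ (cv r s a) (cv r s b)
        (cv r s c) (cv r s d) (cv r s e) (cv r s f) (by simp [pinP, hT]) (nadj_sound t.1.1.1)
        (nadj_sound t.1.1.2) (nadj_sound t.1.2)
      have m' : Mono6 (h (cv r s a)) (h (cv r s b)) (h (cv r s c)) (h (cv r s d)) (h (cv r s e))
          (h (cv r s f)) := by
        refine m.resolve_right fun x => ?_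
        rcases t.2 with y | y
        · linarith [hF _ y, x.2.1]
        · linarith [hF _ y, x.2.2.2.2.1]
      simp only [List.forall_mem_append, List.forall_mem_cons]
      exact ⟨⟨m'.1, m'.2.1, m'.2.2.1, m'.2.2.2.1, m'.2.2.2.2.1, m'.2.2.2.2.2, by simp⟩, hF⟩
    · exact hF
  · exact hF

theorem derive_sound (G : Good (coreS ψ) (adjC ψ) (pinI ψ) (pinP ψ) h lf rt τ) {r s k : ℕ}
    (hr : r < ψ.length) (hs : s < nv ψ + 5) (hk : kind ψ r s = k) (F : List (ℕ × ℕ))
    (hF : ∀ q ∈ F, h (cv r s q.1) < h (cv r s q.2)) :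
    ∀ q ∈ derive k F, h (cv r s q.1) < h (cv r s q.2) := by
  subst hk
  unfold derive
  generalize dords.getD (kind ψ r s) [] = D
  induction D generalizing F with
  | nil => exact hF
  | cons p D ih => exact ih _ (step_sound G hr hs F p hF)

theorem kind_C (hS : Sorted ψ) (r : ℕ) : kind ψ r (nv ψ + 1) = 14 := by
  have h := row_ok hS r
  have k := kind_spec (ψ := ψ) r (nv ψ + 1)
  omega

theorem kind_D (hS : Sorted ψ) (r : ℕ) : kind ψ r (nv ψ + 3) = 18 := by
  have h := row_ok hS r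
  have k := kind_spec (ψ := ψ) r (nv ψ + 3)
  omega

theorem seeds (hS : Sorted ψ) (G : Good (coreS ψ) (adjC ψ) (pinI ψ) (pinP ψ) h lf rt τ)
    (h0 : h (cv 0 0 2) < h (cv 0 0 3)) :
    ∀ r ≤ ψ.length, ∀ s, h (cv r s 2) < h (cv r s 3) := by
  intro r
  induction r with
  | zero =>
    intro _ s
    rwa [cv_long 0 s 0 (by decide), cv_long 0 s 0 (l := 3) (by decide)]
  | succ r ih =>
    intro hr s
    have := derive_sound G (r := r) (s := nv ψ + 1) hr (by omega) (kind_C hS r) [(2, 3)]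
      (by simpa using ih (by omega) _) _ ord_14
    rw [cv_long _ s (nv ψ + 1) (by decide), cv_long _ s (nv ψ + 1) (l := 3) (by decide),
      ← cv_up, ← cv_up]
    exact this

/-- The order facts of a cell. -/
def Facts (h : ℕ × ℕ → ℝ) (k r s : ℕ) : Prop :=
  (∀ a ∈ ordL k, ∀ b ∈ ordL k, a < b → h (cv r s a) < h (cv r s b)) ∧
    h (cv r s 1) < h (cv r s 2) ∧ h (cv r s 52) < h (cv r s 53)

theorem facts (hS : Sorted ψ) (G : Good (coreS ψ) (adjC ψ) (pinI ψ) (pinP ψ) h lf rt τ)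
    (h0 : h (cv 0 0 2) < h (cv 0 0 3)) {r s k : ℕ} (hr : r < ψ.length) (hs : s < nv ψ + 5)
    (hk : kind ψ r s = k) (hw : k ∈ wires) : Facts h k r s := by
  have d := derive_sound G hr hs hk [(2, 3), (51, 52)] (by
    simp only [List.forall_mem_cons]
    refine ⟨seeds hS G h0 r hr.le s, ?_, by simp⟩
    have := seeds hS G h0 (r + 1) hr s
    rwa [← cv_up, ← cv_up] at this)
  obtain ⟨o1, o2, o3⟩ := ord_ok k hw
  refine ⟨?_, d _ o2, d _ o3⟩
  have c : (ordL k).IsChain (fun a b => a < b ∧ h (cv r s a) < h (cv r s b)) :=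
    o1.imp fun a b x => ⟨x.1, d _ x.2⟩
  have tr : Trans (fun a b => a < b ∧ h (cv r s a) < h (cv r s b))
      (fun a b => a < b ∧ h (cv r s a) < h (cv r s b))
      (fun a b => a < b ∧ h (cv r s a) < h (cv r s b)) :=
    ⟨fun x y => ⟨x.1.trans y.1, x.2.trans y.2⟩⟩
  have p := List.isChain_iff_pairwise.1 c
  intro a ha b hb
  exact List.Pairwise.forall_of_forall_of_flip
    (R := fun a b => a < b → h (cv r s a) < h (cv r s b)) (fun x _ y => absurd y (by omega))
    (p.imp fun x _ => x.2) (p.imp fun x y => absurd x.1 (by omega)) ha hb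

theorem inr_dead (hS : Sorted ψ) (G : Good (coreS ψ) (adjC ψ) (pinI ψ) (pinP ψ) h lf rt τ)
    {r s k p x : ℕ} (hr : r < ψ.length) (hs : s < nv ψ + 5) (hk : kind ψ r s = k)
    (F : Facts h k r s) (hi : inr k p x = true) : ¬Al lf rt (cv r s x) (τ (r, s, p)) := by
  simp only [inr, Bool.and_eq_true, Bool.not_eq_true', List.any_eq_true, List.contains_iff_mem,
    decide_eq_true_eq, ← Bool.not_eq_true] at hi
  obtain ⟨⟨⟨h1, h2⟩, a, a1, a2, a3⟩, b, b1, b2, b3⟩ := hi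
  exact outP G hr hs hk (core_ord hS hr hs hk h2) h1 a1 b1 (F.1 _ a2 _ h2 a3) (F.1 _ h2 _ b2 b3)

theorem Al.mid {V : Type} {l r : V → ℝ} {v : V} {a b t : ℝ} (h1 : Al l r v a) (h2 : Al l r v b)
    (x : a ≤ t) (y : t ≤ b) : Al l r v t := ⟨h1.1.trans x, y.trans h2.2⟩

theorem Al.side {V : Type} {l r : V → ℝ} {v : V} {a b t : ℝ} (h1 : Al l r v a) (h2 : Al l r v b)
    (n : ¬Al l r v t) : (a < t ↔ b < t) ∧ (t < a ↔ t < b) ∧ (t < a ↔ ¬a < t) := by
  rcases lt_or_ge t (l v) with c | c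
  · have x := c.trans_le h1.1
    have y := c.trans_le h2.1
    simp [x, y, x.not_gt, y.not_gt]
  · have c' : r v < t := not_le.1 fun z => n ⟨c, z⟩
    have x := h1.2.trans_lt c'
    have y := h2.2.trans_lt c'
    simp [x, y, x.not_gt, y.not_gt]

theorem zigzag (hS : Sorted ψ) (G : Good (coreS ψ) (adjC ψ) (pinI ψ) (pinP ψ) h lf rt τ)
    {r s k : ℕ} (hr : r < ψ.length) (hs : s < nv ψ + 5) (hk : kind ψ r s = k) (hw : k ∈ wires)
    (F : Facts h k r s) : ∀ i, i + 1 < nb k →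
      (τ (r, s, i + 1) < τ (r, s, i) ↔ (τ (r, s, 1) < τ (r, s, 0) ↔ i % 2 = 0)) ∧
      (τ (r, s, i) < τ (r, s, i + 1) ↔ ¬τ (r, s, i + 1) < τ (r, s, i)) := by
  obtain ⟨⟨-, z2, z3⟩, -⟩ := zig_ok k hw
  have sd : ∀ i < nb k - 2, _ := fun i hi =>
    Al.side (memP G hr hs hk (z3 i hi).1) (memP G hr hs hk (z3 i hi).2.1)
      (inr_dead hS G hr hs hk F (z3 i hi).2.2)
  intro i
  induction i with
  | zero =>
    intro _
    have := (sd 0 (by omega)).2.2
    simp only [zero_add] at this ⊢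
    exact ⟨by simp, by rw [this, not_not]⟩
  | succ i ih =>
    intro hi
    have a := ih (by omega)
    have b := sd i (by omega)
    have e : (i + 1) % 2 = 0 ↔ ¬i % 2 = 0 := by omega
    refine ⟨?_, ?_⟩
    · rw [e, ← b.1, a.2, a.1, not_iff, not_iff_comm]
      exact iff_comm
    · rw [← b.1, ← b.2.1, b.2.2]

theorem kind_wire (hS : Sorted ψ) (r : ℕ) {s : ℕ} (h1 : 1 ≤ s) (h2 : s ≤ nv ψ) :
    kind ψ r s ∈ wires := by
  have k := kind_cls hS r s
  have : ∀ k ∈ kinds, k ≠ 0 → k ≠ 16 → k ≠ 20 → k ∈ wires := by decide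
  exact this _ (kind_mem r s) (by omega) (by omega) (by omega)

theorem link (hS : Sorted ψ) (G : Good (coreS ψ) (adjC ψ) (pinI ψ) (pinP ψ) h lf rt τ)
    (h0 : h (cv 0 0 2) < h (cv 0 0 3)) {s : ℕ} (h1 : 1 ≤ s) (h2 : s ≤ nv ψ) :
    ∀ r < ψ.length, (τ (r, s, 1) < τ (r, s, 0) ↔ τ (0, s, 1) < τ (0, s, 0)) := by
  intro r
  induction r with
  | zero => exact fun _ => Iff.rfl
  | succ r ih =>
    intro hr'
    have hr : r < ψ.length := by omega
    have hs : s < nv ψ + 5 := by omega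
    rw [← ih hr]
    have w := kind_wire hS r h1 h2
    have w' := kind_wire hS (r + 1) h1 h2
    have F := facts hS G h0 hr hs rfl w
    have F' := facts hS G h0 hr' hs rfl w'
    obtain ⟨⟨z1, z2, -⟩, ⟨y1, y2, y3, y4, y5, y6, y7⟩, -⟩ := zig_ok _ w
    obtain ⟨-, -, x1, x2, x3, x4, x5, b, x6, x7, x8⟩ := zig_ok _ w'
    have z := zigzag hS G hr hs rfl w F (nb (kind ψ r s) - 2) (by omega)
    rw [show nb (kind ψ r s) - 2 + 1 = nb (kind ψ r s) - 1 by omega] at z
    have a1 := memP G hr hs rfl y1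
    have a2 := memP G hr' hs rfl x1
    rw [← cv_up] at a2
    have a3 := outP G hr hs rfl (core_ord hS hr hs rfl y7) y2 y3 y4 (F.1 _ y6 _ y7 (by omega))
      (by have := F'.2.1; rwa [← cv_up, ← cv_up] at this)
    have a := Al.side a1 a2 a3
    have b1 := memP G hr hs rfl y5
    rw [show 53 = 49 + 4 from rfl, cv_up] at b1
    have b2 := memP G hr' hs rfl x4
    have b3 := outP G hr' hs rfl (core_ord hS hr' hs rfl x5) x2 x3 x6
      (by have := F.2.2; rwa [← cv_up, ← cv_up]) (F'.1 _ x5 _ x7 x8)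
    have b := Al.side b1 b2 b3
    have e : (nb (kind ψ r s) - 2) % 2 = 0 := by omega
    simp only [e, iff_true] at z
    rw [← b.1, ← a.2.1, z.1]

end Pool.Agent.Lib.MP_0d8e88_lc
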