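import Pool.Agent.Lib.MP_0d8e88_lc.Rep

/-!
Seven pairwise non-adjacent vertices with the same six neighbours force a moment at which the six
neighbours are alive and consecutive.
-/

namespace Pool.Agent.Lib.MP_0d8e88_lc

open Set

variable {V : Type} {S : Set V} {A : V → V → Prop} {h l r : V → ℝ} {k : ℕ}

theorem RepOn.flip (H : RepOn k S A h l r) : RepOn k S A (fun v => -h v) l r := by
  refine ⟨H.lt, H.dist, fun u hu v hv n t a b e => H.disj u hu v hv n t a b (neg_injective e),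
    fun u hu v hv n => ?_⟩
  rw [H.adj u hu v hv n]
  have : ∀ w, Btw (fun v => -h v) u w v ↔ Btw h u w v := by
    intro w
    simp only [Btw, neg_lt_neg_iff]
    tauto
  simp only [this]

theorem btw_of_lt {u v w : V} (huv : h u < h v) : Btw h u w v ↔ h u < h w ∧ h w < h v := by
  constructor
  · rintro (a | a)
    · exact a
    · linarith [a.1, a.2]
  · exact Or.inl

/-- Looking upwards from `u` one meets `k + 1` neighbours before any non-neighbour. -/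
theorem RepOn.up (H : RepOn k S A h l r) (hS : S.Finite) {u : V} (hu : u ∈ S) {t : ℝ}
    (ht : Al l r u t) : ∀ (m : ℕ) (v : V), v ∈ S → Al l r v t → h u < h v →
      {w | w ∈ S ∧ Al l r w t ∧ h u < h w ∧ h w < h v}.ncard ≤ m →
      A u v ∨ k < {w | w ∈ S ∧ Al l r w t ∧ (h u < h w ∧ h w < h v) ∧ A u w}.ncard := by
  intro m
  induction m using Nat.strong_induction_on with
  | _ m ih =>
    intro v hv hvt huv hm
    have hne : u ≠ v := fun e => by rw [e] at huv; exact lt_irrefl _ huv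
    by_cases hc : {w | w ∈ S ∧ Al l r w t ∧ h u < h w ∧ h w < h v}.ncard ≤ k
    · left
      rw [H.adj u hu v hv hne]
      refine ⟨t, ht, hvt, ?_⟩
      simpa only [btw_of_lt huv] using hc
    · right
      by_cases hall : ∀ w ∈ S, Al l r w t → h u < h w → h w < h v → A u w
      · refine lt_of_lt_of_le (not_le.1 hc) (ncard_le_ncard ?_ (hS.subset fun _ a => a.1))
        exact fun w a => ⟨a.1, a.2.1, a.2.2, hall w a.1 a.2.1 a.2.2.1 a.2.2.2⟩
      · push Not at hall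
        obtain ⟨w, w1, w2, w3, w4, w5⟩ := hall
        have hlt : {x | x ∈ S ∧ Al l r x t ∧ h u < h x ∧ h x < h w}.ncard <
            {x | x ∈ S ∧ Al l r x t ∧ h u < h x ∧ h x < h v}.ncard := by
          refine ncard_lt_ncard ⟨fun x a => ⟨a.1, a.2.1, a.2.2.1, a.2.2.2.trans w4⟩, fun a => ?_⟩
            (hS.subset fun _ a => a.1)
          exact lt_irrefl _ (a ⟨w1, w2, w3, w4⟩).2.2.2
        rcases ih _ (lt_of_lt_of_le hlt hm) w w1 w2 w3 le_rfl with a | a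
        · exact absurd a w5
        · refine lt_of_lt_of_le a (ncard_le_ncard ?_ (hS.subset fun _ a => a.1))
          exact fun x b => ⟨b.1, b.2.1, ⟨b.2.2.1.1, b.2.2.1.2.trans w4⟩, b.2.2.2⟩

theorem RepOn.up' (H : RepOn k S A h l r) (hS : S.Finite) {u v : V} (hu : u ∈ S) (hv : v ∈ S)
    {t : ℝ} (ht : Al l r u t) (hvt : Al l r v t) (huv : h u < h v) (hn : ¬A u v) :
    k < {w | w ∈ S ∧ Al l r w t ∧ (h u < h w ∧ h w < h v) ∧ A u w}.ncard :=
  (H.up hS hu ht _ v hv hvt huv le_rfl).resolve_left hn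

/-- A family of twins of the set `T`. -/
structure Twins (k : ℕ) (S : Set V) (A : V → V → Prop) (T Y : Set V) : Prop where
  sub : T ⊆ S
  subY : Y ⊆ S
  card : T.ncard = 2 * (k + 1)
  cardY : 7 ≤ Y.ncard
  out : ∀ y ∈ Y, y ∉ T
  adj : ∀ y ∈ Y, ∀ v ∈ S, v ≠ y → (A y v ↔ v ∈ T)

theorem Twins.le_three {T Y : Set V} (P : Twins k S A T Y) (H : RepOn k S A h l r)
    (hS : S.Finite) (t : ℝ) : {y | y ∈ Y ∧ Al l r y t}.ncard ≤ 3 := by
  by_contra hc
  have hT : T.Finite := hS.subset P.sub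
  have gap : ∀ a ∈ Y, ∀ b ∈ Y, Al l r a t → Al l r b t → h a < h b →
      k < {w | w ∈ T ∧ h a < h w ∧ h w < h b}.ncard := by
    intro a ha b hb a1 b1 e
    have hne : b ≠ a := fun x => by rw [x] at e; exact lt_irrefl _ e
    refine lt_of_lt_of_le (H.up' hS (P.subY ha) (P.subY hb) a1 b1 e
      (fun x => P.out b hb ((P.adj a ha b (P.subY hb) hne).1 x)))
      (ncard_le_ncard ?_ (hT.subset fun _ a => a.1))
    intro w x
    refine ⟨(P.adj a ha w x.1 ?_).1 x.2.2.2, x.2.2.1⟩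
    rintro rfl
    exact lt_irrefl _ x.2.2.1.1
  set Z := {y | y ∈ Y ∧ Al l r y t} with hZ
  have hZf : Z.Finite := hS.subset fun _ a => P.subY a.1
  have hinj : InjOn h Z := fun a ha b hb e => by
    by_contra n
    exact H.disj a (P.subY ha.1) b (P.subY hb.1) n t ha.2 hb.2 e
  have hcard : (hZf.image h).toFinset.card = Z.ncard := by
    rw [← ncard_eq_toFinset_card _ (hZf.image h), hinj.ncard_image]
  have hm : ∀ i, ∃ y ∈ Z, h y = (hZf.image h).toFinset.orderEmbOfFin hcard i := fun i =>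
    (Finite.mem_toFinset (hZf.image h)).1 (Finset.orderEmbOfFin_mem _ hcard i)
  choose y y1 y2 using hm
  have hy : ∀ i j, i < j → h (y i) < h (y j) := fun i j x => by
    rw [y2, y2]
    exact (Finset.orderEmbOfFin _ hcard).strictMono x
  have a01 := hy ⟨0, by omega⟩ ⟨1, by omega⟩ (by simp)
  have a12 := hy ⟨1, by omega⟩ ⟨2, by omega⟩ (by simp)
  have a23 := hy ⟨2, by omega⟩ ⟨3, by omega⟩ (by simp)
  have g1 := gap _ (y1 _).1 _ (y1 _).1 (y1 _).2 (y1 _).2 a01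
  have g2 := gap _ (y1 _).1 _ (y1 _).1 (y1 _).2 (y1 _).2 a12
  have g3 := gap _ (y1 _).1 _ (y1 _).1 (y1 _).2 (y1 _).2 a23
  generalize h (y ⟨0, _⟩) = c0 at *
  generalize h (y ⟨1, _⟩) = c1 at *
  generalize h (y ⟨2, _⟩) = c2 at *
  generalize h (y ⟨3, _⟩) = c3 at *
  have f : ∀ a b : ℝ, {w | w ∈ T ∧ a < h w ∧ h w < b}.Finite := fun a b => hT.subset fun _ a => a.1
  have d1 : Disjoint {w | w ∈ T ∧ c0 < h w ∧ h w < c1} {w | w ∈ T ∧ c1 < h w ∧ h w < c2} :=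
    Set.disjoint_left.2 fun w a b => by linarith [a.2.2, b.2.1]
  have d2 : Disjoint ({w | w ∈ T ∧ c0 < h w ∧ h w < c1} ∪ {w | w ∈ T ∧ c1 < h w ∧ h w < c2})
      {w | w ∈ T ∧ c2 < h w ∧ h w < c3} :=
    Set.disjoint_left.2 fun w a b => by
      rcases a with a | a <;> linarith [a.2.2, b.2.1]
  have s := ncard_le_ncard (s := ({w | w ∈ T ∧ c0 < h w ∧ h w < c1} ∪
    {w | w ∈ T ∧ c1 < h w ∧ h w < c2}) ∪ {w | w ∈ T ∧ c2 < h w ∧ h w < c3}) (t := T)
    (by rintro w ((a | a) | a) <;> exact a.1) hT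
  rw [ncard_union_eq d2 ((f _ _).union (f _ _)) (f _ _), ncard_union_eq d1 (f _ _) (f _ _),
    P.card] at s
  omega

theorem Twins.step {T Y : Set V} (P : Twins k S A T Y) (H : RepOn k S A h l r)
    (hS : S.Finite) {Z : Set V} (hZ : Z ⊆ Y) (hne : 0 < Z.ncard) :
    ∃ y ∈ Z, Z.ncard ≤ {z | z ∈ Z ∧ r y < l z}.ncard + 3 := by
  have hf : Z.Finite := hS.subset (hZ.trans P.subY)
  obtain ⟨y, y1, y2⟩ := exists_min_image Z r hf (nonempty_of_ncard_ne_zero hne.ne')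
  refine ⟨y, y1, ?_⟩
  have s : Z ⊆ {z | z ∈ Z ∧ r y < l z} ∪ {z | z ∈ Y ∧ Al l r z (r y)} := by
    intro z hz
    by_cases c : r y < l z
    · exact Or.inl ⟨hz, c⟩
    · exact Or.inr ⟨hZ hz, not_lt.1 c, y2 z hz⟩
  have h1 := ncard_le_ncard s ((hf.subset fun _ a => a.1).union
    (hS.subset fun _ a => P.subY a.1))
  have h2 := ncard_union_le {z | z ∈ Z ∧ r y < l z} {z | z ∈ Y ∧ Al l r z (r y)}
  have h3 := P.le_three H hS (r y)
  omega

theorem Twins.half {T Y : Set V} (P : Twins k S A T Y) (H : RepOn k S A h l r)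
    (hS : S.Finite) {y : V} (hy : y ∈ Y) (hal : ∀ a ∈ T, ∀ t, Al l r y t → Al l r a t) :
    {a | a ∈ T ∧ h y < h a}.ncard ≤ k + 1 := by
  have hT : T.Finite := hS.subset P.sub
  have hf : {a | a ∈ T ∧ h y < h a}.Finite := hT.subset fun _ a => a.1
  rcases eq_empty_or_nonempty {a | a ∈ T ∧ h y < h a} with e | e
  · simp [e]
  obtain ⟨a, a1, a2⟩ := exists_max_image _ h hf e
  have hne : a ≠ y := fun x => P.out y hy (x ▸ a1.1)
  obtain ⟨t, t1, t2, t3⟩ := (H.adj y (P.subY hy) a (P.sub a1.1) hne.symm).1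
    ((P.adj y hy a (P.sub a1.1) hne).2 a1.1)
  have s : {a | a ∈ T ∧ h y < h a} ⊆ insert a {w | w ∈ S ∧ Al l r w t ∧ Btw h y w a} := by
    intro w hw
    by_cases c : w = a
    · exact Or.inl c
    · exact Or.inr ⟨P.sub hw.1, hal w hw.1 t t1, Or.inl ⟨hw.2, lt_of_le_of_ne (a2 w hw)
        (H.disj w (P.sub hw.1) a (P.sub a1.1) c t (hal w hw.1 t t1) t2)⟩⟩
  have h1 := ncard_le_ncard s ((hS.subset fun _ a => a.1).insert a)
  have h2 := ncard_insert_le a {w | w ∈ S ∧ Al l r w t ∧ Btw h y w a}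
  omega

theorem Twins.above {T Y : Set V} (P : Twins k S A T Y) (H : RepOn k S A h l r)
    (hS : S.Finite) {y : V} (hy : y ∈ Y) (hal : ∀ a ∈ T, ∀ t, Al l r y t → Al l r a t)
    {t : ℝ} (ht : Al l r y t) {w : V} (hw : w ∈ S) (hwT : w ∉ T) (hwt : Al l r w t)
    (hyw : h y < h w) {b : V} (hb : b ∈ T) : ¬h w < h b := by
  intro hlt
  have hT : T.Finite := hS.subset P.sub
  have hne : w ≠ y := fun x => by rw [x] at hyw; exact lt_irrefl _ hyw
  have h1 := H.up' hS (P.subY hy) hw ht hwt hyw (fun x => hwT ((P.adj y hy w hw hne).1 x))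
  have h2 := P.half H hS hy hal
  have h3 : {x | x ∈ S ∧ Al l r x t ∧ (h y < h x ∧ h x < h w) ∧ A y x}.ncard <
      {a | a ∈ T ∧ h y < h a}.ncard := by
    refine ncard_lt_ncard ⟨fun x a => ⟨(P.adj y hy x a.1 ?_).1 a.2.2.2, a.2.2.1.1⟩, fun a => ?_⟩
      (hT.subset fun _ a => a.1)
    · rintro rfl
      exact lt_irrefl _ a.2.2.1.1
    · exact lt_asymm hlt (a ⟨hb, hyw.trans hlt⟩).2.2.1.2
  omega

/-- The pin lemma. -/
theorem Twins.pin {T Y : Set V} (P : Twins k S A T Y) (H : RepOn k S A h l r)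
    (hS : S.Finite) : ∃ τ, (∀ a ∈ T, Al l r a τ) ∧
      ∀ w ∈ S, w ∉ T → ∀ a ∈ T, ∀ b ∈ T, h a < h w → h w < h b → ¬Al l r w τ := by
  have c7 := P.cardY
  obtain ⟨y1, m1, c1⟩ := P.step H hS (subset_refl Y) (by omega)
  obtain ⟨y2, m2, c2⟩ := P.step H hS (Z := {z | z ∈ Y ∧ r y1 < l z}) (fun _ a => a.1) (by omega)
  obtain ⟨y3, m3⟩ := nonempty_of_ncard_ne_zero
    (s := {z | z ∈ {z | z ∈ Y ∧ r y1 < l z} ∧ r y2 < l z}) (by omega)
  have meet : ∀ y ∈ Y, ∀ a ∈ T, l a ≤ r y ∧ l y ≤ r a := by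
    intro y hy a ha
    have hne : a ≠ y := fun x => P.out y hy (x ▸ ha)
    obtain ⟨t, t1, t2, -⟩ := (H.adj y (P.subY hy) a (P.sub ha) hne.symm).1
      ((P.adj y hy a (P.sub ha) hne).2 ha)
    exact ⟨t2.1.trans t1.2, t1.1.trans t2.2⟩
  have hal : ∀ a ∈ T, ∀ t, Al l r y2 t → Al l r a t := fun a ha t ht =>
    ⟨by linarith [(meet y1 m1 a ha).1, m2.2, ht.1], by linarith [(meet y3 m3.1.1 a ha).2, m3.2, ht.2]⟩
  have h2 : Al l r y2 (r y2) := ⟨(H.lt y2 (P.subY m2.1)).le, le_rfl⟩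
  obtain ⟨n, n1, n2⟩ := exists_min_image {w | w ∈ S ∧ r y2 < l w} l (hS.subset fun _ a => a.1)
    ⟨y3, P.subY m3.1.1, m3.2⟩
  have n3 := n2 y3 ⟨P.subY m3.1.1, m3.2⟩
  have n4 := n1.2
  refine ⟨(r y2 + l n) / 2, fun a ha => ⟨by linarith [(hal a ha _ h2).1],
    by linarith [(meet y3 m3.1.1 a ha).2]⟩, ?_⟩
  intro w hw hwT a ha b hb haw hwb hτ
  have w1 : Al l r w (r y2) := by
    refine ⟨?_, by linarith [hτ.2]⟩
    by_contra c
    linarith [n2 w ⟨hw, not_le.1 c⟩, hτ.1]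
  have w2 : w ≠ y2 := by
    rintro rfl
    linarith [hτ.2]
  rcases lt_or_gt_of_ne (H.disj w hw y2 (P.subY m2.1) w2 _ w1 h2) with c | c
  · exact P.above H.flip hS m2.1 hal h2 hw hwT w1 (neg_lt_neg c) ha (neg_lt_neg haw)
  · exact P.above H hS m2.1 hal h2 hw hwT w1 c hb hwb

end Pool.Agent.Lib.MP_0d8e88_lc
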