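import Pool.Agent.Lib.MP_0d8e88_lc.Back
import Pool.Agent.Shared.PolyTime.Extra
import Pool.Agent.Shared.PolyTime.CookLevin

/-!
The reduction is computable in polynomial time.
-/

namespace Pool.Agent.Lib.MP_0d8e88_lc

open Pool.Agent.Shared.PolyTime N487b59b3 N68a2faeb N793a5b8e

/-- The list of the occurrences of variables. -/
def occ (φ : List (Clause3 ℕ)) : List ℕ := φ.flatMap fun c => [c.1.1, c.2.1.1, c.2.2.1]

def sort3 (a b c : ℕ × Bool) : Clause3 ℕ :=
  if a.1 < b.1 then (if b.1 < c.1 then (a, b, c) else if a.1 < c.1 then (a, c, b) else (c, a, b))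
  else (if a.1 < c.1 then (b, a, c) else if b.1 < c.1 then (b, c, a) else (c, b, a))

/-- Renumber the variables and sort the clauses. -/
def prep (φ : List (Clause3 ℕ)) : List (Clause3 ℕ) := φ.map fun c =>
  sort3 ((occ φ).idxOf c.1.1 + 1, c.1.2) ((occ φ).idxOf c.2.1.1 + 1, c.2.1.2)
    ((occ φ).idxOf c.2.2.1 + 1, c.2.2.2)

theorem pt_prep : IsPolyTime prep := by
  unfold prep sort3 occ
  fun_prop

theorem sort3_holds (ν : ℕ → Bool) (a b c : ℕ × Bool) :
    (sort3 a b c).Holds ν ↔ ν a.1 = a.2 ∨ ν b.1 = b.2 ∨ ν c.1 = c.2 := by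
  unfold sort3
  split_ifs <;> simp only [Clause3.Holds] <;> tauto

theorem sort3_sorted {a b c : ℕ × Bool} {N : ℕ} (h1 : a.1 ≠ b.1) (h2 : a.1 ≠ c.1) (h3 : b.1 ≠ c.1)
    (ha : 1 ≤ a.1 ∧ a.1 ≤ N) (hb : 1 ≤ b.1 ∧ b.1 ≤ N) (hc : 1 ≤ c.1 ∧ c.1 ≤ N) :
    1 ≤ (sort3 a b c).1.1 ∧ (sort3 a b c).1.1 < (sort3 a b c).2.1.1 ∧
      (sort3 a b c).2.1.1 < (sort3 a b c).2.2.1 ∧ (sort3 a b c).2.2.1 ≤ N := by
  unfold sort3
  split_ifs <;> dsimp only <;> omega

theorem length_occ (φ : List (Clause3 ℕ)) : (occ φ).length = 3 * φ.length := by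
  induction φ with
  | nil => rfl
  | cons c φ ih =>
    simp only [occ, List.flatMap_cons, List.length_append, List.length_cons, List.length_nil] at *
    omega

theorem mem_occ {φ : List (Clause3 ℕ)} {c : Clause3 ℕ} (hc : c ∈ φ) :
    c.1.1 ∈ occ φ ∧ c.2.1.1 ∈ occ φ ∧ c.2.2.1 ∈ occ φ :=
  ⟨List.mem_flatMap.2 ⟨c, hc, by simp⟩, List.mem_flatMap.2 ⟨c, hc, by simp⟩,
    List.mem_flatMap.2 ⟨c, hc, by simp⟩⟩

theorem prep_ok (φ : List (Clause3 ℕ)) (h : Distinct3 φ) :
    Sorted (prep φ) ∧ (Sat3 φ ↔ Sat3 (prep φ)) := by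
  have g : ∀ v ∈ occ φ, (occ φ).getD ((occ φ).idxOf v) 0 = v := by
    intro v hv
    rw [List.getD_eq_getElem _ _ (List.idxOf_lt_length_of_mem hv), List.getElem_idxOf]
  have ne : ∀ v ∈ occ φ, ∀ w ∈ occ φ, v ≠ w → (occ φ).idxOf v + 1 ≠ (occ φ).idxOf w + 1 := by
    intro v hv w hw n e
    exact n (by rw [← g v hv, ← g w hw, Nat.add_right_cancel e])
  have bd : ∀ v ∈ occ φ, 1 ≤ (occ φ).idxOf v + 1 ∧ (occ φ).idxOf v + 1 ≤ 3 * (prep φ).length := by
    intro v hv
    have := List.idxOf_lt_length_of_mem hv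
    rw [length_occ] at this
    simp only [prep, List.length_map]
    omega
  refine ⟨fun c hc => ?_, ?_, ?_⟩
  · obtain ⟨c, hc', rfl⟩ := List.mem_map.1 hc
    obtain ⟨m1, m2, m3⟩ := mem_occ hc'
    obtain ⟨d1, d2, d3⟩ := h c hc'
    exact sort3_sorted (ne _ m1 _ m2 d1) (ne _ m1 _ m3 d2) (ne _ m2 _ m3 d3) (bd _ m1) (bd _ m2)
      (bd _ m3)
  · rintro ⟨ν, hν⟩
    refine ⟨fun s => ν ((occ φ).getD (s - 1) 0), fun c hc => ?_⟩
    obtain ⟨c, hc', rfl⟩ := List.mem_map.1 hc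
    obtain ⟨m1, m2, m3⟩ := mem_occ hc'
    rw [sort3_holds]
    simp only [Nat.add_sub_cancel, g _ m1, g _ m2, g _ m3]
    exact hν c hc'
  · rintro ⟨ν, hν⟩
    refine ⟨fun v => ν ((occ φ).idxOf v + 1), fun c hc => ?_⟩
    exact (sort3_holds ν _ _ _).1 (hν _ (List.mem_map.2 ⟨c, hc, rfl⟩))

theorem hard_sorted : NPHardOn Sorted (Sat3 (V := ℕ)) :=
  npHardOn_sat3.reduce prep pt_prep prep_ok

/-- The vertices of the graph. -/
abbrev Vx : Type := (ℕ × ℕ) ⊕ ((ℕ × ℕ × ℕ) × ℕ)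

def coreL (ψ : List (Clause3 ℕ)) : List (ℕ × ℕ) :=
  ((List.range (49 * ψ.length + 5)).product (List.range (nv ψ + 5))).filter (isCore ψ)

def twinL (ψ : List (Clause3 ℕ)) : List ((ℕ × ℕ × ℕ) × ℕ) :=
  (((List.range ψ.length).product ((List.range (nv ψ + 5)).product (List.range 14))).filter
    fun p => decide (p.2.2 < (pins (kind ψ p.1 p.2.1)).length)).product (List.range 7)

def vl (ψ : List (Clause3 ℕ)) : List Vx := (coreL ψ).map Sum.inl ++ (twinL ψ).map Sum.inr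

theorem vl_nodup (ψ : List (Clause3 ℕ)) : (vl ψ).Nodup := by
  refine List.Nodup.append (List.Nodup.map Sum.inl_injective ?_)
    (List.Nodup.map Sum.inr_injective ?_) ?_
  · exact (List.nodup_range.product List.nodup_range).filter _
  · exact ((List.nodup_range.product (List.nodup_range.product List.nodup_range)).filter _).product
      List.nodup_range
  · simp [List.disjoint_left]

theorem mem_vl (ψ : List (Clause3 ℕ)) (x : Vx) :
    x ∈ vl ψ ↔ x ∈ tS (coreS ψ) {y : (ℕ × ℕ × ℕ) × ℕ | y.1 ∈ pinI ψ ∧ y.2 < 7} := by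
  rcases x with ⟨y, j⟩ | ⟨⟨r, s, p⟩, i⟩
  · have : isCore ψ (y, j) = true → y < 49 * ψ.length + 5 ∧ j < nv ψ + 5 := by
      intro h
      refine ⟨core_lt h, ?_⟩
      simp only [isCore, Bool.and_eq_true, decide_eq_true_eq] at h
      have h2 := h.2
      split_ifs at h2
      · simp only [decide_eq_true_eq] at h2
        omega
      · simp only [Bool.and_eq_true, decide_eq_true_eq] at h2
        exact h2.1
    simpa [vl, coreL, tS, coreS] using this
  · have := pins_len _ (kind_mem (ψ := ψ) r s)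
    simp only [vl, twinL, tS, pinI, List.mem_append, List.mem_map, reduceCtorEq, and_false,
      exists_false, Sum.inr.injEq, exists_eq_right, false_or, List.pair_mem_product,
      List.mem_filter, List.mem_range, decide_eq_true_eq, Set.mem_ofPred_eq, Sum.elim_inr]
    omega

instance (ψ : List (Clause3 ℕ)) (u v : ℕ × ℕ) : Decidable (adjU ψ u v) := by
  unfold adjU
  infer_instance

def adjB (ψ : List (Clause3 ℕ)) (x y : Vx) : Bool :=
  Sum.elim (fun u => Sum.elim (fun v => decide (adjU ψ u v) || decide (adjU ψ v u))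
      (fun q => decide (u ∈ pinP ψ q.1)) y)
    (fun p => Sum.elim (fun v => decide (v ∈ pinP ψ p.1)) (fun _ => false) y) x

theorem adjB_iff (ψ : List (Clause3 ℕ)) (x y : Vx) :
    adjB ψ x y = true ↔ tA (adjC ψ) (fun y => pinP ψ y.1) x y := by
  cases x <;> cases y <;> simp [adjB, tA, adjC]

/-- The graph attached to a formula. -/
def graph (ψ : List (Clause3 ℕ)) : SimpleGraph (Fin (vl ψ).length) where
  Adj i j := adjB ψ (vl ψ)[i] (vl ψ)[j] = true
  symm := ⟨fun i j => by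
    generalize (vl ψ)[i] = x
    generalize (vl ψ)[j] = y
    cases x <;> cases y <;> simp [adjB, or_comm]⟩
  loopless := ⟨fun i => by
    generalize (vl ψ)[i] = x
    cases x <;> simp [adjB, adjU]⟩

theorem graph_iff {ψ : List (Clause3 ℕ)} (hS : Sorted ψ) : Sat3 ψ ↔ IsBarVis 2 (graph ψ) := by
  have e : Set.range (fun i : Fin (vl ψ).length => (vl ψ)[i]) =
      tS (coreS ψ) {y : (ℕ × ℕ × ℕ) × ℕ | y.1 ∈ pinI ψ ∧ y.2 < 7} := by
    ext x
    rw [← mem_vl, List.mem_iff_get]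
    rfl
  rw [isBarVis_iff_on (graph ψ) (f := fun i => (vl ψ)[i]) (List.nodup_iff_injective_get.1
    (vl_nodup ψ)) (fun i j _ => adjB_iff ψ _ _), e]
  exact ⟨forward hS, fun ⟨_, _, _, H⟩ => backward hS H⟩

/-- The adjacency matrix of the graph. -/
def word (ψ : List (Clause3 ℕ)) : List Bool :=
  (List.range ((vl ψ).length * (vl ψ).length)).map fun k =>
    adjB ψ ((vl ψ).getD (k / (vl ψ).length) (.inl (0, 0)))
      ((vl ψ).getD (k % (vl ψ).length) (.inl (0, 0)))

theorem word_eq (ψ : List (Clause3 ℕ)) : word ψ = adjWord (graph ψ) := by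
  apply List.ext_getElem
  · simp [word, adjWord]
  · intro k h1 h2
    have hk : k < (vl ψ).length * (vl ψ).length := by simpa [word] using h1
    have h0 : 0 < (vl ψ).length := Nat.pos_of_ne_zero fun e => by simp [e] at hk
    simp only [word, adjWord, graph, List.getElem_map, List.getElem_range, List.getElem_ofFn,
      Fin.divNat, Fin.modNat, Fin.getElem_fin, Bool.decide_eq_true]
    rw [List.getD_eq_getElem _ _ (Nat.div_lt_of_lt_mul hk),
      List.getD_eq_getElem _ _ (Nat.mod_lt _ h0)]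

section pt

variable {α : Type} [N487b59b3 α] {ψ : α → List (Clause3 ℕ)}

@[fun_prop]
theorem pt_kind {r s : α → ℕ} (h : IsPolyTime ψ) (hr : IsPolyTime r) (hs : IsPolyTime s) :
    IsPolyTime (fun x => kind (ψ x) (r x) (s x)) := by
  unfold kind row nv
  fun_prop

@[fun_prop]
theorem pt_vx {r s : α → ℕ} (hr : IsPolyTime r) (hs : IsPolyTime s) :
    IsPolyTime (fun x => vx (r x) (s x)) := by
  unfold vx isLong
  fun_prop

theorem exTab : ∀ k l, ex k l = decide ((tabs.getD (3 * k) 0 >>> (8 * l)) % 16 ≠ 0) := by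
  intro k l
  rw [Bool.eq_iff_iff]
  simp [ex, ed, tab]

@[fun_prop]
theorem pt_isCore {v : α → ℕ × ℕ} (h : IsPolyTime ψ) (hv : IsPolyTime v) :
    IsPolyTime (fun x => isCore (ψ x) (v x)) := by
  unfold isCore isLong nv
  simp only [exTab]
  fun_prop

@[fun_prop]
theorem pt_vl (h : IsPolyTime ψ) : IsPolyTime (fun x => vl (ψ x)) := by
  unfold vl coreL twinL nv pins
  fun_prop

@[fun_prop]
theorem pt_adjU {u v : α → ℕ × ℕ} (h : IsPolyTime ψ) (hu : IsPolyTime u) (hv : IsPolyTime v) :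
    IsPolyTime (fun x => decide (adjU (ψ x) (u x) (v x))) := by
  unfold adjU LV nv
  fun_prop

@[fun_prop]
theorem pt_pinP {p : α → ℕ × ℕ × ℕ} (h : IsPolyTime ψ) (hp : IsPolyTime p) :
    IsPolyTime (fun x => pinP (ψ x) (p x)) := by
  unfold pinP pin pins cv
  fun_prop

@[fun_prop]
theorem pt_adjB {u v : α → Vx} (h : IsPolyTime ψ) (hu : IsPolyTime u) (hv : IsPolyTime v) :
    IsPolyTime (fun x => adjB (ψ x) (u x) (v x)) := by
  unfold adjB
  fun_prop

end pt

theorem pt_word : IsPolyTime word := by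
  unfold word
  fun_prop

theorem hard : ∀ L ∈ NP, ∃ f : List Bool → List Bool, IsPolyTime f ∧ ∀ x,
    ∃ (n : ℕ) (G : SimpleGraph (Fin n)), f x = adjWord G ∧ (L x = true ↔ IsBarVis 2 G) := by
  intro L hL
  obtain ⟨f, hf, hf'⟩ := hard_sorted L hL
  exact ⟨fun x => word (f x), pt_word.comp hf, fun x =>
    ⟨_, graph (f x), word_eq _, (hf' x).2.trans (graph_iff (hf' x).1)⟩⟩

end Pool.Agent.Lib.MP_0d8e88_lc
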