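import Pool.Agent.Lib.MP_0d8e88_lc.Defs

/-!
Combinatorial form of a representation: heights and life intervals.
-/

namespace Pool.Agent.Lib.MP_0d8e88_lc

open Set

variable {V W : Type}

/-- `w` lies strictly between `u` and `v` in height. -/
def Btw (h : V → ℝ) (u w v : V) : Prop := (h u < h w ∧ h w < h v) ∨ (h v < h w ∧ h w < h u)

/-- The bar of `v` meets the vertical line of abscissa `t`. -/
def Al (l r : V → ℝ) (v : V) (t : ℝ) : Prop := l v ≤ t ∧ t ≤ r v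

/-- Representation of the relation `A` on the set `S`. -/
structure RepOn (k : ℕ) (S : Set V) (A : V → V → Prop) (h l r : V → ℝ) : Prop where
  lt : ∀ v ∈ S, l v < r v
  dist : ∀ u ∈ S, ∀ v ∈ S, u ≠ v → l u ≠ l v ∧ r u ≠ r v ∧ l u ≠ r v
  disj : ∀ u ∈ S, ∀ v ∈ S, u ≠ v → ∀ t, Al l r u t → Al l r v t → h u ≠ h v
  adj : ∀ u ∈ S, ∀ v ∈ S, u ≠ v → (A u v ↔ ∃ t, Al l r u t ∧ Al l r v t ∧
    {w | w ∈ S ∧ Al l r w t ∧ Btw h u w v}.ncard ≤ k)

theorem Bar.mem_pts (b : Bar) (p : ℝ × ℝ) : p ∈ b.pts ↔ (b.l ≤ p.1 ∧ p.1 ≤ b.r) ∧ p.2 = b.y := by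
  obtain ⟨x, y⟩ := p
  have := b.lt
  rw [Bar.pts]
  constructor
  · rintro ⟨a, c, ha, hc, hac, h⟩
    simp only [Prod.smul_mk, smul_eq_mul, Prod.mk_add_mk, Prod.mk.injEq] at h
    obtain ⟨rfl, rfl⟩ := h
    obtain rfl : a = 1 - c := by linarith
    refine ⟨⟨by nlinarith, by nlinarith⟩, by ring⟩
  · rintro ⟨h1, rfl⟩
    have h2 : x ∈ segment ℝ b.l b.r := by
      rw [segment_eq_Icc this.le]
      exact h1
    obtain ⟨a, c, ha, hc, hac, h⟩ := h2
    refine ⟨a, c, ha, hc, hac, ?_⟩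
    simp only [Prod.smul_mk, smul_eq_mul, Prod.mk_add_mk, Prod.mk.injEq]
    refine ⟨h, ?_⟩
    rw [← add_mul, hac, one_mul]

theorem mem_vertical (t a b : ℝ) (p : ℝ × ℝ) :
    p ∈ segment ℝ (t, a) (t, b) ↔ p.1 = t ∧ p.2 ∈ uIcc a b := by
  obtain ⟨x, y⟩ := p
  rw [← segment_eq_uIcc]
  constructor
  · rintro ⟨c, d, hc, hd, hcd, h⟩
    simp only [Prod.smul_mk, smul_eq_mul, Prod.mk_add_mk, Prod.mk.injEq] at h
    refine ⟨?_, c, d, hc, hd, hcd, h.2⟩
    rw [← h.1, ← add_mul, hcd, one_mul]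
  · rintro ⟨rfl, c, d, hc, hd, hcd, h⟩
    refine ⟨c, d, hc, hd, hcd, ?_⟩
    simp only [Prod.smul_mk, smul_eq_mul, Prod.mk_add_mk, Prod.mk.injEq]
    refine ⟨?_, h⟩
    rw [← add_mul, hcd, one_mul]

theorem disjoint_pts_iff (b c : Bar) : Disjoint b.pts c.pts ↔
    ∀ t, (b.l ≤ t ∧ t ≤ b.r) → (c.l ≤ t ∧ t ≤ c.r) → b.y ≠ c.y := by
  rw [Set.disjoint_left]
  constructor
  · intro h t h1 h2 e
    exact h (a := (t, b.y)) ((b.mem_pts _).2 ⟨h1, rfl⟩) ((c.mem_pts _).2 ⟨h2, e⟩)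
  · intro h p h1 h2
    rw [Bar.mem_pts] at h1 h2
    exact h p.1 h1.1 h2.1 (h1.2.symm.trans h2.2)

theorem isBarRep_iff (k : ℕ) (G : SimpleGraph V) (bar : V → Bar) :
    IsBarRep k G bar ↔
      RepOn k univ G.Adj (fun v => (bar v).y) (fun v => (bar v).l) (fun v => (bar v).r) := by
  have key : (∀ u v, u ≠ v → ∀ t, ((bar u).l ≤ t ∧ t ≤ (bar u).r) →
      ((bar v).l ≤ t ∧ t ≤ (bar v).r) → (bar u).y ≠ (bar v).y) → ∀ u v, u ≠ v →
      ((∃ p ∈ (bar u).pts, ∃ q ∈ (bar v).pts, p.1 = q.1 ∧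
        {w | w ≠ u ∧ w ≠ v ∧ (segment ℝ p q ∩ (bar w).pts).Nonempty}.ncard ≤ k) ↔
      ∃ t, Al (fun v => (bar v).l) (fun v => (bar v).r) u t ∧
        Al (fun v => (bar v).l) (fun v => (bar v).r) v t ∧
        {w | w ∈ univ ∧ Al (fun v => (bar v).l) (fun v => (bar v).r) w t ∧
          Btw (fun v => (bar v).y) u w v}.ncard ≤ k) := by
    intro hd u v _
    have hs : ∀ t, ((bar u).l ≤ t ∧ t ≤ (bar u).r) → ((bar v).l ≤ t ∧ t ≤ (bar v).r) →
        {w | w ≠ u ∧ w ≠ v ∧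
          (segment ℝ (t, (bar u).y) (t, (bar v).y) ∩ (bar w).pts).Nonempty} =
        {w | w ∈ univ ∧ Al (fun v => (bar v).l) (fun v => (bar v).r) w t ∧
          Btw (fun v => (bar v).y) u w v} := by
      intro t h1 h2
      ext w
      simp only [mem_ofPred_eq, mem_univ, true_and, Al, Btw]
      constructor
      · rintro ⟨e1, e2, p, hp1, hp2⟩
        rw [mem_vertical] at hp1
        rw [Bar.mem_pts, hp1.1] at hp2
        have a1 := hd w u e1 t hp2.1 h1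
        have a2 := hd w v e2 t hp2.1 h2
        have a3 := hp1.2
        rw [hp2.2, mem_uIcc] at a3
        refine ⟨hp2.1, ?_⟩
        rcases a3 with a3 | a3
        · exact Or.inl ⟨lt_of_le_of_ne a3.1 a1.symm, lt_of_le_of_ne a3.2 a2⟩
        · exact Or.inr ⟨lt_of_le_of_ne a3.1 a2.symm, lt_of_le_of_ne a3.2 a1⟩
      · rintro ⟨h3, h4⟩
        refine ⟨?_, ?_, (t, (bar w).y), ?_, ?_⟩
        · rintro rfl
          rcases h4 with h4 | h4 <;> linarith [h4.1, h4.2]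
        · rintro rfl
          rcases h4 with h4 | h4 <;> linarith [h4.1, h4.2]
        · rw [mem_vertical, mem_uIcc]
          refine ⟨rfl, ?_⟩
          rcases h4 with h4 | h4
          · exact Or.inl ⟨h4.1.le, h4.2.le⟩
          · exact Or.inr ⟨h4.1.le, h4.2.le⟩
        · exact ((bar w).mem_pts _).2 ⟨h3, rfl⟩
    constructor
    · rintro ⟨⟨t, a⟩, hp, ⟨t', b⟩, hq, e, hc⟩
      rw [Bar.mem_pts] at hp hq
      obtain rfl : t = t' := e
      obtain rfl : a = _ := hp.2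
      obtain rfl : b = _ := hq.2
      exact ⟨t, hp.1, hq.1, hs t hp.1 hq.1 ▸ hc⟩
    · rintro ⟨t, h1, h2, hc⟩
      refine ⟨(t, (bar u).y), ((bar u).mem_pts _).2 ⟨h1, rfl⟩, (t, (bar v).y),
        ((bar v).mem_pts _).2 ⟨h2, rfl⟩, rfl, ?_⟩
      rw [hs t h1 h2]
      exact hc
  constructor
  · intro h
    have hd := fun u v e => (disjoint_pts_iff _ _).1 (h.disjoint u v e)
    exact ⟨fun v _ => (bar v).lt, fun u _ v _ e => h.distinct u v e, fun u _ v _ e => hd u v e,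
      fun u _ v _ e => (h.adj_iff u v e).trans (key hd u v e)⟩
  · intro h
    have hd := fun u v e => h.disj u trivial v trivial e
    exact ⟨fun u v e => (disjoint_pts_iff _ _).2 (hd u v e),
      fun u v e => h.dist u trivial v trivial e,
      fun u v e => (h.adj u trivial v trivial e).trans (key hd u v e).symm⟩

theorem isBarVis_iff {n : ℕ} (k : ℕ) (G : SimpleGraph (Fin n)) :
    IsBarVis k G ↔ ∃ h l r, RepOn k univ G.Adj h l r := by
  constructor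
  · rintro ⟨bar, hb⟩
    exact ⟨_, _, _, (isBarRep_iff k G bar).1 hb⟩
  · rintro ⟨h, l, r, hr⟩
    exact ⟨fun v => ⟨h v, l v, r v, hr.lt v trivial⟩, (isBarRep_iff k G _).2 hr⟩

theorem repOn_range {k : ℕ} {f : W → V} (hf : Function.Injective f) {A : V → V → Prop}
    {h l r : V → ℝ} : RepOn k (range f) A h l r ↔
      RepOn k univ (fun i j => A (f i) (f j)) (h ∘ f) (l ∘ f) (r ∘ f) := by
  have hs : ∀ i j t, {w | w ∈ range f ∧ Al l r w t ∧ Btw h (f i) w (f j)}.ncard =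
      {w | w ∈ univ ∧ Al (l ∘ f) (r ∘ f) w t ∧ Btw (h ∘ f) i w j}.ncard := by
    intro i j t
    rw [← ncard_image_of_injective _ hf]
    congr 1
    ext w
    constructor
    · rintro ⟨⟨w, rfl⟩, h1⟩
      exact ⟨w, ⟨trivial, h1⟩, rfl⟩
    · rintro ⟨w, h1, rfl⟩
      exact ⟨⟨w, rfl⟩, h1.2⟩
  constructor
  · intro H
    refine ⟨fun v _ => H.lt _ ⟨v, rfl⟩, fun u _ v _ e => H.dist _ ⟨u, rfl⟩ _ ⟨v, rfl⟩ (hf.ne e),
      fun u _ v _ e => H.disj _ ⟨u, rfl⟩ _ ⟨v, rfl⟩ (hf.ne e), fun u _ v _ e => ?_⟩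
    rw [H.adj _ ⟨u, rfl⟩ _ ⟨v, rfl⟩ (hf.ne e)]
    simp only [hs]
    rfl
  · intro H
    refine ⟨?_, ?_, ?_, ?_⟩
    · rintro _ ⟨v, rfl⟩
      exact H.lt v trivial
    · rintro _ ⟨u, rfl⟩ _ ⟨v, rfl⟩ e
      exact H.dist u trivial v trivial (fun h => e (congrArg f h))
    · rintro _ ⟨u, rfl⟩ _ ⟨v, rfl⟩ e
      exact H.disj u trivial v trivial (fun h => e (congrArg f h))
    · rintro _ ⟨u, rfl⟩ _ ⟨v, rfl⟩ e
      rw [H.adj u trivial v trivial (fun h => e (congrArg f h))]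
      simp only [hs]
      rfl

theorem RepOn.congr {k : ℕ} {S : Set V} {A A' : V → V → Prop} {h l r : V → ℝ}
    (H : RepOn k S A h l r) (e : ∀ u ∈ S, ∀ v ∈ S, u ≠ v → (A' u v ↔ A u v)) :
    RepOn k S A' h l r :=
  ⟨H.lt, H.dist, H.disj, fun u hu v hv n => (e u hu v hv n).trans (H.adj u hu v hv n)⟩

/-- Transfer between a graph on `Fin n` and a relation on an enumerated set. -/
theorem isBarVis_iff_on {n k : ℕ} (G : SimpleGraph (Fin n)) {f : Fin n → V}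
    (hf : Function.Injective f) {A : V → V → Prop}
    (hA : ∀ i j, i ≠ j → (G.Adj i j ↔ A (f i) (f j))) :
    IsBarVis k G ↔ ∃ h l r, RepOn k (range f) A h l r := by
  rw [isBarVis_iff]
  constructor
  · rintro ⟨h, l, r, H⟩
    refine ⟨Function.extend f h 0, Function.extend f l 0, Function.extend f r 0, ?_⟩
    rw [repOn_range hf, Function.extend_comp hf, Function.extend_comp hf, Function.extend_comp hf]
    exact H.congr (fun u _ v _ e => (hA u v e).symm)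
  · rintro ⟨h, l, r, H⟩
    exact ⟨_, _, _, ((repOn_range hf).1 H).congr (fun u _ v _ e => hA u v e)⟩

end Pool.Agent.Lib.MP_0d8e88_lc
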